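import Pool.Agent.BT.Defs
import Pool.Agent.BB.Window

set_option autoImplicit false

open scoped ENNReal
open Filter Topology Pool.Agent.SawTree Pool.Agent.BB

namespace Pool.Agent.BT

variable {α : Type} (ht : α → ℕ) (dx : α → ℤ) (w : α → ℝ≥0∞)

theorem Vset_zero : Vset ht 0 = {[]} := by
  ext l
  constructor
  · rintro ⟨_, hl⟩
    by_contra hne
    exact absurd (hl [] l rfl hne) (by simp)
  · intro h
    have h' : l = [] := h
    subst h'
    refine ⟨Nat.zero_le _, ?_⟩
    intro q r hqr hr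
    exact absurd (List.append_eq_nil_iff.mp hqr.symm).2 hr

theorem VV_mono {m m' : ℕ} (h : m ≤ m') : VV ht w m ≤ VV ht w m' := by
  unfold VV
  exact Finset.sum_le_sum_of_subset (Finset.range_mono h)

theorem GG_mono {m m' : ℕ} (h : m ≤ m') : GG ht w m ≤ GG ht w m' := by
  unfold GG
  exact Finset.sum_le_sum_of_subset (Finset.range_mono h)

theorem one_le_VV (hht : ∀ a, 1 ≤ ht a) (m : ℕ) (hm : 1 ≤ m) : 1 ≤ VV ht w m := by
  refine le_trans ?_ (VV_mono ht w hm)
  unfold VV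
  rw [Finset.range_one, Finset.sum_singleton, Bw_zero ht w hht]
  simp

theorem one_le_GG (hht : ∀ a, 1 ≤ ht a) (m : ℕ) (hm : 1 ≤ m) : 1 ≤ GG ht w m := by
  refine le_trans ?_ (GG_mono ht w hm)
  unfold GG
  rw [Finset.range_one, Finset.sum_singleton, Bw_zero ht w hht]

theorem VV_le (hht : ∀ a, 1 ≤ ht a) (hw : ∑' a, w a ≤ 1) (m : ℕ) : VV ht w m ≤ m := by
  unfold VV
  calc ∑ n ∈ Finset.range m, Bw ht w n ^ 2 ≤ ∑ n ∈ Finset.range m, (1 : ℝ≥0∞) := by
        apply Finset.sum_le_sum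
        intro n _
        exact pow_le_one' (Bw_le_one ht w hht hw n) 2
    _ = m := by simp

theorem GG_le (hht : ∀ a, 1 ≤ ht a) (hw : ∑' a, w a ≤ 1) (m : ℕ) : GG ht w m ≤ m := by
  unfold GG
  calc ∑ n ∈ Finset.range m, Bw ht w n ≤ ∑ n ∈ Finset.range m, (1 : ℝ≥0∞) := by
        apply Finset.sum_le_sum
        intro n _
        exact Bw_le_one ht w hht hw n
    _ = m := by simp

/-- subadditivity, from `window` -/
theorem GG_add_le (hht : ∀ a, 1 ≤ ht a) (hw : ∑' a, w a ≤ 1) (m q : ℕ) :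
    GG ht w (m + q) ≤ GG ht w m + GG ht w q := by
  unfold GG
  have h := Finset.sum_range_add_sum_Ico (fun n => Bw ht w n) (Nat.le_add_right m q)
  rw [← h]
  exact add_le_add le_rfl (window ht w hht hw m q)

theorem GG_mul_le (hht : ∀ a, 1 ≤ ht a) (hw : ∑' a, w a ≤ 1) (k s : ℕ) :
    GG ht w (k * s) ≤ k * GG ht w s := by
  induction k with
  | zero => simp [GG]
  | succ k ih =>
    have h1 : (k + 1) * s = k * s + s := by ring
    rw [h1]
    refine le_trans (GG_add_le ht w hht hw (k * s) s) ?_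
    push_cast
    rw [add_mul, one_mul]
    gcongr

theorem GG_ne_top (hht : ∀ a, 1 ≤ ht a) (hw : ∑' a, w a ≤ 1) (m : ℕ) : GG ht w m ≠ ⊤ :=
  ne_top_of_le_ne_top (ENNReal.natCast_ne_top m) (GG_le ht w hht hw m)

theorem VV_ne_top (hht : ∀ a, 1 ≤ ht a) (hw : ∑' a, w a ≤ 1) (m : ℕ) : VV ht w m ≠ ⊤ :=
  ne_top_of_le_ne_top (ENNReal.natCast_ne_top m) (VV_le ht w hht hw m)

theorem GG_ne_zero (hht : ∀ a, 1 ≤ ht a) (m : ℕ) (hm : 1 ≤ m) : GG ht w m ≠ 0 := by
  intro h
  have := one_le_GG ht w hht m hm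
  rw [h] at this
  simp at this

theorem VV_ne_zero (hht : ∀ a, 1 ≤ ht a) (m : ℕ) (hm : 1 ≤ m) : VV ht w m ≠ 0 := by
  intro h
  have := one_le_VV ht w hht m hm
  rw [h] at this
  simp at this

/-- `G_m` is the total weight of the lists of height less than `m` -/
theorem GG_eq (m : ℕ) : GG ht w m = wsum {l : List α | hL ht l < m} (wL w) := by
  unfold GG
  apply le_antisymm
  · apply sum_wsum_le_of_disj
    · intro n hn l hl
      have hl' : hL ht l = n := hl
      show hL ht l < m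
      rw [hl']; exact Finset.mem_range.mp hn
    · intro i _ j _ l hl hl'
      have h2 : hL ht l = i := hl
      have h3 : hL ht l = j := hl'
      omega
  · refine le_trans ?_ (wsum_biUnion_le (Finset.range m) (fun n => {l : List α | hL ht l = n})
      (wL w))
    apply wsum_mono _ (fun _ _ => le_rfl)
    intro l hl
    exact ⟨hL ht l, Finset.mem_range.mpr hl, rfl⟩

theorem sz_pos (s : ℕ) : 1 ≤ sz s := Nat.one_le_two_pow

theorem sz_mono {s s' : ℕ} (h : s ≤ s') : sz s ≤ sz s' :=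
  Nat.pow_le_pow_right (by norm_num) (by omega)

theorem sc_le_sz (s : ℕ) : sc s ≤ sz s := by
  unfold sc sz
  split
  · exact Nat.zero_le _
  · exact le_rfl

theorem sc_of_pos {s : ℕ} (h : 1 ≤ s) : sc s = sz s := by
  unfold sc sz
  rw [if_neg (by omega)]

theorem sc_mono {s s' : ℕ} (h : s ≤ s') : sc s ≤ sc s' := by
  rcases Nat.eq_zero_or_pos s with h0 | h0
  · rw [h0]; simp [sc]
  · rw [sc_of_pos h0, sc_of_pos (by omega)]
    exact sz_mono h

/-- `KK` passes to initial parts -/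
theorem KK.left {q p q' p' r t : List α} (h : KK ht dx q p) (hq : q = q' ++ r) (hp : p = p' ++ t) :
    KK ht dx q' p' := by
  rcases h with h | h
  · left
    intro q1 r1 p1 t1 e1 e2 h3 h4
    exact h q1 (r1 ++ r) p1 (t1 ++ t) (by rw [hq, e1]; simp) (by rw [hp, e2]; simp) h3 h4
  · right
    intro q1 r1 p1 t1 e1 e2 h3 h4
    exact h q1 (r1 ++ r) p1 (t1 ++ t) (by rw [hq, e1]; simp) (by rw [hp, e2]; simp) h3 h4

theorem KK_nil_left (p : List α) : KK ht dx [] p := by
  left
  intro q1 r1 p1 t1 e1 _ _ h4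
  have : q1 = [] := (List.append_eq_nil_iff.mp e1.symm).1
  rw [this] at h4
  simp [hL] at h4

theorem KK_nil_right (q : List α) : KK ht dx q [] := by
  left
  intro q1 r1 p1 t1 _ e2 h3 h4
  have : p1 = [] := (List.append_eq_nil_iff.mp e2.symm).1
  rw [this] at h3
  rw [h3] at h4
  simp [hL] at h4

end Pool.Agent.BT
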