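import Pool.Agent.BT.Basic

set_option autoImplicit false

open scoped ENNReal
open Filter Topology Pool.Agent.SawTree Pool.Agent.BB

namespace Pool.Agent.BT

theorem cauchy_sum {ι : Type} (s : Finset ι) (f g : ι → ℝ≥0∞) :
    (∑ i ∈ s, f i * g i) ^ 2 ≤ (∑ i ∈ s, f i ^ 2) * ∑ i ∈ s, g i ^ 2 := by
  have h := ENNReal.inner_le_Lp_mul_Lq s f g (p := 2) (q := 2)
    ((Real.holderConjugate_iff).2 ⟨by norm_num, by norm_num⟩)
  have h2 : ∀ x : ℝ≥0∞, x ^ (2 : ℝ) = x ^ 2 := fun x => by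
    rw [← ENNReal.rpow_natCast]; norm_num
  have h3 : ∀ x : ℝ≥0∞, (x ^ (1 / 2 : ℝ)) ^ 2 = x := fun x => by
    rw [← h2, ← ENNReal.rpow_mul]; norm_num
  simp_rw [h2] at h
  calc (∑ i ∈ s, f i * g i) ^ 2
      ≤ ((∑ i ∈ s, f i ^ 2) ^ (1 / 2 : ℝ) * (∑ i ∈ s, g i ^ 2) ^ (1 / 2 : ℝ)) ^ 2 := by
        gcongr
    _ = (∑ i ∈ s, f i ^ 2) * ∑ i ∈ s, g i ^ 2 := by
        rw [mul_pow, h3, h3]

/-- weighted form -/
theorem cauchy_weight {ι : Type} (s : Finset ι) (f g : ι → ℝ≥0∞) :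
    (∑ i ∈ s, f i * g i) ^ 2 ≤ (∑ i ∈ s, f i) * ∑ i ∈ s, f i * g i ^ 2 := by
  have h3 : ∀ x : ℝ≥0∞, x ^ (1 / 2 : ℝ) * x ^ (1 / 2 : ℝ) = x := fun x => by
    rw [← ENNReal.rpow_add_of_nonneg _ _ (by norm_num) (by norm_num)]; norm_num
  have h := cauchy_sum s (fun i => f i ^ (1 / 2 : ℝ)) (fun i => f i ^ (1 / 2 : ℝ) * g i)
  calc (∑ i ∈ s, f i * g i) ^ 2
      = (∑ i ∈ s, f i ^ (1 / 2 : ℝ) * (f i ^ (1 / 2 : ℝ) * g i)) ^ 2 := by
        congr 1
        refine Finset.sum_congr rfl (fun i _ => ?_)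
        rw [← mul_assoc, h3]
    _ ≤ (∑ i ∈ s, (f i ^ (1 / 2 : ℝ)) ^ 2) * ∑ i ∈ s, (f i ^ (1 / 2 : ℝ) * g i) ^ 2 := h
    _ = (∑ i ∈ s, f i) * ∑ i ∈ s, f i * g i ^ 2 := by
        congr 1
        · refine Finset.sum_congr rfl (fun i _ => ?_)
          rw [sq, h3]
        · refine Finset.sum_congr rfl (fun i _ => ?_)
          rw [mul_pow, sq (f i ^ (1 / 2 : ℝ)), h3]

/-- the Cauchy product -/
theorem tsum_conv_le (a b : ℕ → ℝ≥0∞) :
    ∑' n, ∑ i ∈ Finset.range (n + 1), a i * b (n - i) ≤ (∑' i, a i) * ∑' i, b i := by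
  have h1 : ∑' n, ∑ i ∈ Finset.range (n + 1), a i * b (n - i)
      = ∑' x : (Σ n : ℕ, Fin (n + 1)), a x.2 * b (x.1 - x.2) := by
    rw [ENNReal.tsum_sigma (fun (n : ℕ) (i : Fin (n + 1)) => a i * b (n - i))]
    refine tsum_congr (fun n => ?_)
    rw [tsum_fintype, Finset.sum_range]
  have h2 : (∑' i, a i) * ∑' i, b i = ∑' x : ℕ × ℕ, a x.1 * b x.2 := by
    rw [ENNReal.tsum_prod (f := fun i k => a i * b k), ← ENNReal.tsum_mul_right]
    refine tsum_congr (fun i => ?_)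
    rw [ENNReal.tsum_mul_left]
  rw [h1, h2]
  have hinj : Function.Injective
      (fun x : (Σ n : ℕ, Fin (n + 1)) => (((x.2 : ℕ), x.1 - x.2) : ℕ × ℕ)) := by
    rintro ⟨n, i⟩ ⟨n', i'⟩ h
    simp only [Prod.mk.injEq] at h
    obtain ⟨h3, h4⟩ := h
    have h5 := i.2
    have h6 := i'.2
    have h7 : n = n' := by omega
    subst h7
    have h8 : i = i' := Fin.ext h3
    rw [h8]
  exact ENNReal.tsum_comp_le_tsum_of_injective hinj (fun x : ℕ × ℕ => a x.1 * b x.2)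

theorem young (a b : ℕ → ℝ≥0∞) :
    ∑' n, (∑ i ∈ Finset.range (n + 1), a i * b (n - i)) ^ 2 ≤ (∑' i, a i) ^ 2 * ∑' i, b i ^ 2 := by
  calc ∑' n, (∑ i ∈ Finset.range (n + 1), a i * b (n - i)) ^ 2
      ≤ ∑' n, (∑' i, a i) * ∑ i ∈ Finset.range (n + 1), a i * b (n - i) ^ 2 := by
        refine ENNReal.tsum_le_tsum (fun n => ?_)
        refine le_trans (cauchy_weight (Finset.range (n + 1)) a (fun i => b (n - i))) ?_
        gcongr
        exact ENNReal.sum_le_tsum _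
    _ = (∑' i, a i) * ∑' n, ∑ i ∈ Finset.range (n + 1), a i * b (n - i) ^ 2 :=
        ENNReal.tsum_mul_left
    _ ≤ (∑' i, a i) * ((∑' i, a i) * ∑' i, b i ^ 2) := by
        gcongr
        exact tsum_conv_le a (fun k => b k ^ 2)
    _ = (∑' i, a i) ^ 2 * ∑' i, b i ^ 2 := by ring

section Abstract

variable {α : Type} (ht : α → ℕ) (w : α → ℝ≥0∞)

/-- a list of height less than `r` followed by an atom of height at least `r` is in `Vset r` -/
theorem tail_le (hht : ∀ a, 1 ≤ ht a) (hw : ∑' a, w a ≤ 1) (r : ℕ) :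
    GG ht w r * wsum {a : α | r ≤ ht a} w ≤ 1 := by
  rw [GG_eq, ← wsum_prod]
  refine le_trans ?_ (Vset_le_one ht w hht hw r)
  apply wsum_le_of_injOn (fun p : List α × α => p.1 ++ [p.2])
  · rintro ⟨l, a⟩ ⟨hl, ha⟩
    have hl' : hL ht l < r := hl
    have ha' : r ≤ ht a := ha
    refine ⟨?_, ?_⟩
    · show r ≤ hL ht (l ++ [a])
      rw [win_hL_append]
      have : hL ht [a] = ht a := by simp [hL]
      omega
    · intro q t hqt htn
      have hqt' : l ++ [a] = q ++ t := hqt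
      rcases List.append_eq_append_iff.1 hqt' with ⟨c, h1, h2⟩ | ⟨c, h1, h2⟩
      · -- `q = l ++ c`, `[a] = c ++ t`
        cases c with
        | nil =>
          rw [List.append_nil] at h1
          rw [h1]; exact hl'
        | cons d c =>
          exfalso
          have h3 : c ++ t = [] := by
            have h4 := h2
            simp only [List.cons_append, List.cons.injEq] at h4
            exact h4.2.symm
          exact htn (List.append_eq_nil_iff.mp h3).2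
      · rw [h1, win_hL_append] at hl'
        omega
  · rintro ⟨l, a⟩ _ ⟨l', a'⟩ _ h
    have h' : l ++ [a] = l' ++ [a'] := h
    obtain ⟨h1, h2⟩ := List.append_inj' h' rfl
    simp only [List.cons.injEq, and_true] at h2
    rw [h1, h2]
  · rintro ⟨l, a⟩ _
    show wL w l * w a ≤ wL w (l ++ [a])
    rw [win_wL_append]
    apply le_of_eq
    congr 1
    simp [wL]

end Abstract

end Pool.Agent.BT
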