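import Pool.Agent.BT.Cluster
import Pool.Agent.BT.Young

set_option autoImplicit false

open scoped ENNReal
open Filter Topology Pool.Agent.SawTree Pool.Agent.BB

namespace Pool.Agent.BT

section Abstract
variable {α : Type} (ht : α → ℕ) (dx : α → ℤ) (w : α → ℝ≥0∞)

/-- weight of the lists of height less than `g` -/
theorem mb_lt (g : ℕ) : wsum {l : List α | hL ht l < g} (wL w) ≤ GG ht w g := by
  refine le_trans (wsum_mono (T := {l | ∃ n ∈ Finset.range g, l ∈ {l : List α | hL ht l = n}})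
    (fun l hl => ⟨hL ht l, Finset.mem_range.2 hl, rfl⟩) fun x _ => le_rfl) ?_
  exact wsum_biUnion_le _ _ _

/-- the law of the part with the long atom -/
noncomputable def mbA (r g i : ℕ) : ℝ≥0∞ :=
  wsum {p : α × List α | r ≤ ht p.1 ∧ hL ht p.2 < g ∧ ht p.1 + hL ht p.2 = i}
    (fun p => w p.1 * wL w p.2)

/-- the law of the free part -/
noncomputable def mbB (g i : ℕ) : ℝ≥0∞ := if i < g then Bw ht w i else 0

theorem mbA_sum (r g : ℕ) : ∑' i, mbA ht w r g i ≤ wsum {a : α | r ≤ ht a} w * GG ht w g := by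
  have h1 : wsum ({a : α | r ≤ ht a} ×ˢ {l : List α | hL ht l < g})
      (fun p => w p.1 * wL w p.2) ≤ wsum {a : α | r ≤ ht a} w * GG ht w g := by
    rw [wsum_prod]
    exact mul_le_mul' le_rfl (mb_lt ht w g)
  refine le_trans ?_ h1
  refine ENNReal.tsum_le_of_sum_range_le fun n => ?_
  unfold mbA
  refine sum_wsum_le_of_disj _ _ _ _ (fun i _ p hp => ⟨hp.1, hp.2.1⟩) ?_
  intro i _ k _ x hx hy
  exact hx.2.2.symm.trans hy.2.2

theorem mbB_sum (g : ℕ) : ∑' i, mbB ht w g i ^ 2 = VV ht w g := by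
  rw [tsum_eq_sum (s := Finset.range g)]
  · unfold VV
    refine Finset.sum_congr rfl fun i hi => ?_
    rw [mbB, if_pos (Finset.mem_range.1 hi)]
  · intro i hi
    rw [mbB, if_neg (fun h => hi (Finset.mem_range.2 h))]
    simp

theorem mb_conv (r g2 g1 : ℕ) (c : α → List α → List α → List α) (S : ℕ → Set (List α))
    (hS : ∀ n, ∀ m ∈ S n, ∃ a u v, m = c a u v ∧ r ≤ ht a ∧ hL ht u < g2 ∧ hL ht v < g1 ∧
      ht a + hL ht u + hL ht v = n ∧ wL w m = w a * wL w u * wL w v) (n : ℕ) :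
    wsum (S n) (wL w) ≤ ∑ i ∈ Finset.range (n + 1), mbA ht w r g2 i * mbB ht w g1 (n - i) := by
  classical
  have h1 : ∀ i, mbA ht w r g2 i * mbB ht w g1 (n - i) =
      wsum ({p : α × List α | r ≤ ht p.1 ∧ hL ht p.2 < g2 ∧ ht p.1 + hL ht p.2 = i} ×ˢ
        {l : List α | hL ht l = n - i ∧ n - i < g1})
        (fun p => (w p.1.1 * wL w p.1.2) * wL w p.2) := by
    intro i
    have h2 := wsum_prod {p : α × List α | r ≤ ht p.1 ∧ hL ht p.2 < g2 ∧ ht p.1 + hL ht p.2 = i}
      {l : List α | hL ht l = n - i ∧ n - i < g1} (fun p => w p.1 * wL w p.2) (wL w)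
    rw [h2]
    unfold mbA mbB
    by_cases hlt : n - i < g1
    · simp only [hlt, and_true, if_true]
      rfl
    · simp only [hlt, and_false, if_false]
      congr 1
      simp [wsum]
  simp_rw [h1]
  rw [← wsum_sigma (Finset.range (n + 1)) (fun i =>
    {p : α × List α | r ≤ ht p.1 ∧ hL ht p.2 < g2 ∧ ht p.1 + hL ht p.2 = i} ×ˢ
        {l : List α | hL ht l = n - i ∧ n - i < g1})
    (fun _ p => (w p.1.1 * wL w p.1.2) * wL w p.2)]
  rcases isEmpty_or_nonempty α with hα | hα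
  · have hE : S n = ∅ := by
      ext m
      simp only [Set.mem_empty_iff_false, iff_false]
      intro hm
      obtain ⟨a, -⟩ := hS n m hm
      exact hα.elim a
    rw [hE]
    simp [wsum]
  choose! a u v hm h2 h3 h4 h5 h6 using hS
  refine wsum_le_of_injOn (fun m => (ht (a n m) + hL ht (u n m), ((a n m, u n m), v n m)))
    ?_ ?_ ?_
  · intro m hmS
    have e := h5 n m hmS
    refine ⟨Finset.mem_range.2 (by dsimp only; omega), ⟨⟨h2 n m hmS, h3 n m hmS, rfl⟩, ?_, ?_⟩⟩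
    · dsimp only
      omega
    · have := h4 n m hmS
      dsimp only
      omega
  · intro m hm1 m' hm1' he
    simp only [Prod.mk.injEq] at he
    obtain ⟨-, ⟨e1, e2⟩, e3⟩ := he
    rw [hm n m hm1, hm n m' hm1', e1, e2, e3]
  · intro m hm1
    exact le_of_eq (h6 n m hm1)

theorem mb_young (r g2 g1 : ℕ) (c : α → List α → List α → List α) (S : ℕ → Set (List α))
    (hS : ∀ n, ∀ m ∈ S n, ∃ a u v, m = c a u v ∧ r ≤ ht a ∧ hL ht u < g2 ∧ hL ht v < g1 ∧
      ht a + hL ht u + hL ht v = n ∧ wL w m = w a * wL w u * wL w v) :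
    ∑' n, wsum (S n) (wL w) ^ 2 ≤
      (wsum {a : α | r ≤ ht a} w * GG ht w g2) ^ 2 * VV ht w g1 := by
  calc ∑' n, wsum (S n) (wL w) ^ 2
      ≤ ∑' n, (∑ i ∈ Finset.range (n + 1), mbA ht w r g2 i * mbB ht w g1 (n - i)) ^ 2 :=
        ENNReal.tsum_le_tsum fun n =>
          pow_le_pow_left' (mb_conv ht w r g2 g1 c S hS n) 2
    _ ≤ (∑' i, mbA ht w r g2 i) ^ 2 * ∑' i, mbB ht w g1 i ^ 2 := young _ _
    _ ≤ _ := by
        rw [mbB_sum]
        exact mul_le_mul' (pow_le_pow_left' (mbA_sum ht w r g2) 2) le_rfl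

theorem mb_GG_ne_top (hht : ∀ a, 1 ≤ ht a) (hw : ∑' a, w a ≤ 1) (m : ℕ) : GG ht w m ≠ ⊤ :=
  ne_top_of_le_ne_top (ENNReal.natCast_ne_top m) (GG_le ht w hht hw m)

/-- `V` at a multiple -/
theorem mb_VV_mul (hht : ∀ a, 1 ≤ ht a) (hw : ∑' a, w a ≤ 1) (k r : ℕ) (hr : 1 ≤ r) :
    VV ht w (k * r) ≤ ((k : ℝ≥0∞) + 1) ^ 2 * VV ht w r := by
  have h1 := cluster ht w hht hw (k * r) r hr
  have hG1 := one_le_GG ht w hht r hr
  have hG0 : GG ht w r ^ 2 ≠ 0 := pow_ne_zero _ (lt_of_lt_of_le (by norm_num) hG1).ne'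
  have hGt : GG ht w r ^ 2 ≠ ⊤ := ENNReal.pow_ne_top (mb_GG_ne_top ht w hht hw r)
  have h2 : GG ht w (k * r + r) ≤ ((k : ℝ≥0∞) + 1) * GG ht w r := by
    have := GG_mul_le ht w hht hw (k + 1) r
    rw [add_mul, one_mul] at this
    refine this.trans (le_of_eq ?_)
    push_cast
    ring
  refine (ENNReal.mul_le_mul_iff_left hG0 hGt).1 ?_
  refine h1.trans ?_
  calc GG ht w (k * r + r) ^ 2 * VV ht w r ≤ (((k : ℝ≥0∞) + 1) * GG ht w r) ^ 2 * VV ht w r :=
        mul_le_mul' (pow_le_pow_left' h2 2) le_rfl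
    _ = ((k : ℝ≥0∞) + 1) ^ 2 * VV ht w r * GG ht w r ^ 2 := by ring

theorem mb_final (hht : ∀ a, 1 ≤ ht a) (hw : ∑' a, w a ≤ 1) (r g gx : ℕ) (hr : 1 ≤ r)
    (hg : 1 ≤ g) (hgr : g ≤ r) (T gy : ℝ≥0∞)
    (hgy : gy = if gx = 8 * r then VV ht w r else VV ht w gx)
    (hT : T ≤ (wsum {a : α | r ≤ ht a} w * GG ht w g) ^ 2 * VV ht w gx) :
    T * VV ht w r ≤ 324 * (gy * VV ht w g) := by
  have h1 : VV ht w gx ≤ 81 * gy := by
    by_cases h : gx = 8 * r
    · rw [if_pos h] at hgy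
      rw [hgy, h]
      refine (mb_VV_mul ht w hht hw 8 r hr).trans (le_of_eq ?_)
      norm_num
    · rw [if_neg h] at hgy
      rw [hgy]
      calc VV ht w gx = 1 * VV ht w gx := (one_mul _).symm
        _ ≤ 81 * VV ht w gx := mul_le_mul' (by norm_num) le_rfl
  have h2 : GG ht w g ^ 2 * VV ht w r ≤ (2 * GG ht w r) ^ 2 * VV ht w g := by
    have h3 := cluster ht w hht hw r g hg
    have h4 : GG ht w (r + g) ≤ 2 * GG ht w r := by
      have h5 := GG_mul_le ht w hht hw 2 r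
      refine (GG_mono ht w (show r + g ≤ 2 * r by omega)).trans ?_
      simpa using h5
    calc GG ht w g ^ 2 * VV ht w r = VV ht w r * GG ht w g ^ 2 := mul_comm _ _
      _ ≤ GG ht w (r + g) ^ 2 * VV ht w g := h3
      _ ≤ _ := mul_le_mul' (pow_le_pow_left' h4 2) le_rfl
  have h6 : GG ht w r * wsum {a : α | r ≤ ht a} w ≤ 1 := tail_le ht w hht hw r
  calc T * VV ht w r ≤ ((wsum {a : α | r ≤ ht a} w * GG ht w g) ^ 2 * VV ht w gx) * VV ht w r :=
        mul_le_mul' hT le_rfl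
    _ = (wsum {a : α | r ≤ ht a} w) ^ 2 * (GG ht w g ^ 2 * VV ht w r) * VV ht w gx := by ring
    _ ≤ (wsum {a : α | r ≤ ht a} w) ^ 2 * ((2 * GG ht w r) ^ 2 * VV ht w g) * (81 * gy) :=
        mul_le_mul' (mul_le_mul' le_rfl h2) h1
    _ = (GG ht w r * wsum {a : α | r ≤ ht a} w) ^ 2 * (324 * (gy * VV ht w g)) := by ring
    _ ≤ 1 ^ 2 * (324 * (gy * VV ht w g)) := mul_le_mul' (pow_le_pow_left' h6 2) le_rfl
    _ = _ := by ring

theorem Rw_bound (hht : ∀ a, 1 ≤ ht a) (hw : ∑' a, w a ≤ 1) (j s' s : ℕ) (hs' : s' ≤ j + 1)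
    (hs : s ≤ j + 1) :
    (∑' n, Rw ht w j s' s n ^ 2) * VV ht w (sz (j + 1))
      ≤ 324 * (VV ht w (sz s') * VV ht w (sz s)) := by
  have hszj : sz (j + 1) = 2 ^ j := by simp [sz]
  have hr : 1 ≤ 2 ^ j := Nat.one_le_two_pow
  have hsz1 : ∀ t, 1 ≤ sz t := fun t => Nat.one_le_two_pow
  have hszle : ∀ t, t ≤ j + 1 → sz t ≤ 2 ^ j := fun t h =>
    Nat.pow_le_pow_right (by norm_num) (by omega)
  have hwLc : ∀ (y : List α) a (x : List α), wL w (y ++ a :: x) = w a * (wL w x * wL w y) := by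
    intro y a x
    simp only [wL, List.map_append, List.map_cons, List.prod_append, List.prod_cons]
    ring
  have hhLc : ∀ (y : List α) a (x : List α), hL ht (y ++ a :: x) = hL ht y + ht a + hL ht x := by
    intro y a x
    simp only [hL, List.map_append, List.map_cons, List.sum_append, List.sum_cons]
    omega
  rw [hszj]
  by_cases htop : s' = j + 1 ∧ s = j + 1
  · obtain ⟨h1, h2⟩ := htop
    subst h1
    subst h2
    rw [hszj]
    have h3 : ∀ n, Rw ht w j (j + 1) (j + 1) n ≤ mbB ht w (16 * 2 ^ j) n := by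
      intro n
      unfold Rw mbB
      split_ifs with h
      · exact wsum_mono (fun m hm => hm.2) fun x _ => le_rfl
      · have : {m : List α | m ∈ Mid ht j (j + 1) (j + 1) ∧ hL ht m = n} = ∅ := by
          ext m
          simp only [Set.mem_ofPred_eq, Set.mem_empty_iff_false, iff_false, not_and]
          intro hm hn
          rcases hm with hm | hm
          · omega
          · exact hm.1 ⟨rfl, rfl⟩
        rw [this]
        simp [wsum]
    have h4 : ∑' n, Rw ht w j (j + 1) (j + 1) n ^ 2 ≤ VV ht w (16 * 2 ^ j) := by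
      rw [← mbB_sum]
      exact ENNReal.tsum_le_tsum fun n => pow_le_pow_left' (h3 n) 2
    have h5 := mb_VV_mul ht w hht hw 16 (2 ^ j) hr
    calc (∑' n, Rw ht w j (j + 1) (j + 1) n ^ 2) * VV ht w (2 ^ j)
        ≤ (((16 : ℕ) : ℝ≥0∞) + 1) ^ 2 * VV ht w (2 ^ j) * VV ht w (2 ^ j) :=
          mul_le_mul' (h4.trans h5) le_rfl
      _ = 289 * (VV ht w (2 ^ j) * VV ht w (2 ^ j)) := by
          push_cast
          rw [mul_assoc]
          congr 1
          norm_num
      _ ≤ _ := mul_le_mul' (by norm_num) le_rfl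
  · have hmid : ∀ m, m ∈ Mid ht j s' s → ∃ y a x, m = y ++ a :: x ∧ hL ht y < gs j s' ∧
        hL ht x < gs j s ∧ 2 ^ j ≤ ht a := by
      intro m hm
      rcases hm with hm | hm
      · exact absurd ⟨hm.1, hm.2.1⟩ htop
      · exact hm.2
    by_cases hstop : s = j + 1
    · -- the final piece is the top one: the initial piece is short
      have hs'n : s' ≠ j + 1 := fun h => htop ⟨h, hstop⟩
      have hgs : gs j s' = sz s' := by simp [gs, hs'n]
      have hgs2 : gs j s = 8 * 2 ^ j := by simp [gs, hstop]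
      have h1 := mb_young ht w (2 ^ j) (gs j s') (gs j s) (fun a u v => u ++ a :: v)
        (fun n => {m | m ∈ Mid ht j s' s ∧ hL ht m = n}) (by
          intro n m hm
          obtain ⟨y, a, x, e, hy, hx, ha⟩ := hmid m hm.1
          refine ⟨a, y, x, e, ha, hy, hx, ?_, ?_⟩
          · rw [← hm.2, e, hhLc]
            omega
          · rw [e, hwLc]
            ring)
      have h2 := mb_final ht w hht hw (2 ^ j) (sz s') (8 * 2 ^ j) hr (hsz1 s') (hszle s' hs') (∑' n, Rw ht w j s' s n ^ 2) (VV ht w (2 ^ j)) (by simp) (by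
          rw [hgs, hgs2] at h1
          exact h1)
      refine h2.trans (le_of_eq ?_)
      rw [hstop, hszj, mul_comm (VV ht w (2 ^ j))]
    · have hgs : gs j s = sz s := by simp [gs, hstop]
      have h1 := mb_young ht w (2 ^ j) (gs j s) (gs j s') (fun a u v => v ++ a :: u)
        (fun n => {m | m ∈ Mid ht j s' s ∧ hL ht m = n}) (by
          intro n m hm
          obtain ⟨y, a, x, e, hy, hx, ha⟩ := hmid m hm.1
          refine ⟨a, x, y, e, ha, hx, hy, ?_, ?_⟩
          · rw [← hm.2, e, hhLc]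
            omega
          · rw [e, hwLc]
            ring)
      rw [hgs] at h1
      by_cases hs'top : s' = j + 1
      · have hgs2 : gs j s' = 8 * 2 ^ j := by simp [gs, hs'top]
        rw [hgs2] at h1
        have h2 := mb_final ht w hht hw (2 ^ j) (sz s) (8 * 2 ^ j) hr (hsz1 s) (hszle s hs) (∑' n, Rw ht w j s' s n ^ 2) (VV ht w (2 ^ j)) (by simp) h1
        rw [hs'top, hszj]
        rw [hs'top] at h2
        exact h2
      · have hgs2 : gs j s' = sz s' := by simp [gs, hs'top]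
        rw [hgs2] at h1
        have hle := hszle s' hs'
        exact mb_final ht w hht hw (2 ^ j) (sz s) (sz s') hr (hsz1 s) (hszle s hs) (∑' n, Rw ht w j s' s n ^ 2) (VV ht w (sz s'))
          (by rw [if_neg (by omega)]) h1

end Abstract

end Pool.Agent.BT
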