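import Mathlib

set_option autoImplicit false

open scoped ENNReal

namespace Pool.Agent.BT.Num

/-- square root -/
noncomputable def rt (x : ℝ≥0∞) : ℝ≥0∞ := x ^ (1 / 2 : ℝ)

theorem rt_sq (x : ℝ≥0∞) : rt x ^ 2 = x := by
  unfold rt
  rw [← ENNReal.rpow_natCast, ← ENNReal.rpow_mul]
  norm_num

theorem rt_mono {x y : ℝ≥0∞} (h : x ≤ y) : rt x ≤ rt y :=
  ENNReal.rpow_le_rpow h (by norm_num)

theorem rt_of_sq (a : ℝ≥0∞) : rt (a ^ 2) = a := by
  unfold rt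
  rw [← ENNReal.rpow_natCast, ← ENNReal.rpow_mul]
  norm_num

theorem le_rt {a b : ℝ≥0∞} (h : a ^ 2 ≤ b) : a ≤ rt b := by
  rw [← rt_of_sq a]; exact rt_mono h

theorem rt_le {a b : ℝ≥0∞} (h : b ≤ a ^ 2) : rt b ≤ a := by
  rw [← rt_of_sq a]; exact rt_mono h

theorem rt_mul (a b : ℝ≥0∞) : rt (a * b) = rt a * rt b := by
  unfold rt
  exact ENNReal.mul_rpow_of_nonneg _ _ (by norm_num)

theorem rt_mul_self (a : ℝ≥0∞) : rt a * rt a = a := by
  rw [← pow_two]; exact rt_sq a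

theorem cs {ι : Type*} (s : Finset ι) (f g : ι → ℝ≥0∞) :
    ∑ i ∈ s, f i * g i ≤ rt (∑ i ∈ s, f i ^ 2) * rt (∑ i ∈ s, g i ^ 2) := by
  have h := ENNReal.inner_le_Lp_mul_Lq s f g (p := 2) (q := 2)
    (by constructor <;> norm_num)
  unfold rt
  have e : ∀ x : ℝ≥0∞, x ^ (2 : ℝ) = x ^ 2 := fun x => by
    rw [← ENNReal.rpow_natCast]; norm_num
  simpa only [e] using h

/-- weighted Cauchy-Schwarz inequality -/
theorem wcs {ι : Type*} (s : Finset ι) (k r r' u v : ι → ℝ≥0∞)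
    (h : ∀ i ∈ s, k i ≠ 0 → r i * r' i = 1) :
    ∑ i ∈ s, k i * u i * v i ≤
      rt (∑ i ∈ s, k i * r' i * u i ^ 2) * rt (∑ i ∈ s, k i * r i * v i ^ 2) := by
  have h1 := cs s (fun i => rt (k i * r' i) * u i) (fun i => rt (k i * r i) * v i)
  have e1 : ∀ i, (rt (k i * r' i) * u i) ^ 2 = k i * r' i * u i ^ 2 := fun i => by
    rw [mul_pow, rt_sq]
  have e2 : ∀ i, (rt (k i * r i) * v i) ^ 2 = k i * r i * v i ^ 2 := fun i => by
    rw [mul_pow, rt_sq]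
  simp only [e1, e2] at h1
  refine le_trans (Finset.sum_le_sum fun i hi => ?_) h1
  by_cases hk : k i = 0
  · rw [hk]; simp
  · have e3 : rt (k i * r' i) * rt (k i * r i) = k i := by
      rw [← rt_mul]
      have : k i * r' i * (k i * r i) = k i ^ 2 := by
        have := h i hi hk
        calc k i * r' i * (k i * r i) = k i ^ 2 * (r i * r' i) := by ring
          _ = k i ^ 2 := by rw [this, mul_one]
      rw [this, rt_of_sq]
    calc k i * u i * v i = (rt (k i * r' i) * rt (k i * r i)) * u i * v i := by rw [e3]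
      _ = rt (k i * r' i) * u i * (rt (k i * r i) * v i) := by ring
      _ ≤ _ := le_rfl


section Main

variable (N L M : ℕ) (V : ℕ → ℝ≥0∞) (κ : ℕ → ℕ → ℕ → ℕ → ℝ≥0∞) (R : ℕ → ℕ → ℕ → ℝ≥0∞)
  (E : ℕ → ℕ → ℕ → ℝ≥0∞)

/-- total mass -/
noncomputable def qq (s' s : ℕ) : ℝ≥0∞ := ∑ y ∈ Finset.range M, ∑ x ∈ Finset.range M, κ s' s y x

/-- the index set -/
def II : Finset (ℕ × ℕ × ℕ × ℕ) :=
  Finset.range N ×ˢ Finset.range N ×ˢ Finset.range M ×ˢ Finset.range M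

/-- the weight of an index -/
def kk (i : ℕ × ℕ × ℕ × ℕ) : ℝ≥0∞ := κ i.1 i.2.1 i.2.2.1 i.2.2.2

/-- second weight -/
noncomputable def r2 (i : ℕ × ℕ × ℕ × ℕ) : ℝ≥0∞ := qq M κ i.1 i.2.1 * V i.2.1

/-- first weight -/
noncomputable def r1 (i : ℕ × ℕ × ℕ × ℕ) : ℝ≥0∞ := (qq M κ i.1 i.2.1 * V i.2.1)⁻¹

/-- kernel -/
def RR (A s x s' y : ℕ) : ℝ≥0∞ := if x + y ≤ A then R s' s (A - x - y) else 0

/-- norm of the unknowns -/
noncomputable def nn (A : ℕ) : ℝ≥0∞ :=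
  rt (∑ i ∈ II N M, kk κ i * r1 M V κ i * E A i.2.1 i.2.2.2 ^ 2)

/-- norm of the kernel -/
noncomputable def KN (A s x : ℕ) : ℝ≥0∞ :=
  rt (∑ i ∈ II N M, kk κ i * r2 M V κ i * RR R A s x i.1 i.2.2.1 ^ 2)

/-- the Hilbert-Schmidt factors -/
noncomputable def aa (A : ℕ) : ℝ≥0∞ :=
  rt (∑ i ∈ II N M, kk κ i * r1 M V κ i * KN N M V κ R A i.2.1 i.2.2.2 ^ 2)

theorem sum_II (f : ℕ × ℕ × ℕ × ℕ → ℝ≥0∞) :
    ∑ i ∈ II N M, f i = ∑ s' ∈ Finset.range N, ∑ s ∈ Finset.range N, ∑ y ∈ Finset.range M,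
      ∑ x ∈ Finset.range M, f (s', s, y, x) := by
  unfold II
  rw [Finset.sum_product]
  refine Finset.sum_congr rfl fun a _ => ?_
  rw [Finset.sum_product]
  refine Finset.sum_congr rfl fun b _ => ?_
  rw [Finset.sum_product]

variable {N L M V κ R E}

theorem qq_ne_top (hV1 : ∀ s, 1 ≤ V s) (hVt : V (N - 1) ≤ L)
    (hκ : ∀ s' < N, ∀ s < N, (∑ y ∈ Finset.range M, ∑ x ∈ Finset.range M, κ s' s y x) ^ 2 *
      (V s' * V s) ≤ 4 * V (N - 1)) {s' s : ℕ} (hs' : s' < N) (hs : s < N) :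
    qq M κ s' s ≠ ⊤ := by
  intro h
  have h1 := hκ s' hs' s hs
  have h2 : (∑ y ∈ Finset.range M, ∑ x ∈ Finset.range M, κ s' s y x) = ⊤ := h
  rw [h2] at h1
  have h3 : (⊤ : ℝ≥0∞) ^ 2 * (V s' * V s) = ⊤ := by
    rw [ENNReal.top_pow (by norm_num)]
    apply ENNReal.top_mul
    intro h0
    have : (1 : ℝ≥0∞) ≤ V s' * V s := one_le_mul_of_one_le_of_one_le (hV1 s') (hV1 s)
    rw [h0] at this
    simp at this
  rw [h3] at h1
  have h4 : 4 * V (N - 1) ≠ ⊤ := by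
    apply ENNReal.mul_ne_top (by norm_num)
    exact ne_top_of_le_ne_top (ENNReal.natCast_ne_top L) hVt
  exact h4 (top_le_iff.mp h1)

theorem V_ne_top (hVm : ∀ s < N, V s ≤ V (N - 1)) (hVt : V (N - 1) ≤ L) {s : ℕ}
    (hs : s < N) : V s ≠ ⊤ :=
  ne_top_of_le_ne_top (ENNReal.natCast_ne_top L) ((hVm s hs).trans hVt)

theorem V_ne_zero (hV1 : ∀ s, 1 ≤ V s) (s : ℕ) : V s ≠ 0 := by
  intro h
  have := hV1 s
  rw [h] at this
  simp at this

/-- (F1) -/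
theorem mass1 (hN : 1 ≤ N) (hV1 : ∀ s, 1 ≤ V s) (hVm : ∀ s < N, V s ≤ V (N - 1))
    (hVt : V (N - 1) ≤ L)
    (hκ : ∀ s' < N, ∀ s < N, (∑ y ∈ Finset.range M, ∑ x ∈ Finset.range M, κ s' s y x) ^ 2 *
      (V s' * V s) ≤ 4 * V (N - 1)) {s' s : ℕ} (hs' : s' < N) (hs : s < N) :
    qq M κ s' s * (qq M κ s' s * V s)⁻¹ ≤ (V s)⁻¹ := by
  have hq := qq_ne_top hV1 hVt hκ hs' hs
  have hv := V_ne_top hVm hVt hs
  have hv0 := V_ne_zero hV1 s
  by_cases h0 : qq M κ s' s = 0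
  · rw [h0]; simp
  · rw [ENNReal.mul_inv (Or.inl h0) (Or.inl hq), ← mul_assoc, ENNReal.mul_inv_cancel h0 hq, one_mul]

/-- (F2) -/
theorem mass2 (hV1 : ∀ s, 1 ≤ V s) (hN : 1 ≤ N) (hVm : ∀ s < N, V s ≤ V (N - 1))
    (hVt : V (N - 1) ≤ L)
    (hκ : ∀ s' < N, ∀ s < N, (∑ y ∈ Finset.range M, ∑ x ∈ Finset.range M, κ s' s y x) ^ 2 *
      (V s' * V s) ≤ 4 * V (N - 1)) {s' s : ℕ} (hs' : s' < N) (hs : s < N) :
    qq M κ s' s * (qq M κ s' s * V s) ≤ 4 * V (N - 1) * (V s')⁻¹ := by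
  have hv := V_ne_top hVm hVt hs'
  have hv0 := V_ne_zero hV1 s'
  have h1 := hκ s' hs' s hs
  have h2 : qq M κ s' s * (qq M κ s' s * V s) * V s' ≤ 4 * V (N - 1) := by
    refine le_trans (le_of_eq ?_) h1
    unfold qq
    ring
  calc qq M κ s' s * (qq M κ s' s * V s)
      = qq M κ s' s * (qq M κ s' s * V s) * V s' * (V s')⁻¹ := by
        rw [mul_assoc, ENNReal.mul_inv_cancel hv0 hv, mul_one]
    _ ≤ _ := by gcongr

theorem r12 (hN : 1 ≤ N) (hV1 : ∀ s, 1 ≤ V s) (hVm : ∀ s < N, V s ≤ V (N - 1))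
    (hVt : V (N - 1) ≤ L)
    (hκ : ∀ s' < N, ∀ s < N, (∑ y ∈ Finset.range M, ∑ x ∈ Finset.range M, κ s' s y x) ^ 2 *
      (V s' * V s) ≤ 4 * V (N - 1)) (i : ℕ × ℕ × ℕ × ℕ) (hi : i ∈ II N M) (h : kk κ i ≠ 0) :
    r1 M V κ i * r2 M V κ i = 1 := by
  unfold II at hi
  simp only [Finset.mem_product, Finset.mem_range] at hi
  obtain ⟨h1, h2, h3, h4⟩ := hi
  unfold r1 r2
  apply ENNReal.inv_mul_cancel
  · apply mul_ne_zero _ (V_ne_zero hV1 _)
    intro h0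
    unfold qq at h0
    rw [Finset.sum_eq_zero_iff] at h0
    have := h0 i.2.2.1 (Finset.mem_range.mpr h3)
    rw [Finset.sum_eq_zero_iff] at this
    exact h (this i.2.2.2 (Finset.mem_range.mpr h4))
  · exact ENNReal.mul_ne_top (qq_ne_top hV1 hVt hκ h1 h2) (V_ne_top hVm hVt h2)

/-- (F1) summed: the constraint on the second scale -/
theorem base_le (hN : 1 ≤ N) (hV1 : ∀ s, 1 ≤ V s) (hVm : ∀ s < N, V s ≤ V (N - 1))
    (hVt : V (N - 1) ≤ L)
    (hκ : ∀ s' < N, ∀ s < N, (∑ y ∈ Finset.range M, ∑ x ∈ Finset.range M, κ s' s y x) ^ 2 *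
      (V s' * V s) ≤ 4 * V (N - 1)) :
    ∑ i ∈ II N M, kk κ i * r1 M V κ i *
      (if i.2.1 = 0 ∧ i.2.2.2 = 0 then (1 : ℝ≥0∞) else 0) ^ 2 ≤ N := by
  rw [sum_II]
  have key : ∀ s' ∈ Finset.range N, (∑ s ∈ Finset.range N, ∑ y ∈ Finset.range M,
      ∑ x ∈ Finset.range M, kk κ (s', s, y, x) * r1 M V κ (s', s, y, x) *
        (if s = 0 ∧ x = 0 then (1 : ℝ≥0∞) else 0) ^ 2) ≤ 1 := by
    intro s' hs'
    rw [Finset.mem_range] at hs'
    have h1 : ∀ s ∈ Finset.range N, (∑ y ∈ Finset.range M,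
      ∑ x ∈ Finset.range M, kk κ (s', s, y, x) * r1 M V κ (s', s, y, x) *
        (if s = 0 ∧ x = 0 then (1 : ℝ≥0∞) else 0) ^ 2) ≤
        if s = 0 then qq M κ s' 0 * (qq M κ s' 0 * V 0)⁻¹ else 0 := by
      intro s hs
      by_cases h0 : s = 0
      · subst h0
        rw [if_pos rfl]
        unfold qq
        rw [Finset.sum_mul]
        refine Finset.sum_le_sum fun y _ => ?_
        rw [Finset.sum_mul]
        refine Finset.sum_le_sum fun x _ => ?_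
        have : (if (0 : ℕ) = 0 ∧ x = 0 then (1 : ℝ≥0∞) else 0) ^ 2 ≤ 1 := by
          split_ifs <;> simp
        calc kk κ (s', 0, y, x) * r1 M V κ (s', 0, y, x) *
              (if (0 : ℕ) = 0 ∧ x = 0 then (1 : ℝ≥0∞) else 0) ^ 2
            ≤ kk κ (s', 0, y, x) * r1 M V κ (s', 0, y, x) * 1 := by gcongr
          _ = _ := by rw [mul_one]; rfl
      · rw [if_neg h0]
        refine le_of_eq ?_
        refine Finset.sum_eq_zero fun y _ => Finset.sum_eq_zero fun x _ => ?_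
        rw [if_neg (by tauto)]
        simp
    refine (Finset.sum_le_sum h1).trans ?_
    rw [Finset.sum_ite_eq' (Finset.range N) 0]
    split_ifs
    · refine (mass1 hN hV1 hVm hVt hκ hs' (by omega)).trans ?_
      rw [ENNReal.inv_le_one]
      exact hV1 0
    · exact zero_le_one
  refine (Finset.sum_le_sum key).trans ?_
  simp

/-- (F2) summed -/
theorem top_le (hN : 1 ≤ N) (hV1 : ∀ s, 1 ≤ V s) (hVm : ∀ s < N, V s ≤ V (N - 1))
    (hVt : V (N - 1) ≤ L)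
    (hκ : ∀ s' < N, ∀ s < N, (∑ y ∈ Finset.range M, ∑ x ∈ Finset.range M, κ s' s y x) ^ 2 *
      (V s' * V s) ≤ 4 * V (N - 1)) :
    ∑ i ∈ II N M, kk κ i * r2 M V κ i *
      (if i.1 = 0 ∧ i.2.2.1 = 0 then (1 : ℝ≥0∞) else 0) ^ 2 ≤ 4 * L * N := by
  rw [sum_II]
  have h1 : ∀ s' ∈ Finset.range N, (∑ s ∈ Finset.range N, ∑ y ∈ Finset.range M,
      ∑ x ∈ Finset.range M, kk κ (s', s, y, x) * r2 M V κ (s', s, y, x) *
        (if s' = 0 ∧ y = 0 then (1 : ℝ≥0∞) else 0) ^ 2) ≤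
      if s' = 0 then ∑ s ∈ Finset.range N, qq M κ 0 s * (qq M κ 0 s * V s) else 0 := by
    intro s' hs'
    by_cases h0 : s' = 0
    · subst h0
      rw [if_pos rfl]
      refine Finset.sum_le_sum fun s _ => ?_
      unfold qq
      rw [Finset.sum_mul]
      refine Finset.sum_le_sum fun y _ => ?_
      rw [Finset.sum_mul]
      refine Finset.sum_le_sum fun x _ => ?_
      have : (if (0 : ℕ) = 0 ∧ y = 0 then (1 : ℝ≥0∞) else 0) ^ 2 ≤ 1 := by
        split_ifs <;> simp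
      calc kk κ (0, s, y, x) * r2 M V κ (0, s, y, x) *
            (if (0 : ℕ) = 0 ∧ y = 0 then (1 : ℝ≥0∞) else 0) ^ 2
          ≤ kk κ (0, s, y, x) * r2 M V κ (0, s, y, x) * 1 := by gcongr
        _ = _ := by rw [mul_one]; rfl
    · rw [if_neg h0]
      refine le_of_eq ?_
      refine Finset.sum_eq_zero fun s _ => Finset.sum_eq_zero fun y _ =>
        Finset.sum_eq_zero fun x _ => ?_
      rw [if_neg (by tauto)]
      simp
  refine (Finset.sum_le_sum h1).trans ?_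
  rw [Finset.sum_ite_eq' (Finset.range N) 0]
  split_ifs
  · calc ∑ s ∈ Finset.range N, qq M κ 0 s * (qq M κ 0 s * V s)
        ≤ ∑ s ∈ Finset.range N, (4 * L : ℝ≥0∞) := by
          refine Finset.sum_le_sum fun s hs => ?_
          rw [Finset.mem_range] at hs
          refine (mass2 hV1 hN hVm hVt hκ (by omega) hs).trans ?_
          have : (V 0)⁻¹ ≤ 1 := by
            rw [ENNReal.inv_le_one]
            exact hV1 0
          calc 4 * V (N - 1) * (V 0)⁻¹ ≤ 4 * L * 1 := by gcongr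
            _ = _ := by rw [mul_one]
      _ = 4 * L * N := by
          rw [Finset.sum_const, Finset.card_range, nsmul_eq_mul]; ring
  · exact zero_le

theorem step1 (hN : 1 ≤ N) (hV1 : ∀ s, 1 ≤ V s) (hVm : ∀ s < N, V s ≤ V (N - 1))
    (hVt : V (N - 1) ≤ L)
    (hκ : ∀ s' < N, ∀ s < N, (∑ y ∈ Finset.range M, ∑ x ∈ Finset.range M, κ s' s y x) ^ 2 *
      (V s' * V s) ≤ 4 * V (N - 1)) (c : ℝ≥0∞)
    {A : ℕ} {s x : ℕ} (hx : x < M)
    (hE : E A s x ≤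
      ∑ s' ∈ Finset.range N, ∑ y ∈ Finset.range M,
        (if x + y ≤ A then R s' s (A - x - y) else 0) *
          (c * κ s' 0 y 0 + ∑ A' ∈ Finset.Ico L A, ∑ s'' ∈ Finset.range N,
            ∑ x'' ∈ Finset.range M, κ s' s'' y x'' * E A' s'' x'')) :
    E A s x ≤ KN N M V κ R A s x * (c * rt N + ∑ A' ∈ Finset.Ico L A, nn N M V κ E A') := by
  refine hE.trans ?_
  have e1 : ∀ s' ∈ Finset.range N, ∀ y ∈ Finset.range M,
      (if x + y ≤ A then R s' s (A - x - y) else 0) *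
          (c * κ s' 0 y 0 + ∑ A' ∈ Finset.Ico L A, ∑ s'' ∈ Finset.range N,
            ∑ x'' ∈ Finset.range M, κ s' s'' y x'' * E A' s'' x'') =
      c * (κ s' 0 y 0 * RR R A s x s' y) + ∑ A' ∈ Finset.Ico L A, ∑ s'' ∈ Finset.range N,
            ∑ x'' ∈ Finset.range M, κ s' s'' y x'' * RR R A s x s' y * E A' s'' x'' := by
    intro s' _ y _
    have : (if x + y ≤ A then R s' s (A - x - y) else 0) = RR R A s x s' y := rfl
    rw [this, mul_add]
    congr 1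
    · ring
    · rw [Finset.mul_sum]
      refine Finset.sum_congr rfl fun A' _ => ?_
      rw [Finset.mul_sum]
      refine Finset.sum_congr rfl fun s'' _ => ?_
      rw [Finset.mul_sum]
      refine Finset.sum_congr rfl fun x'' _ => ?_
      ring
  rw [Finset.sum_congr rfl fun s' hs' => Finset.sum_congr rfl fun y hy => e1 s' hs' y hy]
  simp only [Finset.sum_add_distrib]
  rw [mul_add]
  refine add_le_add ?_ ?_
  · have f1 : ∑ s' ∈ Finset.range N, ∑ y ∈ Finset.range M, c * (κ s' 0 y 0 * RR R A s x s' y) =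
        c * ∑ i ∈ II N M, kk κ i * RR R A s x i.1 i.2.2.1 *
          (if i.2.1 = 0 ∧ i.2.2.2 = 0 then (1 : ℝ≥0∞) else 0) := by
      rw [sum_II]
      simp only [← Finset.mul_sum]
      congr 1
      refine Finset.sum_congr rfl fun s' _ => ?_
      rw [Finset.sum_comm (s := Finset.range N)]
      refine Finset.sum_congr rfl fun y _ => ?_
      symm
      rw [Finset.sum_eq_single 0]
      · rw [Finset.sum_eq_single 0]
        · simp [kk]
        · intro b _ hb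
          rw [if_neg (by tauto), mul_zero]
        · intro h
          exact absurd (Finset.mem_range.mpr (by omega)) h
      · intro b _ hb
        refine Finset.sum_eq_zero fun z _ => ?_
        rw [if_neg (by tauto), mul_zero]
      · intro h
        exact absurd (Finset.mem_range.mpr (by omega)) h
    rw [f1]
    have f2 := wcs (II N M) (kk κ) (r1 M V κ) (r2 M V κ)
      (fun i => RR R A s x i.1 i.2.2.1)
      (fun i => if i.2.1 = 0 ∧ i.2.2.2 = 0 then (1 : ℝ≥0∞) else 0)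
      (r12 hN hV1 hVm hVt hκ)
    have f3 := rt_mono (base_le hN hV1 hVm hVt hκ)
    calc _ ≤ c * (KN N M V κ R A s x * rt (∑ i ∈ II N M, kk κ i * r1 M V κ i *
      (if i.2.1 = 0 ∧ i.2.2.2 = 0 then (1 : ℝ≥0∞) else 0) ^ 2)) := by
          gcongr
          exact f2
      _ ≤ c * (KN N M V κ R A s x * rt N) := by gcongr
      _ = _ := by ring
  · have f1 : ∑ s' ∈ Finset.range N, ∑ y ∈ Finset.range M, ∑ A' ∈ Finset.Ico L A,
        ∑ s'' ∈ Finset.range N, ∑ x'' ∈ Finset.range M,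
          κ s' s'' y x'' * RR R A s x s' y * E A' s'' x'' =
        ∑ A' ∈ Finset.Ico L A, ∑ i ∈ II N M, kk κ i * RR R A s x i.1 i.2.2.1 *
          E A' i.2.1 i.2.2.2 := by
      calc _ = ∑ s' ∈ Finset.range N, ∑ A' ∈ Finset.Ico L A, ∑ y ∈ Finset.range M,
        ∑ s'' ∈ Finset.range N, ∑ x'' ∈ Finset.range M,
          κ s' s'' y x'' * RR R A s x s' y * E A' s'' x'' :=
            Finset.sum_congr rfl fun s' _ => Finset.sum_comm
        _ = ∑ A' ∈ Finset.Ico L A, ∑ s' ∈ Finset.range N, ∑ y ∈ Finset.range M,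
        ∑ s'' ∈ Finset.range N, ∑ x'' ∈ Finset.range M,
          κ s' s'' y x'' * RR R A s x s' y * E A' s'' x'' := Finset.sum_comm
        _ = _ := by
          refine Finset.sum_congr rfl fun A' _ => ?_
          rw [sum_II]
          refine Finset.sum_congr rfl fun s' _ => ?_
          rw [Finset.sum_comm]
          rfl
    rw [f1, Finset.mul_sum]
    refine Finset.sum_le_sum fun A' _ => ?_
    exact wcs (II N M) (kk κ) (r1 M V κ) (r2 M V κ)
      (fun i => RR R A s x i.1 i.2.2.1) (fun i => E A' i.2.1 i.2.2.2)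
      (r12 hN hV1 hVm hVt hκ)

theorem step2 (B : ℝ≥0∞) {A : ℕ}
    (h : ∀ s < N, ∀ x < M, E A s x ≤ KN N M V κ R A s x * B) :
    nn N M V κ E A ≤ aa N M V κ R A * B := by
  unfold nn aa
  have e1 : rt (∑ i ∈ II N M, kk κ i * r1 M V κ i * KN N M V κ R A i.2.1 i.2.2.2 ^ 2) * B =
      rt (∑ i ∈ II N M, kk κ i * r1 M V κ i * (KN N M V κ R A i.2.1 i.2.2.2 * B) ^ 2) := by
    rw [← rt_of_sq B, ← rt_mul, Finset.sum_mul]
    congr 1
    refine Finset.sum_congr rfl fun i _ => ?_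
    rw [rt_of_sq]
    ring
  rw [e1]
  refine rt_mono (Finset.sum_le_sum fun i hi => ?_)
  unfold II at hi
  simp only [Finset.mem_product, Finset.mem_range] at hi
  obtain ⟨h1, h2, h3, h4⟩ := hi
  gcongr
  exact h _ h2 _ h4

/-- the square sums of the kernel -/
theorem sum_RR_le (A0 A1 s x s' y : ℕ) :
    ∑ A ∈ Finset.Ico A0 A1, RR R A s x s' y ^ 2 ≤ ∑' n, R s' s n ^ 2 := by
  have h1 : ∑ A ∈ Finset.Ico A0 A1, RR R A s x s' y ^ 2 =
      ∑ A ∈ (Finset.Ico A0 A1).filter (fun A => x + y ≤ A), R s' s (A - (x + y)) ^ 2 := by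
    rw [Finset.sum_filter]
    refine Finset.sum_congr rfl fun A _ => ?_
    unfold RR
    split_ifs with h
    · rw [Nat.sub_sub]
    · simp
  rw [h1]
  have h2 : ∑ A ∈ (Finset.Ico A0 A1).filter (fun A => x + y ≤ A), R s' s (A - (x + y)) ^ 2 =
      ∑ n ∈ ((Finset.Ico A0 A1).filter (fun A => x + y ≤ A)).image (fun A => A - (x + y)),
        R s' s n ^ 2 := by
    rw [Finset.sum_image]
    intro a ha b hb hab
    simp only [Finset.coe_filter, Set.mem_ofPred_eq] at ha hb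
    dsimp only at hab
    omega
  rw [h2]
  exact ENNReal.sum_le_tsum _

theorem sum4_eq (k r : ℕ × ℕ × ℕ × ℕ → ℝ≥0∞) (f : ℕ → ℕ → ℝ≥0∞) :
    ∑ i ∈ II N M, k i * r i * f i.1 i.2.1 = ∑ s' ∈ Finset.range N, ∑ s ∈ Finset.range N,
      (∑ y ∈ Finset.range M, ∑ x ∈ Finset.range M, k (s', s, y, x) * r (s', s, y, x)) *
        f s' s := by
  rw [sum_II]
  refine Finset.sum_congr rfl fun s' _ => Finset.sum_congr rfl fun s _ => ?_
  rw [Finset.sum_mul]
  refine Finset.sum_congr rfl fun y _ => ?_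
  rw [Finset.sum_mul]

/-- the Hilbert-Schmidt sum -/
theorem step3 (hN : 1 ≤ N) (hV1 : ∀ s, 1 ≤ V s) (hVm : ∀ s < N, V s ≤ V (N - 1))
    (hVt : V (N - 1) ≤ L)
    (hκ : ∀ s' < N, ∀ s < N, (∑ y ∈ Finset.range M, ∑ x ∈ Finset.range M, κ s' s y x) ^ 2 *
      (V s' * V s) ≤ 4 * V (N - 1))
    (hR : ∀ s' < N, ∀ s < N, (∑' n, R s' s n ^ 2) * V (N - 1) ≤ 324 * (V s' * V s))
    (A0 A1 : ℕ) :
    ∑ A ∈ Finset.Ico A0 A1, aa N M V κ R A ^ 2 ≤ 1296 * (N : ℝ≥0∞) ^ 4 := by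
  unfold aa KN
  simp only [rt_sq]
  have e1 : ∑ A ∈ Finset.Ico A0 A1, ∑ i ∈ II N M, kk κ i * r1 M V κ i *
      ∑ j ∈ II N M, kk κ j * r2 M V κ j * RR R A i.2.1 i.2.2.2 j.1 j.2.2.1 ^ 2 =
      ∑ i ∈ II N M, kk κ i * r1 M V κ i * ∑ j ∈ II N M, kk κ j * r2 M V κ j *
        ∑ A ∈ Finset.Ico A0 A1, RR R A i.2.1 i.2.2.2 j.1 j.2.2.1 ^ 2 := by
    rw [Finset.sum_comm]
    refine Finset.sum_congr rfl fun i _ => ?_
    rw [← Finset.mul_sum, Finset.sum_comm]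
    congr 1
    refine Finset.sum_congr rfl fun j _ => ?_
    rw [← Finset.mul_sum]
  rw [e1]
  have e2 : ∑ i ∈ II N M, kk κ i * r1 M V κ i * ∑ j ∈ II N M, kk κ j * r2 M V κ j *
        ∑ A ∈ Finset.Ico A0 A1, RR R A i.2.1 i.2.2.2 j.1 j.2.2.1 ^ 2 ≤
      ∑ i ∈ II N M, kk κ i * r1 M V κ i * ∑ j ∈ II N M, kk κ j * r2 M V κ j *
        ∑' n, R j.1 i.2.1 n ^ 2 := by
    gcongr with i _ j _
    exact sum_RR_le A0 A1 _ _ _ _
  refine e2.trans ?_
  have e3 : ∀ s, ∑ j ∈ II N M, kk κ j * r2 M V κ j * ∑' n, R j.1 s n ^ 2 =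
      ∑ t' ∈ Finset.range N, ∑ t ∈ Finset.range N, (qq M κ t' t * (qq M κ t' t * V t)) *
        ∑' n, R t' s n ^ 2 := by
    intro s
    rw [sum4_eq (kk κ) (r2 M V κ) (fun t' _ => ∑' n, R t' s n ^ 2)]
    refine Finset.sum_congr rfl fun t' _ => Finset.sum_congr rfl fun t _ => ?_
    congr 1
    unfold qq
    rw [Finset.sum_mul]
    refine Finset.sum_congr rfl fun y _ => ?_
    rw [Finset.sum_mul]
    rfl
  have e4 : ∑ i ∈ II N M, kk κ i * r1 M V κ i * ∑ j ∈ II N M, kk κ j * r2 M V κ j *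
        ∑' n, R j.1 i.2.1 n ^ 2 =
      ∑ s' ∈ Finset.range N, ∑ s ∈ Finset.range N, (qq M κ s' s * (qq M κ s' s * V s)⁻¹) *
        ∑ t' ∈ Finset.range N, ∑ t ∈ Finset.range N, (qq M κ t' t * (qq M κ t' t * V t)) *
        ∑' n, R t' s n ^ 2 := by
    rw [sum4_eq (kk κ) (r1 M V κ) (fun _ s => ∑ j ∈ II N M, kk κ j * r2 M V κ j *
        ∑' n, R j.1 s n ^ 2)]
    refine Finset.sum_congr rfl fun s' _ => Finset.sum_congr rfl fun s _ => ?_
    rw [e3]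
    congr 1
    unfold qq
    rw [Finset.sum_mul]
    refine Finset.sum_congr rfl fun y _ => ?_
    rw [Finset.sum_mul]
    rfl
  rw [e4]
  have e5 : ∀ s' ∈ Finset.range N, ∀ s ∈ Finset.range N,
      (qq M κ s' s * (qq M κ s' s * V s)⁻¹) *
        ∑ t' ∈ Finset.range N, ∑ t ∈ Finset.range N, (qq M κ t' t * (qq M κ t' t * V t)) *
        ∑' n, R t' s n ^ 2 ≤ 1296 * (N : ℝ≥0∞) ^ 2 := by
    intro s' hs' s hs
    rw [Finset.mem_range] at hs' hs
    have g1 : ∀ t' ∈ Finset.range N, ∀ t ∈ Finset.range N,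
        (V s)⁻¹ * ((qq M κ t' t * (qq M κ t' t * V t)) * ∑' n, R t' s n ^ 2) ≤ 1296 := by
      intro t' ht' t ht
      rw [Finset.mem_range] at ht' ht
      have hvs := V_ne_top hVm hVt hs
      have hvs0 := V_ne_zero hV1 s
      have hvt := V_ne_top hVm hVt ht'
      have hvt0 := V_ne_zero hV1 t'
      calc (V s)⁻¹ * ((qq M κ t' t * (qq M κ t' t * V t)) * ∑' n, R t' s n ^ 2)
          ≤ (V s)⁻¹ * ((4 * V (N - 1) * (V t')⁻¹) * ∑' n, R t' s n ^ 2) :=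
            mul_le_mul' le_rfl (mul_le_mul' (mass2 hV1 hN hVm hVt hκ ht' ht) le_rfl)
        _ = 4 * (V s)⁻¹ * (V t')⁻¹ * ((∑' n, R t' s n ^ 2) * V (N - 1)) := by ring
        _ ≤ 4 * (V s)⁻¹ * (V t')⁻¹ * (324 * (V t' * V s)) :=
            mul_le_mul' le_rfl (hR t' ht' s hs)
        _ = 1296 * ((V s)⁻¹ * V s) * ((V t')⁻¹ * V t') := by ring
        _ = 1296 := by
            rw [ENNReal.inv_mul_cancel hvs0 hvs, ENNReal.inv_mul_cancel hvt0 hvt]; ring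
    calc (qq M κ s' s * (qq M κ s' s * V s)⁻¹) *
        ∑ t' ∈ Finset.range N, ∑ t ∈ Finset.range N, (qq M κ t' t * (qq M κ t' t * V t)) *
        ∑' n, R t' s n ^ 2
        ≤ (V s)⁻¹ * ∑ t' ∈ Finset.range N, ∑ t ∈ Finset.range N,
          (qq M κ t' t * (qq M κ t' t * V t)) * ∑' n, R t' s n ^ 2 := by
          gcongr
          exact mass1 hN hV1 hVm hVt hκ hs' hs
      _ = ∑ t' ∈ Finset.range N, ∑ t ∈ Finset.range N, (V s)⁻¹ *
          ((qq M κ t' t * (qq M κ t' t * V t)) * ∑' n, R t' s n ^ 2) := by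
          rw [Finset.mul_sum]
          refine Finset.sum_congr rfl fun t' _ => ?_
          rw [Finset.mul_sum]
      _ ≤ ∑ t' ∈ Finset.range N, ∑ t ∈ Finset.range N, (1296 : ℝ≥0∞) :=
          Finset.sum_le_sum fun t' ht' => Finset.sum_le_sum fun t ht => g1 t' ht' t ht
      _ = _ := by
          simp only [Finset.sum_const, Finset.card_range, nsmul_eq_mul]; ring
  refine (Finset.sum_le_sum fun s' hs' => Finset.sum_le_sum fun s hs => e5 s' hs' s hs).trans ?_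
  simp only [Finset.sum_const, Finset.card_range, nsmul_eq_mul]
  refine le_of_eq ?_
  ring

theorem step4 (hN : 1 ≤ N) (hV1 : ∀ s, 1 ≤ V s) (hVm : ∀ s < N, V s ≤ V (N - 1))
    (hVt : V (N - 1) ≤ L)
    (hκ : ∀ s' < N, ∀ s < N, (∑ y ∈ Finset.range M, ∑ x ∈ Finset.range M, κ s' s y x) ^ 2 *
      (V s' * V s) ≤ 4 * V (N - 1))
    (hR : ∀ s' < N, ∀ s < N, (∑' n, R s' s n ^ 2) * V (N - 1) ≤ 324 * (V s' * V s)) :
    ∑ A ∈ Finset.Ico L (2 * L), aa N M V κ R A ≤ 36 * (N : ℝ≥0∞) ^ 2 * rt L := by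
  have h1 := cs (Finset.Ico L (2 * L)) (fun A => aa N M V κ R A) (fun _ => 1)
  simp only [mul_one, one_pow, Finset.sum_const, Nat.card_Ico, nsmul_eq_mul] at h1
  have e : 2 * L - L = L := by omega
  rw [e] at h1
  refine h1.trans ?_
  gcongr
  refine rt_le ((step3 hN hV1 hVm hVt hκ hR L (2 * L)).trans (le_of_eq ?_))
  ring

theorem one_add_ofReal_le {x : ℝ} (hx : 0 ≤ x) :
    1 + ENNReal.ofReal x ≤ ENNReal.ofReal (Real.exp x) := by
  rw [← ENNReal.ofReal_one, ← ENNReal.ofReal_add zero_le_one hx]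
  apply ENNReal.ofReal_le_ofReal
  linarith [Real.add_one_le_exp x]

/-- discrete Gronwall lemma -/
theorem gronwall (a n : ℕ → ℝ≥0∞) (b : ℝ≥0∞) (A0 : ℕ) :
    ∀ A1, A0 ≤ A1 → (∀ A, A0 ≤ A → A < A1 → a A ≠ ⊤) →
      (∀ A, A0 ≤ A → A < A1 → n A ≤ a A * (b + ∑ A' ∈ Finset.Ico A0 A, n A')) →
      b + ∑ A ∈ Finset.Ico A0 A1, n A ≤
        b * ENNReal.ofReal (Real.exp (∑ A ∈ Finset.Ico A0 A1, (a A).toReal)) := by
  intro A1 hA
  induction A1, hA using Nat.le_induction with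
  | base => intro _ _; simp
  | succ A1 hA1 ih =>
    intro h1 h2
    have ih' := ih (fun A hA hA' => h1 A hA (by omega)) (fun A hA hA' => h2 A hA (by omega))
    rw [Finset.sum_Ico_succ_top hA1, Finset.sum_Ico_succ_top hA1]
    have h3 := h2 A1 hA1 (by omega)
    have h4 := h1 A1 hA1 (by omega)
    calc b + (∑ A ∈ Finset.Ico A0 A1, n A + n A1)
        ≤ b + ∑ A ∈ Finset.Ico A0 A1, n A + a A1 * (b + ∑ A' ∈ Finset.Ico A0 A1, n A') := by
          rw [← add_assoc]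
          gcongr
      _ = (b + ∑ A' ∈ Finset.Ico A0 A1, n A') * (1 + ENNReal.ofReal (a A1).toReal) := by
          rw [ENNReal.ofReal_toReal h4]; ring
      _ ≤ (b * ENNReal.ofReal (Real.exp (∑ A ∈ Finset.Ico A0 A1, (a A).toReal))) *
          ENNReal.ofReal (Real.exp (a A1).toReal) := by
          gcongr
          exact one_add_ofReal_le ENNReal.toReal_nonneg
      _ = _ := by
          rw [mul_assoc, ← ENNReal.ofReal_mul (Real.exp_nonneg _), ← Real.exp_add]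

theorem rt_natCast (n : ℕ) : rt (n : ℝ≥0∞) = ENNReal.ofReal (√(n : ℝ)) := by
  have h : (n : ℝ≥0∞) = ENNReal.ofReal (√(n : ℝ)) ^ 2 := by
    rw [← ENNReal.ofReal_pow (Real.sqrt_nonneg _), Real.sq_sqrt (Nat.cast_nonneg n),
      ENNReal.ofReal_natCast]
  rw [h, rt_of_sq]

end Main

end Pool.Agent.BT.Num

namespace Pool.Agent.BT

open Pool.Agent.BT.Num in
theorem num_main (N L M : ℕ) (hN : 1 ≤ N) (V : ℕ → ℝ≥0∞) (hV1 : ∀ s, 1 ≤ V s)
    (hVm : ∀ s < N, V s ≤ V (N - 1)) (hVt : V (N - 1) ≤ L)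
    (κ : ℕ → ℕ → ℕ → ℕ → ℝ≥0∞)
    (hκ : ∀ s' < N, ∀ s < N, (∑ y ∈ Finset.range M, ∑ x ∈ Finset.range M, κ s' s y x) ^ 2 *
      (V s' * V s) ≤ 4 * V (N - 1))
    (R : ℕ → ℕ → ℕ → ℝ≥0∞)
    (hR : ∀ s' < N, ∀ s < N, (∑' n, R s' s n ^ 2) * V (N - 1) ≤ 324 * (V s' * V s))
    (E : ℕ → ℕ → ℕ → ℝ≥0∞) (c : ℝ≥0∞)
    (hE : ∀ A, L ≤ A → A < 2 * L → ∀ s < N, ∀ x < M, E A s x ≤
      ∑ s' ∈ Finset.range N, ∑ y ∈ Finset.range M,
        (if x + y ≤ A then R s' s (A - x - y) else 0) *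
          (c * κ s' 0 y 0 + ∑ A' ∈ Finset.Ico L A, ∑ s'' ∈ Finset.range N,
            ∑ x'' ∈ Finset.range M, κ s' s'' y x'' * E A' s'' x'')) :
    c + ∑ A ∈ Finset.Ico L (2 * L), ∑ s ∈ Finset.range N, ∑ x ∈ Finset.range M,
        κ 0 s 0 x * E A s x
      ≤ c * ENNReal.ofReal (Real.exp (38 * (N : ℝ) ^ 2 * √(L : ℝ))) := by
  -- the sum of the factors
  have hs4 := step4 hN hV1 hVm hVt hκ hR
  have hfin : ∑ A ∈ Finset.Ico L (2 * L), aa N M V κ R A ≠ ⊤ := by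
    refine ne_top_of_le_ne_top ?_ hs4
    rw [rt_natCast]
    exact ENNReal.mul_ne_top (ENNReal.mul_ne_top (by norm_num)
      (ENNReal.pow_ne_top (ENNReal.natCast_ne_top N))) ENNReal.ofReal_ne_top
  have hfin' : ∀ A, L ≤ A → A < 2 * L → aa N M V κ R A ≠ ⊤ := by
    intro A h1 h2
    exact (ENNReal.sum_ne_top.mp hfin) A (Finset.mem_Ico.mpr ⟨h1, h2⟩)
  have hsum : ∑ A ∈ Finset.Ico L (2 * L), (aa N M V κ R A).toReal ≤
      36 * (N : ℝ) ^ 2 * √(L : ℝ) := by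
    rw [← ENNReal.toReal_sum (fun A hA => by
      rw [Finset.mem_Ico] at hA; exact hfin' A hA.1 hA.2)]
    have h1 : (36 * (N : ℝ≥0∞) ^ 2 * rt L) = ENNReal.ofReal (36 * (N : ℝ) ^ 2 * √(L : ℝ)) := by
      rw [rt_natCast, ENNReal.ofReal_mul (by positivity), ENNReal.ofReal_mul (by norm_num),
        ENNReal.ofReal_pow (Nat.cast_nonneg N), ENNReal.ofReal_natCast]
      norm_num
    rw [h1] at hs4
    exact ENNReal.toReal_le_of_le_ofReal (by positivity) hs4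
  have hg := gronwall (fun A => aa N M V κ R A) (fun A => nn N M V κ E A) (c * rt N) L (2 * L)
    (by omega) hfin' (fun A h1 h2 => step2 _ fun s hs x hx =>
      step1 hN hV1 hVm hVt hκ c hx (hE A h1 h2 s hs x hx))
  have hg2 : ∑ A ∈ Finset.Ico L (2 * L), nn N M V κ E A ≤
      c * rt N * ENNReal.ofReal (Real.exp (36 * (N : ℝ) ^ 2 * √(L : ℝ))) := by
    refine le_add_self.trans (hg.trans ?_)
    gcongr
  -- the last sum
  have hlast : ∀ A, ∑ s ∈ Finset.range N, ∑ x ∈ Finset.range M, κ 0 s 0 x * E A s x ≤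
      rt (4 * L * N) * nn N M V κ E A := by
    intro A
    have h1 : ∑ s ∈ Finset.range N, ∑ x ∈ Finset.range M, κ 0 s 0 x * E A s x ≤
        ∑ i ∈ II N M, kk κ i * (if i.1 = 0 ∧ i.2.2.1 = 0 then (1 : ℝ≥0∞) else 0) *
          E A i.2.1 i.2.2.2 := by
      rw [sum_II]
      have h0 : (0 : ℕ) ∈ Finset.range N := Finset.mem_range.mpr (by omega)
      refine le_trans ?_ (Finset.single_le_sum (fun _ _ => zero_le) h0)
      refine Finset.sum_le_sum fun s _ => ?_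
      rcases Nat.eq_zero_or_pos M with hM | hM
      · subst hM; simp
      · have h0 : (0 : ℕ) ∈ Finset.range M := Finset.mem_range.mpr hM
        refine le_trans ?_ (Finset.single_le_sum (fun _ _ => zero_le) h0)
        refine le_of_eq (Finset.sum_congr rfl fun x _ => ?_)
        simp [kk]
    refine h1.trans ((wcs (II N M) (kk κ) (r1 M V κ) (r2 M V κ)
      (fun i => if i.1 = 0 ∧ i.2.2.1 = 0 then (1 : ℝ≥0∞) else 0) (fun i => E A i.2.1 i.2.2.2)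
      (r12 hN hV1 hVm hVt hκ)).trans ?_)
    exact mul_le_mul' (rt_mono (top_le hN hV1 hVm hVt hκ)) le_rfl
  have hfinal : ∑ A ∈ Finset.Ico L (2 * L), ∑ s ∈ Finset.range N, ∑ x ∈ Finset.range M,
      κ 0 s 0 x * E A s x ≤ rt (4 * L * N) *
        (c * rt N * ENNReal.ofReal (Real.exp (36 * (N : ℝ) ^ 2 * √(L : ℝ)))) := by
    refine (Finset.sum_le_sum fun A _ => hlast A).trans ?_
    rw [← Finset.mul_sum]
    gcongr
  refine (add_le_add_right hfinal c).trans ?_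
  have hrt : rt (4 * L * N) = 2 * (rt L * rt N) := by
    rw [← rt_of_sq 2, ← rt_mul, ← rt_mul]
    congr 1
    ring
  rw [hrt]
  have e1 : c + 2 * (rt L * rt N) *
      (c * rt N * ENNReal.ofReal (Real.exp (36 * (N : ℝ) ^ 2 * √(L : ℝ)))) =
      c * (1 + 2 * N * rt L * ENNReal.ofReal (Real.exp (36 * (N : ℝ) ^ 2 * √(L : ℝ)))) := by
    calc _ = c * (1 + 2 * (rt N * rt N) * rt L *
          ENNReal.ofReal (Real.exp (36 * (N : ℝ) ^ 2 * √(L : ℝ)))) := by ring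
      _ = _ := by rw [rt_mul_self]
  rw [e1]
  gcongr
  have e2 : (1 : ℝ≥0∞) + 2 * N * rt L * ENNReal.ofReal (Real.exp (36 * (N : ℝ) ^ 2 * √(L : ℝ))) =
      ENNReal.ofReal (1 + 2 * N * √(L : ℝ) * Real.exp (36 * (N : ℝ) ^ 2 * √(L : ℝ))) := by
    rw [ENNReal.ofReal_add zero_le_one (by positivity), ENNReal.ofReal_one,
      ENNReal.ofReal_mul (by positivity), ENNReal.ofReal_mul (by positivity),
      ENNReal.ofReal_mul (by norm_num), rt_natCast, ENNReal.ofReal_natCast]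
    norm_num
  rw [e2]
  apply ENNReal.ofReal_le_ofReal
  have hN' : (1 : ℝ) ≤ N := by exact_mod_cast hN
  have hL0 : 0 ≤ √(L : ℝ) := Real.sqrt_nonneg _
  have hN2 : (N : ℝ) ≤ (N : ℝ) ^ 2 := by nlinarith
  have h36 : (1 : ℝ) ≤ Real.exp (36 * (N : ℝ) ^ 2 * √(L : ℝ)) :=
    Real.one_le_exp (by positivity)
  have h2 : 1 + 2 * N * √(L : ℝ) ≤ Real.exp (2 * N * √(L : ℝ)) := by
    linarith [Real.add_one_le_exp (2 * N * √(L : ℝ))]
  calc 1 + 2 * N * √(L : ℝ) * Real.exp (36 * (N : ℝ) ^ 2 * √(L : ℝ))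
      ≤ Real.exp (36 * (N : ℝ) ^ 2 * √(L : ℝ)) +
        2 * N * √(L : ℝ) * Real.exp (36 * (N : ℝ) ^ 2 * √(L : ℝ)) := by gcongr
    _ = (1 + 2 * N * √(L : ℝ)) * Real.exp (36 * (N : ℝ) ^ 2 * √(L : ℝ)) := by ring
    _ ≤ Real.exp (2 * N * √(L : ℝ)) * Real.exp (36 * (N : ℝ) ^ 2 * √(L : ℝ)) := by gcongr
    _ = Real.exp (2 * N * √(L : ℝ) + 36 * (N : ℝ) ^ 2 * √(L : ℝ)) := by rw [Real.exp_add]
    _ ≤ Real.exp (38 * (N : ℝ) ^ 2 * √(L : ℝ)) := by
        apply Real.exp_le_exp.mpr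
        nlinarith [mul_le_mul_of_nonneg_right hN2 hL0]

end Pool.Agent.BT
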