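import Pool.Agent.BT.Basic

set_option autoImplicit false

open scoped ENNReal
open Filter Topology Pool.Agent.SawTree Pool.Agent.BB

namespace Pool.Agent.BT

section Abstract

variable {α : Type} (ht : α → ℕ)

theorem sp_hL_reverse (l : List α) : hL ht l.reverse = hL ht l := by
  unfold hL; rw [List.map_reverse, List.sum_reverse]

theorem sp_hL_cons (a : α) (l : List α) : hL ht (a :: l) = ht a + hL ht l := by
  simp [hL]

theorem sp_hL_single (a : α) : hL ht [a] = ht a := by
  simp [hL]

/-- comparison of two beginnings of the same list -/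
theorem sp_cmp {q l q' l' : List α} (h : q ++ l = q' ++ l') (hh : hL ht q < hL ht q') :
    ∃ s, s ≠ [] ∧ q' = q ++ s ∧ l = s ++ l' := by
  rcases List.append_eq_append_iff.1 h with ⟨a, h1, h2⟩ | ⟨c, h1, h2⟩
  · refine ⟨a, ?_, h1, h2⟩
    rintro rfl
    rw [List.append_nil] at h1
    rw [h1] at hh
    exact lt_irrefl _ hh
  · exfalso
    rw [h1, win_hL_append] at hh
    omega

theorem exists_last {s : List α} (h : s ≠ []) : ∃ y a, s = y ++ [a] :=
  ⟨s.dropLast, s.getLast h, (List.dropLast_append_getLast h).symm⟩

/-- the first passage of the largest possible scale -/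
theorem sp_first (j A : ℕ) (hA : 8 * 2 ^ j ≤ A) (l : List α) (hl : hL ht l = A) :
    ∃ s' ≤ j + 1, ∃ q r : List α, l = q ++ r ∧ q ∈ Vset ht (sc s') ∧ 2 * hL ht q ≤ A ∧
      (s' = j + 1 ∨ ∃ y a r', r = y ++ a :: r' ∧ hL ht y < sz s' ∧ hL ht (q ++ y) < 2 ^ j ∧
        A < 2 * hL ht (q ++ y ++ [a])) := by
  classical
  set P : ℕ → Prop := fun s => ∃ q r : List α, l = q ++ r ∧ q ∈ Vset ht (sc s) ∧
    2 * hL ht q ≤ A with hP
  have hP0 : P 0 := by
    refine ⟨[], l, rfl, ?_, ?_⟩
    · have h0 : sc 0 = 0 := rfl
      rw [h0, Vset_zero]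
      rfl
    · simp [hL]
  have h1 := Nat.findGreatest_spec (P := P) (Nat.zero_le (j + 1)) hP0
  have h2 := Nat.findGreatest_le (P := P) (j + 1)
  have h3 := fun k => Nat.findGreatest_is_greatest (P := P) (n := j + 1) (k := k)
  set s' := Nat.findGreatest P (j + 1) with hs'
  obtain ⟨q, r, e, hq, hq2⟩ := h1
  refine ⟨s', h2, q, r, e, hq, hq2, ?_⟩
  by_cases hj : s' = j + 1
  · exact Or.inl hj
  · right
    have hlt : s' < j + 1 := by omega
    have hsc : sc (s' + 1) = 2 ^ s' := by
      unfold sc
      rw [if_neg (by omega)]
      rfl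
    have hpow : (2 : ℕ) ^ s' ≤ 2 ^ j := Nat.pow_le_pow_right (by norm_num) (by omega)
    have hpos : 0 < (2 : ℕ) ^ j := by positivity
    obtain ⟨q', r', e', hq'⟩ := exists_first_passage ht (sc (s' + 1)) l (by omega)
    have hn : ¬ (2 * hL ht q' ≤ A) := fun hc => h3 (s' + 1) (by omega) (by omega)
      ⟨q', r', e', hq', hc⟩
    obtain ⟨c, hc, e1, e2⟩ := sp_cmp ht (e.symm.trans e') (by omega)
    obtain ⟨y, a, rfl⟩ := exists_last hc
    have h5 : hL ht (q ++ y) < sc (s' + 1) :=
      hq'.2 (q ++ y) [a] (by rw [e1]; simp) (by simp)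
    have h6 := hq.1
    have h7 := win_hL_append ht q y
    refine ⟨y, a, r', by rw [e2]; simp, ?_, by omega, ?_⟩
    · rcases Nat.eq_zero_or_pos s' with h0 | h0
      · rw [h0] at hsc h5 ⊢
        have h8 : sz 0 = 1 := rfl
        have h9 : (2 : ℕ) ^ 0 = 1 := rfl
        omega
      · have h8 : sc s' = sz s' := sc_of_pos h0
        have h9 : (2 : ℕ) ^ s' = 2 * sz s' := by
          unfold sz
          rw [← pow_succ', Nat.sub_add_cancel h0]
        omega
    · have h10 : q ++ y ++ [a] = q' := by rw [e1]; simp
      rw [h10]
      omega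

theorem exists_split (hht : ∀ a, 1 ≤ ht a) (j A : ℕ) (hA : 8 * 2 ^ j ≤ A) (hA2 : A < 16 * 2 ^ j)
    (l : List α) (hl : hL ht l = A) :
    ∃ (s' s : ℕ) (q m p : List α), s' ≤ j + 1 ∧ s ≤ j + 1 ∧ q ∈ Vset ht (sc s') ∧
      p ∈ Vset ht (sc s) ∧ m ∈ Mid ht j s' s ∧ l = q ++ m ++ p.reverse ∧
      2 * hL ht q ≤ A ∧ 2 * hL ht p ≤ A := by
  have hpos : 0 < (2 : ℕ) ^ j := by positivity
  obtain ⟨s', hs', q, r, e, hq, hq2, hc'⟩ := sp_first ht j A hA l hl
  obtain ⟨s, hs, p, t, f, hp, hp2, hc⟩ := sp_first ht j A hA l.reverse
    (by rw [sp_hL_reverse]; exact hl)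
  have f' : l = t.reverse ++ p.reverse := by
    rw [← List.reverse_append, ← f, List.reverse_reverse]
  have hqr : hL ht q + hL ht r = A := by rw [← win_hL_append, ← e]; exact hl
  have htp : hL ht t + hL ht p = A := by
    have := win_hL_append ht t.reverse p.reverse
    rw [← f', sp_hL_reverse, sp_hL_reverse, hl] at this
    omega
  by_cases hsj : s = j + 1
  · by_cases hsj' : s' = j + 1
    · -- both at the top scale
      have key : ∃ m, l = q ++ m ++ p.reverse := by
        rcases List.append_eq_append_iff.1 (e.symm.trans f') with ⟨m, h1, h2⟩ | ⟨m, h1, h2⟩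
        · exact ⟨m, by rw [e, h2]; simp⟩
        · by_cases hm : m = []
          · subst hm
            rw [List.nil_append] at h2
            exact ⟨[], by rw [e, ← h2]; simp⟩
          · exfalso
            have h3 := congrArg (hL ht) h1
            have h4 := congrArg (hL ht) h2
            rw [win_hL_append, sp_hL_reverse] at h3 h4
            have h5 : 1 ≤ hL ht m := win_hL_pos ht hht hm
            omega
      obtain ⟨m, hm⟩ := key
      refine ⟨s', s, q, m, p, hs', hs, hq, hp, Or.inl ⟨hsj', hsj, ?_⟩, hm, hq2, hp2⟩
      have h1 := congrArg (hL ht) hm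
      rw [win_hL_append, win_hL_append] at h1
      omega
    · -- `s` is the top scale, `s'` is not
      rcases hc' with hc' | ⟨y, a, r', hr, hy, hqy, hqa⟩
      · exact absurd hc' hsj'
      · have h1 := win_hL_append ht q y
        have h2 := win_hL_append ht (q ++ y) [a]
        have h3 := sp_hL_single ht a
        have e1 : l = (q ++ y ++ [a]) ++ r' := by rw [e, hr]; simp
        have h4 : hL ht (q ++ y ++ [a]) + hL ht r' = A := by
          rw [← win_hL_append, ← e1]; exact hl
        -- the final part is inside `r'`
        have key : ∃ x, r' = x ++ p.reverse := by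
          rcases List.append_eq_append_iff.1 (e1.symm.trans f') with ⟨x, h5, h6⟩ | ⟨x, h5, h6⟩
          · exact ⟨x, h6⟩
          · by_cases hx : x = []
            · subst hx
              rw [List.nil_append] at h6
              exact ⟨[], by rw [← h6]; simp⟩
            · exfalso
              obtain ⟨x', b, hx'⟩ := exists_last hx
              rw [hx', ← List.append_assoc] at h5
              obtain ⟨h7, h8⟩ := List.append_inj' h5 rfl
              have h9 : a = b := by simpa using h8
              subst h9
              have h10 := congrArg (hL ht) h6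
              rw [sp_hL_reverse, hx', win_hL_append, win_hL_append] at h10
              omega
        obtain ⟨x, hx⟩ := key
        have h5 := win_hL_append ht x p.reverse
        rw [← hx] at h5
        refine ⟨s', s, q, y ++ a :: x, p, hs', hs, hq, hp, Or.inr ⟨fun h => hsj' h.1, y, a, x, rfl,
          ?_, ?_, by omega⟩, ?_, hq2, hp2⟩
        · unfold gs
          rw [if_neg hsj']
          exact hy
        · unfold gs
          rw [if_pos hsj]
          omega
        · rw [e1, hx]; simp
  · -- `s` is not the top scale
    rcases hc with hc | ⟨x, a, t', hr, hx, hpx, hpa⟩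
    · exact absurd hc hsj
    · have h1 := win_hL_append ht p x
      have h2 := win_hL_append ht (p ++ x) [a]
      have h3 := sp_hL_single ht a
      have e1 : l = t'.reverse ++ (a :: (x.reverse ++ p.reverse)) := by
        rw [f', hr]; simp
      have h4 : hL ht t' + hL ht (p ++ x ++ [a]) = A := by
        have h5 := congrArg (hL ht) e1
        rw [win_hL_append, sp_hL_cons, win_hL_append, sp_hL_reverse, sp_hL_reverse,
          sp_hL_reverse] at h5
        omega
      -- the initial part is inside `t'.reverse`
      have key : ∃ y, t'.reverse = q ++ y := by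
        rcases List.append_eq_append_iff.1 (e.symm.trans e1) with ⟨y, h5, h6⟩ | ⟨y, h5, h6⟩
        · exact ⟨y, h5⟩
        · cases y with
          | nil =>
            rw [List.append_nil] at h5
            exact ⟨[], by rw [h5]; simp⟩
          | cons b y =>
            exfalso
            have h7 : a = b := by
              simp only [List.cons_append, List.cons.injEq] at h6
              exact h6.1
            subst h7
            have h8 := congrArg (hL ht) h5
            rw [win_hL_append, sp_hL_cons, sp_hL_reverse] at h8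
            omega
      obtain ⟨y, hy⟩ := key
      have h5 := win_hL_append ht q y
      rw [← hy, sp_hL_reverse] at h5
      have e2 : l = (q ++ y) ++ (a :: (x.reverse ++ p.reverse)) := by rw [← hy]; exact e1
      refine ⟨s', s, q, y ++ a :: x.reverse, p, hs', hs, hq, hp, Or.inr ⟨fun h => hsj h.2, y, a,
        x.reverse, rfl, ?_, ?_, by omega⟩, ?_, hq2, hp2⟩
      · unfold gs
        by_cases hsj' : s' = j + 1
        · rw [if_pos hsj']
          omega
        · rw [if_neg hsj']
          rcases hc' with hc' | ⟨y', a', r', hr', hy', hqy', hqa'⟩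
          · exact absurd hc' hsj'
          · have e3 : l = (q ++ y' ++ [a']) ++ r' := by rw [e, hr']; simp
            have h6 : hL ht (q ++ y) < hL ht (q ++ y' ++ [a']) := by
              have h7 := win_hL_append ht q y
              omega
            obtain ⟨c, hc, e4, -⟩ := sp_cmp ht (e2.symm.trans e3) h6
            obtain ⟨c', b, rfl⟩ := exists_last hc
            rw [← List.append_assoc] at e4
            obtain ⟨e5, -⟩ := List.append_inj' e4 rfl
            rw [List.append_assoc] at e5
            have e6 := List.append_cancel_left e5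
            rw [e6, win_hL_append] at hy'
            omega
      · unfold gs
        rw [if_neg hsj, sp_hL_reverse]
        exact hx
      · rw [e2]; simp

end Abstract

end Pool.Agent.BT
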