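import Pool.Agent.BT.QBound
import Pool.Agent.BT.MidBound
import Pool.Agent.BT.Split
import Pool.Agent.BT.Num

set_option autoImplicit false

open scoped ENNReal
open Filter Topology Pool.Agent.SawTree Pool.Agent.BB

namespace Pool.Agent.BT

lemma wsum_nest {β γ : Type} (S : Set β) (T : β → Set γ) (f : β → γ → ℝ≥0∞) :
    wsum {p : β × γ | p.1 ∈ S ∧ p.2 ∈ T p.1} (fun p => f p.1 p.2)
      = wsum S (fun x => wsum (T x) (f x)) := by
  unfold wsum
  let e : {p : β × γ | p.1 ∈ S ∧ p.2 ∈ T p.1} ≃ (Σ x : S, T x.1) :=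
    { toFun := fun p => ⟨⟨p.1.1, p.2.1⟩, ⟨p.1.2, p.2.2⟩⟩
      invFun := fun q => ⟨(q.1.1, q.2.1), ⟨q.1.2, q.2.2⟩⟩
      left_inv := fun p => rfl
      right_inv := fun q => rfl }
  have h1 : ∑' p : {p : β × γ | p.1 ∈ S ∧ p.2 ∈ T p.1}, f (p : β × γ).1 (p : β × γ).2
      = ∑' q : (Σ x : S, T x.1), f (q.1 : β) (q.2 : γ) :=
    e.tsum_eq (fun q : (Σ x : S, T x.1) => f (q.1 : β) (q.2 : γ))
  rw [h1, ENNReal.tsum_sigma (fun (x : S) (y : T x.1) => f (x : β) (y : γ))]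

variable {α : Type} (ht : α → ℕ) (dx : α → ℤ) (w : α → ℝ≥0∞)

/-- supremum over the continuations of the initial part `q` -/
noncomputable def gsup (F : ℕ → List α → ℝ≥0∞) (A : ℕ) (q : List α) : ℝ≥0∞ :=
  ⨆ (l : List α) (_ : A ≤ hL ht l ∧ ∃ r, l = q ++ r), F A l

/-- total weight of the bridge of height `A` and of what follows, as a function of the height `x` of
its starting piece of scale `s` -/
noncomputable def Ew (j : ℕ) (F : ℕ → List α → ℝ≥0∞) (A s x : ℕ) : ℝ≥0∞ :=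
  ∑ s' ∈ Finset.range (j + 2), wsum {q | q ∈ Vset ht (sc s') ∧ x + hL ht q ≤ A ∧
    hL ht q < 16 * 2 ^ j} (fun q => wL w q * Rw ht w j s' s (A - x - hL ht q) * gsup ht F A q)

lemma le_gsup (F : ℕ → List α → ℝ≥0∞) (A : ℕ) (q l : List α) (h : A ≤ hL ht l)
    (h2 : ∃ r, l = q ++ r) : F A l ≤ gsup ht F A q := by
  unfold gsup
  exact le_iSup₂_of_le l ⟨h, h2⟩ le_rfl

/-- the sum over the bridges of height `A` in terms of the starting pieces -/
lemma sum_lists_le (hht : ∀ a, 1 ≤ ht a) (j : ℕ) (F : ℕ → List α → ℝ≥0∞) (A : ℕ)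
    (hA : 8 * 2 ^ j ≤ A) (hA2 : A < 16 * 2 ^ j) (P P' : List α → Prop)
    (hP : ∀ l, P l → ∀ p t, l.reverse = p ++ t → P' p) :
    wsum {l | hL ht l = A ∧ P l} (fun l => wL w l * F A l) ≤
      ∑ s ∈ Finset.range (j + 2), wsum {p | p ∈ Vset ht (sc s) ∧ hL ht p < 16 * 2 ^ j ∧ P' p}
        (fun p => wL w p * Ew ht w j F A s (hL ht p)) := by
  classical
  -- the right hand side as one sum
  set SP : Set (ℕ × List α) := {u | u.1 ∈ Finset.range (j + 2) ∧
    u.2 ∈ {p | p ∈ Vset ht (sc u.1) ∧ hL ht p < 16 * 2 ^ j ∧ P' p}} with hSP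
  set SQ : ℕ × List α → Set (ℕ × List α) := fun u => {v | v.1 ∈ Finset.range (j + 2) ∧
    v.2 ∈ {q | q ∈ Vset ht (sc v.1) ∧ hL ht u.2 + hL ht q ≤ A ∧ hL ht q < 16 * 2 ^ j}} with hSQ
  set SM : (ℕ × List α) × (ℕ × List α) → Set (List α) := fun z =>
    {m | m ∈ Mid ht j z.2.1 z.1.1 ∧ hL ht m = A - hL ht z.1.2 - hL ht z.2.2} with hSM
  have hR : ∑ s ∈ Finset.range (j + 2), wsum {p | p ∈ Vset ht (sc s) ∧ hL ht p < 16 * 2 ^ j ∧ P' p}
        (fun p => wL w p * Ew ht w j F A s (hL ht p))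
      = wsum {z : ((ℕ × List α) × (ℕ × List α)) × List α | z.1 ∈ {y : (ℕ × List α) × (ℕ × List α) |
          y.1 ∈ SP ∧ y.2 ∈ SQ y.1} ∧ z.2 ∈ SM z.1}
        (fun z => wL w z.1.1.2 * (wL w z.1.2.2 * wL w z.2 * gsup ht F A z.1.2.2)) := by
    rw [wsum_nest {y : (ℕ × List α) × (ℕ × List α) | y.1 ∈ SP ∧ y.2 ∈ SQ y.1} SM
      (fun y m => wL w y.1.2 * (wL w y.2.2 * wL w m * gsup ht F A y.2.2))]
    rw [wsum_nest SP SQ (fun u v => wsum (SM (u, v))
      (fun m => wL w u.2 * (wL w v.2 * wL w m * gsup ht F A v.2)))]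
    rw [wsum_sigma (Finset.range (j + 2)) (fun s => {p | p ∈ Vset ht (sc s) ∧ hL ht p < 16 * 2 ^ j
      ∧ P' p}) (fun s p => wsum (SQ (s, p)) (fun v => wsum (SM ((s, p), v))
      (fun m => wL w p * (wL w v.2 * wL w m * gsup ht F A v.2))))]
    apply Finset.sum_congr rfl
    intro s _
    apply wsum_congr
    intro p _
    unfold Ew
    rw [wsum_sigma (Finset.range (j + 2)) (fun s' => {q | q ∈ Vset ht (sc s') ∧
      hL ht p + hL ht q ≤ A ∧ hL ht q < 16 * 2 ^ j}) (fun s' q => wsum (SM ((s, p), (s', q)))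
      (fun m => wL w p * (wL w q * wL w m * gsup ht F A q)))]
    rw [Finset.mul_sum]
    apply Finset.sum_congr rfl
    intro s' _
    rw [← wsum_mul_left]
    apply wsum_congr
    intro q _
    rw [wsum_mul_left]
    congr 1
    unfold Rw
    rw [mul_assoc, mul_comm (wsum _ _) (gsup ht F A q), ← mul_assoc, ← wsum_mul_left]
    apply wsum_congr
    intro m _
    ring
  rw [hR]
  -- the choice of the splitting
  have hch : ∀ l : List α, ∃ z : ((ℕ × List α) × (ℕ × List α)) × List α, hL ht l = A →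
      z.1.2.1 ≤ j + 1 ∧ z.1.1.1 ≤ j + 1 ∧ z.1.2.2 ∈ Vset ht (sc z.1.2.1) ∧
      z.1.1.2 ∈ Vset ht (sc z.1.1.1) ∧ z.2 ∈ Mid ht j z.1.2.1 z.1.1.1 ∧
      l = z.1.2.2 ++ z.2 ++ z.1.1.2.reverse ∧ 2 * hL ht z.1.2.2 ≤ A ∧ 2 * hL ht z.1.1.2 ≤ A := by
    intro l
    by_cases h : hL ht l = A
    · obtain ⟨s', s, q, m, p, h1⟩ := exists_split ht hht j A hA hA2 l h
      exact ⟨(((s, p), (s', q)), m), fun _ => h1⟩
    · exact ⟨(((0, []), (0, [])), []), fun h' => absurd h' h⟩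
  choose f hf using hch
  apply wsum_le_of_injOn f
  · rintro l ⟨hl, hPl⟩
    obtain ⟨h1, h2, h3, h4, h5, h6, h7, h8⟩ := hf l hl
    have hH : hL ht l = hL ht (f l).1.2.2 + hL ht (f l).2 + hL ht (f l).1.1.2 := by
      conv_lhs => rw [h6]
      simp [hL, List.sum_reverse, add_assoc]
    refine ⟨⟨⟨Finset.mem_range.mpr (by omega), h4, by omega, ?_⟩,
      Finset.mem_range.mpr (by omega), h3, by omega, by omega⟩, h5, by omega⟩
    exact hP l hPl _ ((f l).2.reverse ++ (f l).1.2.2.reverse) (by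
      conv_lhs => rw [h6]
      simp)
  · rintro l ⟨hl, _⟩ l' ⟨hl', _⟩ he
    obtain ⟨_, _, _, _, _, h6, _⟩ := hf l hl
    obtain ⟨_, _, _, _, _, h6', _⟩ := hf l' hl'
    rw [h6, h6', he]
  · rintro l ⟨hl, _⟩
    obtain ⟨h1, h2, h3, h4, h5, h6, h7, h8⟩ := hf l hl
    have hW : wL w l = wL w (f l).1.2.2 * wL w (f l).2 * wL w (f l).1.1.2 := by
      conv_lhs => rw [h6]
      simp [wL, List.prod_reverse, mul_assoc]
    have hg := le_gsup ht F A (f l).1.2.2 l (by omega) ⟨(f l).2 ++ (f l).1.1.2.reverse, by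
      conv_lhs => rw [h6]
      simp⟩
    rw [hW]
    calc wL w (f l).1.2.2 * wL w (f l).2 * wL w (f l).1.1.2 * F A l
        ≤ wL w (f l).1.2.2 * wL w (f l).2 * wL w (f l).1.1.2 * gsup ht F A (f l).1.2.2 := by gcongr
      _ = _ := by ring

/-- the recursion for the suprema -/
lemma gsup_le (hht : ∀ a, 1 ≤ ht a) (j : ℕ) (F : ℕ → List α → ℝ≥0∞) (c : ℝ≥0∞)
    (hF : ∀ A, 8 * 2 ^ j ≤ A → A < 16 * 2 ^ j → ∀ l, A ≤ hL ht l →
      F A l ≤ c + ∑ A' ∈ Finset.Ico (8 * 2 ^ j) A,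
        wsum {l' | hL ht l' = A' ∧ KK ht dx l l'.reverse} (fun l' => wL w l' * F A' l'))
    (A : ℕ) (hA : 8 * 2 ^ j ≤ A) (hA2 : A < 16 * 2 ^ j) (q : List α) :
    gsup ht F A q ≤ c + ∑ A' ∈ Finset.Ico (8 * 2 ^ j) A, ∑ s ∈ Finset.range (j + 2),
      wsum {p | p ∈ Vset ht (sc s) ∧ hL ht p < 16 * 2 ^ j ∧ KK ht dx q p}
        (fun p => wL w p * Ew ht w j F A' s (hL ht p)) := by
  unfold gsup
  apply iSup₂_le
  rintro l ⟨hl, r, hr⟩
  refine le_trans (hF A hA hA2 l hl) ?_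
  gcongr with A' hA'
  rw [Finset.mem_Ico] at hA'
  apply sum_lists_le ht w hht j F A' hA'.1 (by omega) (fun l' => KK ht dx l l'.reverse)
    (fun p => KK ht dx q p)
  intro l' hl' p t ht'
  exact KK.left ht dx hl' hr ht'

/-- fibres of a sum over pairs -/
lemma pairs_le (j : ℕ) (s' s y : ℕ) (e : ℕ → ℝ≥0∞) :
    wsum {q | q ∈ Vset ht (sc s') ∧ hL ht q = y} (fun q => wL w q *
      wsum {p | p ∈ Vset ht (sc s) ∧ hL ht p < 16 * 2 ^ j ∧ KK ht dx q p}
        (fun p => wL w p * e (hL ht p))) ≤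
      ∑ x ∈ Finset.range (16 * 2 ^ j), kap ht dx w s' s y x * e x := by
  have h1 : wsum {q | q ∈ Vset ht (sc s') ∧ hL ht q = y} (fun q => wL w q *
      wsum {p | p ∈ Vset ht (sc s) ∧ hL ht p < 16 * 2 ^ j ∧ KK ht dx q p}
        (fun p => wL w p * e (hL ht p)))
      = wsum {z : List α × List α | z.1 ∈ {q | q ∈ Vset ht (sc s') ∧ hL ht q = y} ∧
          z.2 ∈ {p | p ∈ Vset ht (sc s) ∧ hL ht p < 16 * 2 ^ j ∧ KK ht dx z.1 p}}
        (fun z => wL w z.1 * (wL w z.2 * e (hL ht z.2))) := by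
    rw [wsum_nest {q | q ∈ Vset ht (sc s') ∧ hL ht q = y}
      (fun q => {p | p ∈ Vset ht (sc s) ∧ hL ht p < 16 * 2 ^ j ∧ KK ht dx q p})
      (fun q p => wL w q * (wL w p * e (hL ht p)))]
    apply wsum_congr
    intro q _
    rw [wsum_mul_left]
  rw [h1]
  have h2 : ∀ x ∈ Finset.range (16 * 2 ^ j), kap ht dx w s' s y x * e x =
      wsum {p : List α × List α | p.1 ∈ Vset ht (sc s') ∧ p.2 ∈ Vset ht (sc s) ∧ hL ht p.1 = y ∧
        hL ht p.2 = x ∧ KK ht dx p.1 p.2} (fun z => wL w z.1 * (wL w z.2 * e (hL ht z.2))) := by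
    intro x _
    unfold kap
    rw [mul_comm, ← wsum_mul_left]
    apply wsum_congr
    rintro z ⟨_, _, _, hz, _⟩
    unfold w2
    rw [hz]
    ring
  rw [Finset.sum_congr rfl h2]
  refine le_trans ?_ (wsum_biUnion_le (Finset.range (16 * 2 ^ j)) _ _)
  apply wsum_mono _ (fun _ _ => le_rfl)
  rintro z ⟨⟨h3, h4⟩, h5, h6, h7⟩
  exact ⟨hL ht z.2, Finset.mem_range.mpr h6, h3, h5, h4, rfl, h7⟩

/-- the recursion for `Ew` -/
lemma Ew_le (hht : ∀ a, 1 ≤ ht a) (j : ℕ) (F : ℕ → List α → ℝ≥0∞) (c : ℝ≥0∞)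
    (hF : ∀ A, 8 * 2 ^ j ≤ A → A < 16 * 2 ^ j → ∀ l, A ≤ hL ht l →
      F A l ≤ c + ∑ A' ∈ Finset.Ico (8 * 2 ^ j) A,
        wsum {l' | hL ht l' = A' ∧ KK ht dx l l'.reverse} (fun l' => wL w l' * F A' l'))
    (A : ℕ) (hA : 8 * 2 ^ j ≤ A) (hA2 : A < 16 * 2 ^ j) (s x : ℕ) :
    Ew ht w j F A s x ≤
      ∑ s' ∈ Finset.range (j + 2), ∑ y ∈ Finset.range (16 * 2 ^ j),
        (if x + y ≤ A then Rw ht w j s' s (A - x - y) else 0) *
          (c * kap ht dx w s' 0 y 0 + ∑ A' ∈ Finset.Ico (8 * 2 ^ j) A,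
            ∑ s'' ∈ Finset.range (j + 2), ∑ x'' ∈ Finset.range (16 * 2 ^ j),
              kap ht dx w s' s'' y x'' * Ew ht w j F A' s'' x'') := by
  unfold Ew
  apply Finset.sum_le_sum
  intro s' _
  have h1 : wsum {q | q ∈ Vset ht (sc s') ∧ x + hL ht q ≤ A ∧ hL ht q < 16 * 2 ^ j}
      (fun q => wL w q * Rw ht w j s' s (A - x - hL ht q) * gsup ht F A q) ≤
      ∑ y ∈ Finset.range (16 * 2 ^ j), wsum {q | q ∈ Vset ht (sc s') ∧ x + hL ht q ≤ A ∧
        hL ht q = y} (fun q => wL w q * Rw ht w j s' s (A - x - hL ht q) * gsup ht F A q) := by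
    refine le_trans ?_ (wsum_biUnion_le (Finset.range (16 * 2 ^ j)) _ _)
    apply wsum_mono _ (fun _ _ => le_rfl)
    rintro q ⟨h2, h3, h4⟩
    exact ⟨hL ht q, Finset.mem_range.mpr h4, h2, h3, rfl⟩
  refine le_trans h1 ?_
  apply Finset.sum_le_sum
  intro y _
  by_cases hxy : x + y ≤ A
  · rw [if_pos hxy]
    have h2 : wsum {q | q ∈ Vset ht (sc s') ∧ x + hL ht q ≤ A ∧ hL ht q = y}
        (fun q => wL w q * Rw ht w j s' s (A - x - hL ht q) * gsup ht F A q) ≤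
        wsum {q | q ∈ Vset ht (sc s') ∧ hL ht q = y}
          (fun q => Rw ht w j s' s (A - x - y) * (wL w q * (c +
            ∑ A' ∈ Finset.Ico (8 * 2 ^ j) A, ∑ s'' ∈ Finset.range (j + 2),
              wsum {p | p ∈ Vset ht (sc s'') ∧ hL ht p < 16 * 2 ^ j ∧ KK ht dx q p}
                (fun p => wL w p * Ew ht w j F A' s'' (hL ht p))))) := by
      apply wsum_mono
      · rintro q ⟨h3, _, h4⟩
        exact ⟨h3, h4⟩
      · rintro q ⟨h3, _, h4⟩
        rw [h4]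
        calc wL w q * Rw ht w j s' s (A - x - y) * gsup ht F A q
            ≤ wL w q * Rw ht w j s' s (A - x - y) * (c +
            ∑ A' ∈ Finset.Ico (8 * 2 ^ j) A, ∑ s'' ∈ Finset.range (j + 2),
              wsum {p | p ∈ Vset ht (sc s'') ∧ hL ht p < 16 * 2 ^ j ∧ KK ht dx q p}
                (fun p => wL w p * Ew ht w j F A' s'' (hL ht p))) := by
              gcongr
              exact gsup_le ht dx w hht j F c hF A hA hA2 q
          _ = _ := by ring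
    refine le_trans h2 ?_
    rw [wsum_mul_left]
    gcongr
    -- split the sum
    have h3 : wsum {q | q ∈ Vset ht (sc s') ∧ hL ht q = y} (fun q => wL w q * (c +
            ∑ A' ∈ Finset.Ico (8 * 2 ^ j) A, ∑ s'' ∈ Finset.range (j + 2),
              wsum {p | p ∈ Vset ht (sc s'') ∧ hL ht p < 16 * 2 ^ j ∧ KK ht dx q p}
                (fun p => wL w p * Ew ht w j F A' s'' (hL ht p))))
        = c * wsum {q | q ∈ Vset ht (sc s') ∧ hL ht q = y} (wL w) +
          ∑ A' ∈ Finset.Ico (8 * 2 ^ j) A, ∑ s'' ∈ Finset.range (j + 2),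
            wsum {q | q ∈ Vset ht (sc s') ∧ hL ht q = y} (fun q => wL w q *
              wsum {p | p ∈ Vset ht (sc s'') ∧ hL ht p < 16 * 2 ^ j ∧ KK ht dx q p}
                (fun p => wL w p * Ew ht w j F A' s'' (hL ht p))) := by
      unfold wsum
      rw [← ENNReal.tsum_mul_left]
      simp_rw [mul_add, Finset.mul_sum]
      rw [ENNReal.tsum_add]
      congr 1
      · apply tsum_congr
        intro q
        ring
      · rw [Summable.tsum_finsetSum (fun _ _ => ENNReal.summable)]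
        apply Finset.sum_congr rfl
        intro A' _
        rw [Summable.tsum_finsetSum (fun _ _ => ENNReal.summable)]
    rw [h3]
    gcongr with A' _ s'' _
    · -- the pairs with an empty second component
      unfold kap
      apply wsum_le_of_injOn (fun q => (q, []))
      · rintro q ⟨h4, h5⟩
        refine ⟨h4, ?_, h5, by simp [hL], KK_nil_right ht dx q⟩
        show [] ∈ Vset ht (sc 0)
        rw [show sc 0 = 0 from rfl, Vset_zero]
        rfl
      · intro q _ q' _ he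
        exact congrArg Prod.fst he
      · intro q _
        simp [w2, wL]
    · exact pairs_le ht dx w j s' s'' y (fun x'' => Ew ht w j F A' s'' x'')
  · rw [if_neg hxy]
    have h2 : {q | q ∈ Vset ht (sc s') ∧ x + hL ht q ≤ A ∧ hL ht q = y} = (∅ : Set (List α)) := by
      rw [Set.eq_empty_iff_forall_notMem]
      rintro q ⟨_, h3, h4⟩
      rw [h4] at h3
      exact hxy h3
    rw [h2]
    unfold wsum
    simp

theorem chain_main (hht : ∀ a, 1 ≤ ht a) (hw : ∑' a, w a ≤ 1) (ρ : α → α) (hρ : ∀ a, ρ (ρ a) = a)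
    (h1 : ∀ a, ht (ρ a) = ht a) (h2 : ∀ a, dx (ρ a) = - dx a) (h3 : ∀ a, w (ρ a) = w a)
    (j : ℕ) (F : ℕ → List α → ℝ≥0∞) (c T : ℝ≥0∞)
    (hF : ∀ A, 8 * 2 ^ j ≤ A → A < 16 * 2 ^ j → ∀ l, A ≤ hL ht l →
      F A l ≤ c + ∑ A' ∈ Finset.Ico (8 * 2 ^ j) A,
        wsum {l' | hL ht l' = A' ∧ KK ht dx l l'.reverse} (fun l' => wL w l' * F A' l'))
    (hT : T ≤ c + ∑ A' ∈ Finset.Ico (8 * 2 ^ j) (16 * 2 ^ j),
        wsum {l' | hL ht l' = A'} (fun l' => wL w l' * F A' l')) :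
    T ≤ c * ENNReal.ofReal (Real.exp (38 * ((j : ℝ) + 2) ^ 2 * √(8 * 2 ^ j))) := by
  have hL2 : 2 * (8 * 2 ^ j) = 16 * 2 ^ j := by ring
  have key := num_main (j + 2) (8 * 2 ^ j) (16 * 2 ^ j) (by omega) (fun s => VV ht w (sz s))
    (fun s => one_le_VV ht w hht _ (sz_pos s))
    (fun s hs => VV_mono ht w (sz_mono (by omega)))
    (by
      refine le_trans (VV_le ht w hht hw _) ?_
      have : sz (j + 2 - 1) ≤ 8 * 2 ^ j := by
        unfold sz
        have : j + 2 - 1 - 1 = j := by omega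
        rw [this]; omega
      exact_mod_cast this)
    (kap ht dx w)
    (by
      intro s' hs' s hs
      refine le_trans ?_ (Q_bound ht dx w hht hw ρ hρ h1 h2 h3 j s' s (by omega) (by omega))
      gcongr
      rw [← Finset.sum_product']
      apply sum_wsum_le_of_disj (Finset.range (16 * 2 ^ j) ×ˢ Finset.range (16 * 2 ^ j))
        (fun i : ℕ × ℕ => {p : List α × List α | p.1 ∈ Vset ht (sc s') ∧ p.2 ∈ Vset ht (sc s) ∧
          hL ht p.1 = i.1 ∧ hL ht p.2 = i.2 ∧ KK ht dx p.1 p.2})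
      · rintro i _ p ⟨h4, h5, _, _, h6⟩
        exact ⟨h4, h5, h6⟩
      · rintro i _ i' _ p ⟨_, _, h4, h5, _⟩ ⟨_, _, h4', h5', _⟩
        exact Prod.ext (h4.symm.trans h4') (h5.symm.trans h5'))
    (Rw ht w j)
    (fun s' hs' s hs => Rw_bound ht w hht hw j s' s (by omega) (by omega))
    (fun A s x => Ew ht w j F A s x) c
    (fun A hA hA2 s _ x _ => Ew_le ht dx w hht j F c hF A hA (by omega) s x)
  rw [hL2] at key
  have hcast : 38 * (((j + 2 : ℕ) : ℝ)) ^ 2 * √(((8 * 2 ^ j : ℕ) : ℝ))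
      = 38 * ((j : ℝ) + 2) ^ 2 * √(8 * 2 ^ j) := by push_cast; ring_nf
  rw [hcast] at key
  refine le_trans hT (le_trans ?_ key)
  gcongr with A hA
  rw [Finset.mem_Ico] at hA
  have h4 := sum_lists_le ht w hht j F A hA.1 hA.2 (fun _ => True) (fun _ => True)
    (fun _ _ _ _ _ => trivial)
  have h5 : {l | hL ht l = A} = {l | hL ht l = A ∧ True} := by ext l; simp
  rw [h5]
  refine le_trans h4 ?_
  apply Finset.sum_le_sum
  intro s _
  -- the pairs with an empty first component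
  have h6 := pairs_le ht dx w j 0 s 0 (fun x => Ew ht w j F A s x)
  refine le_trans ?_ h6
  have h7 : wsum {q | q ∈ Vset ht (sc 0) ∧ hL ht q = 0} (fun q => wL w q *
      wsum {p | p ∈ Vset ht (sc s) ∧ hL ht p < 16 * 2 ^ j ∧ KK ht dx q p}
        (fun p => wL w p * Ew ht w j F A s (hL ht p)))
      = wsum {p | p ∈ Vset ht (sc s) ∧ hL ht p < 16 * 2 ^ j ∧ KK ht dx [] p}
        (fun p => wL w p * Ew ht w j F A s (hL ht p)) := by
    have h8 : {q | q ∈ Vset ht (sc 0) ∧ hL ht q = 0} = ({[]} : Set (List α)) := by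
      rw [show sc 0 = 0 from rfl, Vset_zero]
      ext q
      constructor
      · rintro ⟨h9, _⟩
        exact h9
      · intro h9
        refine ⟨h9, ?_⟩
        have : q = [] := h9
        rw [this]
        simp [hL]
    rw [h8]
    conv_lhs => unfold wsum
    rw [tsum_eq_single ⟨[], rfl⟩]
    · have h9 : wL w ([] : List α) = 1 := by simp [wL]
      show wL w ([] : List α) * _ = _
      rw [h9, one_mul]
      rfl
    · intro b hb
      exact absurd (Subtype.ext (Set.mem_singleton_iff.mp b.2)) hb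
  rw [h7]
  apply wsum_mono _ (fun _ _ => le_rfl)
  rintro p ⟨h8, h9, _⟩
  exact ⟨h8, h9, KK_nil_left ht dx p⟩

end Pool.Agent.BT
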