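import Pool.Agent.BT.Basic
import Pool.Agent.BT.Young
import Pool.Agent.BB.Window
import Pool.Agent.BB.Insertion

set_option autoImplicit false

open scoped ENNReal
open Filter Topology Pool.Agent.SawTree Pool.Agent.BB

namespace Pool.Agent.BT

section Abstract
variable {α : Type} (ht : α → ℕ) (dx : α → ℤ) (w : α → ℝ≥0∞)

/-- sequences of first passages of height `s` of total height `i` -/
def clB (s i : ℕ) : Set (List (List α)) :=
  {L | (∀ v ∈ L, v ∈ Vset ht s) ∧ hL ht L.flatten = i}

/-- two first passages which begin the same list are equal -/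
lemma cl_Vset_eq {s : ℕ} {v v' r r' : List α} (hv : v ∈ Vset ht s) (hv' : v' ∈ Vset ht s)
    (h : v ++ r = v' ++ r') : v = v' ∧ r = r' := by
  rcases List.append_eq_append_iff.mp h with ⟨a, h1, h2⟩ | ⟨c, h1, h2⟩
  · by_cases ha : a = []
    · subst ha
      simp at h1 h2
      exact ⟨h1.symm, h2⟩
    · have := hv'.2 v a h1 ha
      have := hv.1
      omega
  · by_cases hc : c = []
    · subst hc
      simp at h1 h2
      exact ⟨h1, h2.symm⟩
    · have := hv.2 v' c h1 hc
      have := hv'.1
      omega

/-- uniqueness of the decomposition -/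
lemma cl_unique (s : ℕ) : ∀ (L L' : List (List α)) (r r' : List α),
    (∀ v ∈ L, v ∈ Vset ht s) → (∀ v ∈ L', v ∈ Vset ht s) → hL ht r < s → hL ht r' < s →
    L.flatten ++ r = L'.flatten ++ r' → L = L' ∧ r = r' := by
  intro L
  induction L with
  | nil =>
    intro L' r r' _ hL' hr _ he
    cases L' with
    | nil => simpa using he
    | cons v L' =>
      exfalso
      have hv := (hL' v (by simp)).1
      simp only [List.flatten_nil, List.nil_append, List.flatten_cons, List.append_assoc] at he
      rw [he, win_hL_append] at hr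
      omega
  | cons v L ih =>
    intro L' r r' h1 hL' hr hr' he
    cases L' with
    | nil =>
      exfalso
      have hv := (h1 v (by simp)).1
      simp only [List.flatten_nil, List.nil_append, List.flatten_cons, List.append_assoc] at he
      rw [← he, win_hL_append] at hr'
      omega
    | cons v' L' =>
      simp only [List.flatten_cons, List.append_assoc] at he
      obtain ⟨e1, e2⟩ := cl_Vset_eq ht (h1 v (by simp)) (hL' v' (by simp)) he
      obtain ⟨e3, e4⟩ := ih L' r r' (fun u hu => h1 u (by simp [hu]))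
        (fun u hu => hL' u (by simp [hu])) hr hr' e2
      exact ⟨by rw [e1, e3], e4⟩

/-- existence of the decomposition -/
lemma cl_exists (s : ℕ) (hs : 1 ≤ s) : ∀ (k : ℕ) (l : List α), l.length ≤ k →
    ∃ (L : List (List α)) (r : List α), (∀ v ∈ L, v ∈ Vset ht s) ∧ hL ht r < s ∧
      l = L.flatten ++ r := by
  intro k
  induction k with
  | zero =>
    intro l hl
    have : l = [] := List.length_eq_zero_iff.mp (by omega)
    subst this
    exact ⟨[], [], by simp, by simp [hL]; omega, by simp⟩
  | succ k ih =>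
    intro l hl
    by_cases hh : hL ht l < s
    · exact ⟨[], l, by simp, hh, by simp⟩
    · obtain ⟨p, t, h1, h2⟩ := exists_first_passage ht s l (by omega)
      have hp : 0 < p.length := by
        rcases p with _ | ⟨a, p⟩
        · have := h2.1
          simp [hL] at this
          omega
        · simp
      have hlen : t.length ≤ k := by
        rw [h1, List.length_append] at hl
        omega
      obtain ⟨L, r, h3, h4, h5⟩ := ih t hlen
      refine ⟨p :: L, r, ?_, h4, ?_⟩
      · intro v hv
        rcases List.mem_cons.mp hv with rfl | hv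
        · exact h2
        · exact h3 v hv
      · rw [h1, h5]; simp

/-- weight of the sequences of first passages of total height `i` -/
noncomputable def clC (s i : ℕ) : ℝ≥0∞ := wsum (clB ht s i) (fun L => wL w L.flatten)

lemma Bw_le_cl (s : ℕ) (hs : 1 ≤ s) (n : ℕ) :
    Bw ht w n ≤ ∑ i ∈ Finset.range (n + 1), clC ht w s i *
      (if n - i < s then Bw ht w (n - i) else 0) := by
  have h0 : ∀ i ∈ Finset.range (n + 1), wsum (clB ht s i ×ˢ {r : List α | hL ht r = n - i ∧
      n - i < s}) (fun p => wL w p.1.flatten * wL w p.2) ≤ clC ht w s i *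
      (if n - i < s then Bw ht w (n - i) else 0) := by
    intro i _
    rw [wsum_prod (clB ht s i) {r : List α | hL ht r = n - i ∧ n - i < s}
      (fun L : List (List α) => wL w L.flatten) (wL w)]
    unfold clC
    gcongr
    split
    · unfold Bw
      exact wsum_mono (fun r hr => hr.1) (fun _ _ => le_rfl)
    · rename_i hlt
      have : {r : List α | hL ht r = n - i ∧ n - i < s} = ∅ := by
        ext r
        constructor
        · rintro ⟨_, h2⟩
          exact absurd h2 hlt
        · intro h
          exact absurd h (Set.notMem_empty r)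
      rw [this]
      unfold wsum
      simp
  refine le_trans ?_ (Finset.sum_le_sum h0)
  rw [← wsum_sigma]
  have hch : ∀ l : List α, ∃ p : List (List α) × List α, (∀ v ∈ p.1, v ∈ Vset ht s) ∧
      hL ht p.2 < s ∧ l = p.1.flatten ++ p.2 := by
    intro l
    obtain ⟨L, r, h1, h2, h3⟩ := cl_exists ht s hs l.length l le_rfl
    exact ⟨(L, r), h1, h2, h3⟩
  choose f hf using hch
  unfold Bw
  apply wsum_le_of_injOn (fun l => (hL ht (f l).1.flatten, f l))
  · intro l hl
    have hl' : hL ht l = n := hl
    obtain ⟨h1, h2, h3⟩ := hf l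
    have h4 : hL ht l = hL ht (f l).1.flatten + hL ht (f l).2 := by
      conv_lhs => rw [h3]
      exact win_hL_append ht _ _
    refine ⟨?_, ⟨h1, rfl⟩, ?_, ?_⟩
    · show hL ht (f l).1.flatten ∈ Finset.range (n + 1)
      rw [Finset.mem_range]; omega
    · show hL ht (f l).2 = n - hL ht (f l).1.flatten
      omega
    · show n - hL ht (f l).1.flatten < s
      omega
  · intro l _ l' _ he
    have he' : f l = f l' := (Prod.mk.injEq _ _ _ _ ▸ he).2
    rw [(hf l).2.2, (hf l').2.2, he']
  · intro l _
    show wL w l ≤ wL w (f l).1.flatten * wL w (f l).2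
    conv_lhs => rw [(hf l).2.2]
    rw [win_wL_append]

lemma sum_cl_mul_le (m s : ℕ) :
    (∑ i ∈ Finset.range m, clC ht w s i) * GG ht w s ≤ GG ht w (m + s) := by
  have h1 : ∑ i ∈ Finset.range m, clC ht w s i ≤
      wsum {L : List (List α) | (∀ v ∈ L, v ∈ Vset ht s) ∧ hL ht L.flatten < m}
        (fun L => wL w L.flatten) := by
    unfold clC
    apply sum_wsum_le_of_disj
    · intro i hi L hL'
      refine ⟨hL'.1, ?_⟩
      rw [hL'.2]
      exact Finset.mem_range.mp hi
    · intro i _ j _ L h1 h2
      rw [← h1.2, ← h2.2]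
  rw [GG_eq, GG_eq]
  refine le_trans (mul_le_mul_left h1 _) ?_
  rw [← wsum_prod]
  apply wsum_le_of_injOn (fun p : List (List α) × List α => p.1.flatten ++ p.2)
  · rintro ⟨L, r⟩ ⟨h2, h3⟩
    have h2' := h2.2
    have h3' : hL ht r < s := h3
    show hL ht (L.flatten ++ r) < m + s
    rw [win_hL_append]
    have : hL ht L.flatten < m := h2'
    omega
  · rintro ⟨L, r⟩ ⟨h2, h3⟩ ⟨L', r'⟩ ⟨h2', h3'⟩ he
    obtain ⟨e1, e2⟩ := cl_unique ht s L L' r r' h2.1 h2'.1 h3 h3' he
    rw [e1, e2]
  · rintro ⟨L, r⟩ _
    show wL w L.flatten * wL w r ≤ wL w (L.flatten ++ r)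
    rw [win_wL_append]

/-- `V_m ^ (1/2) / G_m` is almost decreasing -/
theorem cluster (hht : ∀ a, 1 ≤ ht a) (hw : ∑' a, w a ≤ 1) (m s : ℕ) (hs : 1 ≤ s) :
    VV ht w m * GG ht w s ^ 2 ≤ GG ht w (m + s) ^ 2 * VV ht w s := by
  let a : ℕ → ℝ≥0∞ := fun i => if i < m then clC ht w s i else 0
  let b : ℕ → ℝ≥0∞ := fun k => if k < s then Bw ht w k else 0
  have ha : ∑' i, a i = ∑ i ∈ Finset.range m, clC ht w s i := by
    rw [tsum_eq_sum (s := Finset.range m)]
    · apply Finset.sum_congr rfl
      intro i hi
      simp only [a, if_pos (Finset.mem_range.mp hi)]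
    · intro i hi
      rw [Finset.mem_range] at hi
      simp only [a, if_neg hi]
  have hb : ∑' k, b k ^ 2 = VV ht w s := by
    unfold VV
    rw [tsum_eq_sum (s := Finset.range s)]
    · apply Finset.sum_congr rfl
      intro i hi
      simp only [b, if_pos (Finset.mem_range.mp hi)]
    · intro i hi
      rw [Finset.mem_range] at hi
      simp only [b, if_neg hi]
      simp
  have h1 : VV ht w m ≤ (∑' i, a i) ^ 2 * ∑' k, b k ^ 2 := by
    refine le_trans ?_ (young a b)
    unfold VV
    refine le_trans (Finset.sum_le_sum ?_) (ENNReal.sum_le_tsum (Finset.range m))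
    intro n hn
    rw [Finset.mem_range] at hn
    gcongr
    refine le_trans (Bw_le_cl ht w s hs n) ?_
    apply Finset.sum_le_sum
    intro i hi
    rw [Finset.mem_range] at hi
    simp only [a, b, if_pos (show i < m by omega)]
    exact le_rfl
  rw [ha, hb] at h1
  calc VV ht w m * GG ht w s ^ 2
      ≤ ((∑ i ∈ Finset.range m, clC ht w s i) ^ 2 * VV ht w s) * GG ht w s ^ 2 := by gcongr
    _ = ((∑ i ∈ Finset.range m, clC ht w s i) * GG ht w s) ^ 2 * VV ht w s := by ring
    _ ≤ GG ht w (m + s) ^ 2 * VV ht w s := by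
        gcongr
        exact sum_cl_mul_le ht w m s

end Abstract

end Pool.Agent.BT
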