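import Pool.Agent.BB.Pairs

set_option autoImplicit false

open scoped ENNReal
open Filter Topology Pool.Agent.SawTree Pool.Agent.BB

namespace Pool.Agent.BT

section Abstract

variable {α : Type}

/-- The branch `q` (read from the end of a bridge) and the branch `p` (read from the start of the
next one, whose abscissae count with the opposite sign) are in constant strict order at all the
common splits of positive height. -/
def KK (ht : α → ℕ) (dx : α → ℤ) (q p : List α) : Prop :=
  (∀ q1 r1 p1 t1, q = q1 ++ r1 → p = p1 ++ t1 → hL ht q1 = hL ht p1 → 0 < hL ht q1 →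
    0 < xL dx q1 + xL dx p1) ∨
  (∀ q1 r1 p1 t1, q = q1 ++ r1 → p = p1 ++ t1 → hL ht q1 = hL ht p1 → 0 < hL ht q1 →
    xL dx q1 + xL dx p1 < 0)

/-- `G_m`: total weight of the lists of height less than `m` -/
noncomputable def GG (ht : α → ℕ) (w : α → ℝ≥0∞) (m : ℕ) : ℝ≥0∞ :=
  ∑ n ∈ Finset.range m, Bw ht w n

/-- `V_m`: sum of the squares -/
noncomputable def VV (ht : α → ℕ) (w : α → ℝ≥0∞) (m : ℕ) : ℝ≥0∞ :=
  ∑ n ∈ Finset.range m, Bw ht w n ^ 2

/-- scales: `0, 1, 2, 4, 8, ...` -/
def sc (s : ℕ) : ℕ := if s = 0 then 0 else 2 ^ (s - 1)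

/-- size of a scale: `1, 1, 2, 4, 8, ...` -/
def sz (s : ℕ) : ℕ := 2 ^ (s - 1)

/-- size of the free piece between the first passage of scale `s` and the long atom; the top scale
is `j + 1` -/
def gs (j s : ℕ) : ℕ := if s = j + 1 then 8 * 2 ^ j else sz s

/-- middle pieces of the lists of height in `[8 * 2 ^ j, 16 * 2 ^ j)`: `s'` is the scale of the
initial piece, `s` the scale of the final piece -/
def Mid (ht : α → ℕ) (j s' s : ℕ) : Set (List α) :=
  {m | (s' = j + 1 ∧ s = j + 1 ∧ hL ht m < 16 * 2 ^ j) ∨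
    (¬ (s' = j + 1 ∧ s = j + 1) ∧ ∃ y a x, m = y ++ a :: x ∧ hL ht y < gs j s' ∧
      hL ht x < gs j s ∧ 2 ^ j ≤ ht a)}

/-- weight of the middle pieces of height `n` -/
noncomputable def Rw (ht : α → ℕ) (w : α → ℝ≥0∞) (j s' s n : ℕ) : ℝ≥0∞ :=
  wsum {m | m ∈ Mid ht j s' s ∧ hL ht m = n} (wL w)

/-- weight of the coupled pairs (first passage of scale `s'`, first passage of scale `s`) of heights
`y`, `x` -/
noncomputable def kap (ht : α → ℕ) (dx : α → ℤ) (w : α → ℝ≥0∞) (s' s y x : ℕ) : ℝ≥0∞ :=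
  wsum {p : List α × List α | p.1 ∈ Vset ht (sc s') ∧ p.2 ∈ Vset ht (sc s) ∧ hL ht p.1 = y ∧
    hL ht p.2 = x ∧ KK ht dx p.1 p.2} (w2 w)

end Abstract

/-- the bridge whose list of atoms, read from its end, is `l` -/
def bd (l : List Atom) : Wd := (flat l).reverse.map reflY

/-- lateral reflection of an atom -/
theorem irr_reflY {u : Wd} (h : Irr u) : Irr (u.map reflY) := by
  have hbr : ∀ {v : Wd}, Br v → Br (v.map reflY) := by
    intro v hv
    refine ⟨saw_reflY hv.1, ?_, ?_⟩
    · intro a b e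
      have e' : v = a.map reflY ++ b.map reflY := by
        rw [← reflY_reflY v, e]; simp
      have := hv.2.1 _ _ e'
      rwa [X_reflY] at this
    · intro a b e hb
      have e' : v = a.map reflY ++ b.map reflY := by
        rw [← reflY_reflY v, e]; simp
      have := hv.2.2 _ _ e' (by simpa using hb)
      rwa [X_reflY] at this
  refine ⟨hbr h.1, by simpa using h.2.1, ?_⟩
  intro a b e ha hb
  have e' : u = a.map reflY ++ b.map reflY := by
    rw [← reflY_reflY u, e]; simp
  have := h.2.2 _ _ e' (hbr ha) (hbr hb)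
  simpa using this

/-- lateral reflection of an atom -/
def rho (a : Atom) : Atom := ⟨a.1.map reflY, irr_reflY a.2⟩

theorem rho_rho (a : Atom) : rho (rho a) = a := Subtype.ext (reflY_reflY a.1)
theorem aht_rho (a : Atom) : aht (rho a) = aht a := by
  unfold aht rho; rw [X_reflY]
theorem adx_rho (a : Atom) : adx (rho a) = - adx a := by
  unfold adx rho; rw [Y_reflY]
theorem aw_rho (z : ℝ≥0∞) (a : Atom) : aw z (rho a) = aw z a := by
  unfold aw rho; simp

/-- weight of the half-plane words of height less than `A` which can follow the bridge of `l` -/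
noncomputable def FF (s : ℝ≥0∞) (A : ℕ) (l : List Atom) : ℝ≥0∞ :=
  Wt s {r | (∃ A' < A, r ∈ HS A') ∧ Saw (bd l ++ r.map refl)}

end Pool.Agent.BT
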