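import Mathlib

/-!
From the bounds of the dyadic blocks to the bound of the whole sum.
-/

set_option autoImplicit false

open scoped ENNReal
open Filter Topology

namespace Pool.Agent.BT

/-- one step of the sum -/
theorem opt_step (r : ℝ) (hr : 0 ≤ r) (H : ℕ → ℝ≥0∞)
    (h1 : ∀ A, 1 ≤ A → H A ≤ ENNReal.ofReal r ^ A * ∑ A' ∈ Finset.range A, H A')
    (A : ℕ) (hA : 1 ≤ A) :
    ∑ A' ∈ Finset.range (A + 1), H A' ≤
      (∑ A' ∈ Finset.range A, H A') * ENNReal.ofReal (Real.exp (r ^ A)) := by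
  rw [Finset.sum_range_succ]
  calc ∑ A' ∈ Finset.range A, H A' + H A
      ≤ ∑ A' ∈ Finset.range A, H A' + ENNReal.ofReal r ^ A * ∑ A' ∈ Finset.range A, H A' := by
        gcongr
        exact h1 A hA
    _ = (∑ A' ∈ Finset.range A, H A') * ENNReal.ofReal (1 + r ^ A) := by
        rw [ENNReal.ofReal_add zero_le_one (by positivity), ENNReal.ofReal_one,
          ENNReal.ofReal_pow hr]
        ring
    _ ≤ (∑ A' ∈ Finset.range A, H A') * ENNReal.ofReal (Real.exp (r ^ A)) := by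
        gcongr
        have := Real.add_one_le_exp (r ^ A)
        linarith

theorem opt_tail (r : ℝ) (hr : 0 ≤ r) (H : ℕ → ℝ≥0∞)
    (h1 : ∀ A, 1 ≤ A → H A ≤ ENNReal.ofReal r ^ A * ∑ A' ∈ Finset.range A, H A')
    (A0 : ℕ) (hA0 : 1 ≤ A0) (n : ℕ) (hn : A0 ≤ n) :
    ∑ A' ∈ Finset.range n, H A' ≤
      (∑ A' ∈ Finset.range A0, H A') * ENNReal.ofReal (Real.exp (∑ A ∈ Finset.Ico A0 n, r ^ A)) := by
  induction n, hn using Nat.le_induction with
  | base => simp
  | succ n hn ih =>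
    refine (opt_step r hr H h1 n (hA0.trans hn)).trans ?_
    rw [Finset.sum_Ico_succ_top hn, Real.exp_add, ENNReal.ofReal_mul (Real.exp_nonneg _), ← mul_assoc]
    gcongr

/-- the sum of the first eight terms -/
theorem opt_eight (r : ℝ) (hr : 0 ≤ r) (hr1 : r ≤ 1) (H : ℕ → ℝ≥0∞) (hH0 : H 0 ≤ 1)
    (h1 : ∀ A, 1 ≤ A → H A ≤ ENNReal.ofReal r ^ A * ∑ A' ∈ Finset.range A, H A') :
    ∑ A ∈ Finset.range 8, H A ≤ ENNReal.ofReal (Real.exp 5) := by
  have h2 : ∀ n : ℕ, ∑ A ∈ Finset.range (n + 1), H A ≤ 2 ^ n := by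
    intro n
    induction n with
    | zero => simpa using hH0
    | succ n ih =>
      rw [Finset.sum_range_succ]
      have h3 : H (n + 1) ≤ ∑ A ∈ Finset.range (n + 1), H A := by
        refine (h1 (n + 1) (by omega)).trans ?_
        have h4 : ENNReal.ofReal r ^ (n + 1) ≤ 1 := by
          refine pow_le_one₀ zero_le ?_
          rw [← ENNReal.ofReal_one]
          exact ENNReal.ofReal_le_ofReal hr1
        calc _ ≤ 1 * ∑ A' ∈ Finset.range (n + 1), H A' := by gcongr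
          _ = _ := one_mul _
      calc _ ≤ 2 ^ n + 2 ^ n := add_le_add ih (h3.trans ih)
        _ = 2 ^ (n + 1) := by ring
  refine (h2 7).trans ?_
  have h3 : (128 : ℝ) ≤ Real.exp 5 := by
    have h4 := Real.exp_one_gt_d9
    have h5 : Real.exp 5 = Real.exp 1 ^ 5 := by
      rw [← Real.exp_nat_mul]
      norm_num
    rw [h5]
    calc (128 : ℝ) ≤ 2.7 ^ 5 := by norm_num
      _ ≤ _ := by gcongr; linarith
  have h4 : ((2 : ℝ≥0∞) ^ 7) = ENNReal.ofReal 128 := by
    rw [ENNReal.ofReal_ofNat]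
    norm_num
  rw [h4]
  exact ENNReal.ofReal_le_ofReal h3

/-- from the bounds of the dyadic blocks to the bound of the whole sum -/
theorem opt_sum (i : ℕ) (t : ℝ) (ht : t = (2 * (i : ℝ) + 1) / 4 ^ i) (H : ℕ → ℝ≥0∞) (hH0 : H 0 ≤ 1)
    (h1 : ∀ A, 1 ≤ A → H A ≤ ENNReal.ofReal (Real.exp (-t)) ^ A * ∑ A' ∈ Finset.range A, H A')
    (h2 : ∀ j : ℕ, ∑ A ∈ Finset.range (16 * 2 ^ j), H A ≤ (∑ A ∈ Finset.range (8 * 2 ^ j), H A) *
      ENNReal.ofReal (Real.exp (38 * ((j : ℝ) + 2) ^ 2 * √(8 * 2 ^ j)))) :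
    ∑' A, H A ≤ ENNReal.ofReal (Real.exp (8 + 270 * (2 * (i : ℝ) + 2) ^ 2 * 2 ^ i)) := by
  have hi0 : (0 : ℝ) ≤ i := Nat.cast_nonneg i
  have ht0 : 0 < t := by
    rw [ht]
    positivity
  have ht1 : t ≤ 1 := by
    rw [ht, div_le_one (by positivity)]
    have h3 : ∀ m : ℕ, 2 * (m : ℝ) + 1 ≤ 4 ^ m := by
      intro m
      induction m with
      | zero => norm_num
      | succ m ih =>
        push_cast
        rw [pow_succ]
        have : (0 : ℝ) ≤ m := Nat.cast_nonneg m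
        nlinarith
    exact h3 i
  set r := Real.exp (-t) with hr
  have hr0 : 0 ≤ r := Real.exp_nonneg _
  have hr1 : r ≤ 1 := by
    rw [hr]
    exact Real.exp_le_one_iff.2 (by linarith)
  -- the blocks
  have h3 : ∀ m : ℕ, m ≤ i → ∑ A ∈ Finset.range (8 * 4 ^ m), H A ≤
      ENNReal.ofReal (Real.exp (5 + 260 * (2 * (i : ℝ) + 1) ^ 2 * (2 ^ m - 1))) := by
    intro m
    induction m with
    | zero =>
      intro _
      have := opt_eight r hr0 hr1 H hH0 h1
      simpa using this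
    | succ m ih =>
      intro hm
      have e1 : 8 * 4 ^ (m + 1) = 16 * 2 ^ (2 * m + 1) := by
        rw [pow_succ, pow_succ, pow_mul]
        norm_num
        ring
      have e2 : 8 * 2 ^ (2 * m + 1) = 16 * 2 ^ (2 * m) := by
        rw [pow_succ]
        ring
      have e3 : 8 * 2 ^ (2 * m) = 8 * 4 ^ m := by
        rw [pow_mul]
        norm_num
      have s1 : √(8 * 2 ^ (2 * m)) ≤ 2829 / 1000 * 2 ^ m := by
        refine Real.sqrt_le_iff.2 ⟨by positivity, ?_⟩
        have : (2 : ℝ) ^ (2 * m) = (2 ^ m) ^ 2 := by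
          rw [← pow_mul, mul_comm]
        rw [this]
        nlinarith [sq_nonneg ((2 : ℝ) ^ m)]
      have s2 : √(8 * 2 ^ (2 * m + 1)) = 4 * 2 ^ m := by
        rw [Real.sqrt_eq_iff_mul_self_eq (by positivity) (by positivity)]
        rw [pow_succ, pow_mul']
        ring
      have hmi : (m : ℝ) + 1 ≤ i := by exact_mod_cast hm
      have hm0 : (0 : ℝ) ≤ m := Nat.cast_nonneg m
      rw [e1]
      refine (h2 (2 * m + 1)).trans ?_
      rw [e2]
      have h4 := h2 (2 * m)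
      rw [e3] at h4
      have h5 := ih (by omega)
      calc _ ≤ (ENNReal.ofReal (Real.exp (5 + 260 * (2 * (i : ℝ) + 1) ^ 2 * (2 ^ m - 1))) *
            ENNReal.ofReal (Real.exp (38 * (((2 * m : ℕ) : ℝ) + 2) ^ 2 * √(8 * 2 ^ (2 * m))))) *
            ENNReal.ofReal (Real.exp (38 * (((2 * m + 1 : ℕ) : ℝ) + 2) ^ 2 * √(8 * 2 ^ (2 * m + 1)))) := by
            gcongr
            exact h4.trans (by gcongr)
        _ = ENNReal.ofReal (Real.exp ((5 + 260 * (2 * (i : ℝ) + 1) ^ 2 * (2 ^ m - 1)) +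
            38 * (((2 * m : ℕ) : ℝ) + 2) ^ 2 * √(8 * 2 ^ (2 * m)) +
            38 * (((2 * m + 1 : ℕ) : ℝ) + 2) ^ 2 * √(8 * 2 ^ (2 * m + 1)))) := by
            rw [← ENNReal.ofReal_mul (Real.exp_nonneg _), ← ENNReal.ofReal_mul (by positivity),
              ← Real.exp_add, ← Real.exp_add]
        _ ≤ _ := by
            refine ENNReal.ofReal_le_ofReal (Real.exp_le_exp.2 ?_)
            rw [s2]
            push_cast
            have q1 : (2 * (m : ℝ) + 2) ^ 2 ≤ (2 * (i : ℝ) + 1) ^ 2 := by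
              apply pow_le_pow_left₀ (by positivity)
              linarith
            have q2 : (2 * (m : ℝ) + 1 + 2) ^ 2 ≤ (2 * (i : ℝ) + 1) ^ 2 := by
              apply pow_le_pow_left₀ (by positivity)
              linarith
            have p1 : 38 * (2 * (m : ℝ) + 2) ^ 2 * √(8 * 2 ^ (2 * m)) ≤
                38 * (2 * (i : ℝ) + 1) ^ 2 * (2829 / 1000 * 2 ^ m) := by gcongr
            have p2 : 38 * (2 * (m : ℝ) + 1 + 2) ^ 2 * (4 * 2 ^ m) ≤
                38 * (2 * (i : ℝ) + 1) ^ 2 * (4 * 2 ^ m) := by gcongr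
            have p3 : 0 ≤ (2 * (i : ℝ) + 1) ^ 2 * 2 ^ m := by positivity
            have p4 : (2 : ℝ) ^ (m + 1) = 2 ^ m * 2 := pow_succ 2 m
            rw [p4]
            nlinarith
  -- the tail
  have h4 : r ^ (8 * 4 ^ i) / (1 - r) ≤ 1 := by
    have h5 : t / 2 ≤ 1 - r := by
      have h6 : r ≤ 1 / (1 + t) := by
        rw [hr, Real.exp_neg, one_div]
        apply inv_anti₀ (by linarith)
        have := Real.add_one_le_exp t
        linarith
      have h7 : 1 / (1 + t) ≤ 1 - t / 2 := by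
        rw [div_le_iff₀ (by linarith)]
        nlinarith
      linarith
    have h6 : r ^ (8 * 4 ^ i) = Real.exp (-(8 * (2 * (i : ℝ) + 1))) := by
      rw [hr, ← Real.exp_nat_mul, ht]
      congr 1
      push_cast
      field_simp
    rw [div_le_one (by linarith)]
    refine le_trans ?_ h5
    rw [h6, ht, Real.exp_neg, inv_le_iff_one_le_mul₀ (Real.exp_pos _)]
    have h7 : (2 : ℝ) * 4 ^ i ≤ Real.exp (8 * (2 * (i : ℝ) + 1)) := by
      have e : 8 * (2 * (i : ℝ) + 1) = 8 + i * 16 := by ring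
      rw [e, Real.exp_add, Real.exp_nat_mul]
      have h8 : (2 : ℝ) ≤ Real.exp 8 := by
        have := Real.add_one_le_exp (8 : ℝ)
        linarith
      have h9 : (4 : ℝ) ≤ Real.exp 16 := by
        have := Real.add_one_le_exp (16 : ℝ)
        linarith
      gcongr
    calc (1 : ℝ) ≤ (2 * (i : ℝ) + 1) := by linarith
      _ = (2 * (i : ℝ) + 1) / 4 ^ i / 2 * (2 * 4 ^ i) := by field_simp
      _ ≤ _ := by gcongr
  have hr2 : r < 1 := by
    rw [hr]
    rw [← Real.exp_zero]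
    exact Real.exp_lt_exp.2 (by linarith)
  have h5 : ∀ n, ∑ A ∈ Finset.range n, H A ≤
      ENNReal.ofReal (Real.exp (8 + 270 * (2 * (i : ℝ) + 2) ^ 2 * 2 ^ i)) := by
    intro n
    have h6 : ∑ A ∈ Finset.range n, H A ≤ ∑ A ∈ Finset.range (max n (8 * 4 ^ i)), H A :=
      Finset.sum_le_sum_of_subset (Finset.range_mono (le_max_left _ _))
    refine h6.trans ((opt_tail r hr0 H h1 (8 * 4 ^ i) (by
      have : 0 < 4 ^ i := by positivity
      omega) _ (le_max_right _ _)).trans ?_)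
    calc _ ≤ ENNReal.ofReal (Real.exp (5 + 260 * (2 * (i : ℝ) + 1) ^ 2 * (2 ^ i - 1))) *
          ENNReal.ofReal (Real.exp 1) := by
          gcongr
          · exact h3 i le_rfl
          · exact (geom_sum_Ico_le_of_lt_one hr0 hr2).trans h4
      _ = ENNReal.ofReal (Real.exp (5 + 260 * (2 * (i : ℝ) + 1) ^ 2 * (2 ^ i - 1) + 1)) := by
          rw [← ENNReal.ofReal_mul (Real.exp_nonneg _), ← Real.exp_add]
      _ ≤ _ := by
          refine ENNReal.ofReal_le_ofReal (Real.exp_le_exp.2 ?_)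
          have p1 : (2 * (i : ℝ) + 1) ^ 2 ≤ (2 * (i : ℝ) + 2) ^ 2 := by
            apply pow_le_pow_left₀ (by positivity)
            linarith
          have p2 : (0 : ℝ) < 2 ^ i := by positivity
          have p3 : (2 * (i : ℝ) + 1) ^ 2 * 2 ^ i ≤ (2 * (i : ℝ) + 2) ^ 2 * 2 ^ i := by gcongr
          have p4 : 0 ≤ (2 * (i : ℝ) + 1) ^ 2 := by positivity
          nlinarith
  rw [ENNReal.tsum_eq_iSup_nat]
  exact iSup_le h5

end Pool.Agent.BT
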