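import Pool.Agent.BT.Turn
import Pool.Agent.BB.HW

set_option autoImplicit false

open scoped ENNReal
open Filter Topology Pool.Agent.SawTree Pool.Agent.BB

namespace Pool.Agent.BT

/-- comparison of a weighted sum with an iterated one -/
theorem wsum_le_iter {β γ δ : Type} {S : Set β} {T : Set γ} (U : γ → Set δ) {f : β → ℝ≥0∞}
    (g : γ → ℝ≥0∞) (h : δ → ℝ≥0∞) (F : γ → δ → β)
    (H : ∀ x ∈ S, ∃ c ∈ T, ∃ d ∈ U c, x = F c d ∧ f x ≤ g c * h d) :
    wsum S f ≤ wsum T (fun c => g c * wsum (U c) h) := by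
  choose c hc d hd hx hf using H
  unfold wsum
  have e : ∑' t : T, g (t : γ) * ∑' u : U (t : γ), h (u : δ)
      = ∑' p : (Σ t : T, U (t : γ)), g (p.1 : γ) * h (p.2 : δ) := by
    rw [ENNReal.tsum_sigma (fun (t : T) (u : U (t : γ)) => g (t : γ) * h (u : δ))]
    congr 1
    funext t
    exact ENNReal.tsum_mul_left.symm
  rw [e]
  let ψ : S → (Σ t : T, U (t : γ)) := fun x => ⟨⟨c x x.2, hc x x.2⟩, ⟨d x x.2, hd x x.2⟩⟩
  have hψ : Function.Injective ψ := by
    intro x y hxy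
    apply Subtype.ext
    have h3 := congrArg (fun p : (Σ t : T, U (t : γ)) => F (p.1 : γ) (p.2 : δ)) hxy
    have h4 : F (c x x.2) (d x x.2) = F (c y y.2) (d y y.2) := h3
    exact ((hx x x.2).trans h4).trans (hx y y.2).symm
  calc ∑' x : S, f (x : β) ≤ ∑' x : S, g ((ψ x).1 : γ) * h ((ψ x).2 : δ) :=
        ENNReal.tsum_le_tsum (fun x => hf x x.2)
    _ ≤ ∑' p : (Σ t : T, U (t : γ)), g (p.1 : γ) * h (p.2 : δ) :=
        ENNReal.tsum_comp_le_tsum_of_injective hψ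
          (fun p : (Σ t : T, U (t : γ)) => g (p.1 : γ) * h (p.2 : δ))

theorem FF_eq (s : ℝ≥0∞) (A : ℕ) (l : List Atom) :
    FF s A l = wsum {r | (∃ A' < A, r ∈ HS A') ∧ Saw (bd l ++ r.map refl)}
      (fun u => s ^ u.length) := rfl

/-- weight of the word against the weights of its first bridge and of the rest -/
theorem pow_cut (z e : ℝ≥0∞) (he : e ≤ 1) (l' : List Atom) (r2 : Wd) :
    (z * e) ^ (bd l' ++ r2.map refl).length ≤ wL (aw z) l' * (z * e) ^ r2.length := by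
  rw [List.length_append, List.length_map, pow_add, bd_length z l']
  have h1 : z * e ≤ z := by
    calc z * e ≤ z * 1 := by gcongr
      _ = z := mul_one z
  gcongr

theorem FF_rec (z e : ℝ≥0∞) (he : e ≤ 1) (L A : ℕ) (hL1 : 1 ≤ L) (l : List Atom)
    (hAl : A ≤ hL aht l) :
    FF (z * e) A l ≤ (∑ A' ∈ Finset.range L, Wt (z * e) (HS A')) +
      ∑ A' ∈ Finset.Ico L A, wsum {l' | hL aht l' = A' ∧ KK aht adx l l'.reverse}
        (fun l' => wL (aw z) l' * FF (z * e) A' l') := by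
  have h1 : FF (z * e) A l ≤
      wsum ({r : Wd | ∃ A' ∈ Finset.range L, r ∈ HS A'} ∪
        {r : Wd | ∃ A' ∈ Finset.Ico L A, r ∈ {r : Wd | r ∈ HS A' ∧ Saw (bd l ++ r.map refl)}})
        (fun u => (z * e) ^ u.length) := by
    rw [FF_eq]
    apply wsum_mono _ (fun _ _ => le_rfl)
    rintro r ⟨⟨A', hA', hr⟩, hS⟩
    by_cases h : A' < L
    · left
      exact ⟨A', Finset.mem_range.mpr h, hr⟩
    · right
      exact ⟨A', Finset.mem_Ico.mpr ⟨by omega, hA'⟩, hr, hS⟩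
  refine le_trans h1 (le_trans (wsum_union_le _ _ _) (add_le_add ?_ ?_))
  · exact wsum_biUnion_le (Finset.range L) (fun A' => HS A') _
  · refine le_trans (wsum_biUnion_le (Finset.Ico L A)
      (fun A' => {r : Wd | r ∈ HS A' ∧ Saw (bd l ++ r.map refl)}) _) ?_
    apply Finset.sum_le_sum
    intro A' hA'
    rw [Finset.mem_Ico] at hA'
    have h2 : (fun l' => wL (aw z) l' * FF (z * e) A' l')
        = fun l' => wL (aw z) l' * wsum {r | (∃ A'' < A', r ∈ HS A'') ∧ Saw (bd l' ++ r.map refl)}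
          (fun u => (z * e) ^ u.length) := rfl
    rw [h2]
    apply wsum_le_iter (fun l' => {r | (∃ A'' < A', r ∈ HS A'') ∧ Saw (bd l' ++ r.map refl)})
      (wL (aw z)) (fun u => (z * e) ^ u.length) (fun l' r => bd l' ++ r.map refl)
    rintro r ⟨hr, hS⟩
    obtain ⟨b, r2, e1, hb, A'', hA'', hr2⟩ := exists_cut (by omega) hr
    obtain ⟨l', hl', hh⟩ := exists_bd hb
    subst hl'
    refine ⟨l', ⟨hh, ?_⟩, r2, ⟨⟨A'', hA'', hr2⟩, ?_⟩, e1, ?_⟩
    · apply KK_of_saw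
      · omega
      · apply hS.left (b := r2)
        rw [e1, List.map_append, refl_refl, List.append_assoc]
    · rw [← e1]
      exact hr.1
    · rw [e1]
      exact pow_cut z e he l' r2

theorem HS_rec (z e : ℝ≥0∞) (he : e ≤ 1) (L K : ℕ) (hL1 : 1 ≤ L) (hLK : L ≤ K) :
    ∑ A' ∈ Finset.range K, Wt (z * e) (HS A') ≤ (∑ A' ∈ Finset.range L, Wt (z * e) (HS A')) +
      ∑ A' ∈ Finset.Ico L K, wsum {l' | hL aht l' = A'}
        (fun l' => wL (aw z) l' * FF (z * e) A' l') := by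
  rw [← Finset.sum_range_add_sum_Ico (fun A' => Wt (z * e) (HS A')) hLK]
  refine add_le_add le_rfl (Finset.sum_le_sum ?_)
  intro A' hA'
  rw [Finset.mem_Ico] at hA'
  have h2 : (fun l' => wL (aw z) l' * FF (z * e) A' l')
      = fun l' => wL (aw z) l' * wsum {r | (∃ A'' < A', r ∈ HS A'') ∧ Saw (bd l' ++ r.map refl)}
        (fun u => (z * e) ^ u.length) := rfl
  rw [h2, Wt_eq_wsum]
  apply wsum_le_iter (fun l' => {r | (∃ A'' < A', r ∈ HS A'') ∧ Saw (bd l' ++ r.map refl)})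
    (wL (aw z)) (fun u => (z * e) ^ u.length) (fun l' r => bd l' ++ r.map refl)
  intro r hr
  obtain ⟨b, r2, e1, hb, A'', hA'', hr2⟩ := exists_cut (by omega) hr
  obtain ⟨l', hl', hh⟩ := exists_bd hb
  subst hl'
  refine ⟨l', hh, r2, ⟨⟨A'', hA'', hr2⟩, ?_⟩, e1, ?_⟩
  · rw [← e1]
    exact hr.1
  · rw [e1]
    exact pow_cut z e he l' r2

end Pool.Agent.BT
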