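import Pool.Agent.BB.Order

set_option autoImplicit false

open scoped ENNReal
open Filter Topology Pool.Agent.SawTree Pool.Agent.BB

namespace Pool.Agent.BT

/-- Planar order lemma in the closed strip: `p` stays at height `≥ 0` and reaches `h` only at its
end, `q` leaves the height `0` for ever with its first step and stays at height `≤ h`. -/
theorem order_closed (p q : Wd) (h : ℤ) (hh : 0 < h) (a b : ℤ) (hab : a < b)
    (hp : PreNN p) (hp' : SufPos p) (hXp : X p = h)
    (hq : ∀ u v, q = u ++ v → u ≠ [] → 0 < X u) (hq' : ∀ u v, q = u ++ v → X u ≤ h) (hXq : X q = h)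
    (hdis : ∀ u u' v v' : Wd, p = u ++ u' → q = v ++ v' → ¬ (X u = X v ∧ a + Y u = b + Y v)) :
    a + Y p < b + Y q := by
  -- the points of `p` are avoided by `q`
  have hav : ∀ u u' : Wd, p = u ++ u' → Avd (X u) (a + Y u) 0 b q := by
    intro u u' e v v' e' hc
    exact hdis u u' v v' e e' ⟨by omega, hc.2.symm⟩
  have hqlow : ∀ v v' : Wd, q = v ++ v' → 0 ≤ X v := by
    intro v v' e
    by_cases hv : v = []
    · rw [hv]; simp
    · exact (hq v v' e hv).le
  have hqhigh : ∀ v v' : Wd, q = v ++ v' → X v ≤ h := fun v v' e => hq' v v' e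
  have hplow : ∀ u u' : Wd, p = u ++ u' → 0 ≤ X u := fun u u' e => hp u u' e
  have hphigh : ∀ u u' : Wd, p = u ++ u' → u' ≠ [] → X u < h := by
    intro u u' e hu
    have := hp' u u' e hu
    have h2 : X p = X u + X u' := by rw [e, X_append]
    omega
  have hneg : ∀ x : ℤ, crs x (-1) 0 b q = 0 := by
    intro x
    apply crs_zero (-1) (-1) x (Or.inl rfl) q 0 b
    intro v v' e
    have := hqlow v v' e
    omega
  have hpos : ∀ x : ℤ, crs x h 0 b q = 0 := by
    intro x
    apply crs_zero (h + 1) h x (Or.inr (by ring)) q 0 b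
    intro v v' e
    have := hqhigh v v' e
    omega
  have key : ∀ u : Wd, ∀ u' : Wd, p = u ++ u' → u' ≠ [] → crs (a + Y u) (X u) 0 b q = 1 := by
    intro u
    induction u using List.reverseRecOn with
    | nil =>
      intro u' e hu
      have h1 := crs_tel (X ([] : Wd)) (a + Y ([] : Wd)) q 0 b (hav [] u' e)
      simp only [X_nil, Y_nil, add_zero, zero_sub, zero_add] at h1 ⊢
      rw [hneg, zero_add, hXq] at h1
      rw [h1]
      unfold hfl
      have h2 : ¬ (h = 0) := by omega
      simp [hab, h2]
    | append_singleton u s ih =>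
      intro u' e hu
      have e0 : p = u ++ (s :: u') := by rw [e]; simp
      have h0 := ih (s :: u') e0 (by simp)
      have hX1 := hplow _ _ e
      have hX2 := hphigh _ _ e hu
      have hX3 := hplow _ _ e0
      have hX4 := hphigh _ _ e0 (by simp)
      have a1 := hav _ _ e
      have a2 := hav _ _ e0
      rw [X_append] at hX1 hX2
      have hs : X [s] = vx s := by simp [X]
      have hs' : Y [s] = vy s := by simp [Y]
      rw [X_append, Y_append, hs, hs'] at a1
      rw [hs] at hX1 hX2
      rw [X_append, Y_append, hs, hs']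
      have hcase : s = 0 ∨ s = 1 ∨ s = 2 ∨ s = 3 := by
        fin_cases s <;> simp
      rcases hcase with rfl | rfl | rfl | rfl
      · have v1 : vx 0 = 1 := rfl
        have v2 : vy 0 = 0 := rfl
        simp only [v1, v2, add_zero] at a1 hX1 hX2 ⊢
        have h1 := crs_tel (X u + 1) (a + Y u) q 0 b a1
        rw [add_sub_cancel_right] at h1
        rw [h0] at h1
        have hz : hfl (X u + 1) (a + Y u) 0 b + hfl (X u + 1) (a + Y u) (0 + X q) (b + Y q) = 0 := by
          unfold hfl
          have n1 : ¬ ((0 : ℤ) = X u + 1) := by omega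
          have n2 : ¬ (0 + X q = X u + 1) := by omega
          rw [if_neg (fun t => n1 t.1), if_neg (fun t => n2 t.1), add_zero]
        rw [hz] at h1
        have h5 := (CharTwo.add_eq_zero).mp h1
        exact h5.symm
      · have v1 : vx 1 = -1 := rfl
        have v2 : vy 1 = 0 := rfl
        simp only [v1, v2, add_zero] at a1 hX1 hX2 ⊢
        have h1 := crs_tel (X u) (a + Y u) q 0 b a2
        have hz : hfl (X u) (a + Y u) 0 b + hfl (X u) (a + Y u) (0 + X q) (b + Y q) = 0 := by
          unfold hfl
          have n1 : ¬ ((0 : ℤ) = X u) := by omega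
          have n2 : ¬ (0 + X q = X u) := by omega
          rw [if_neg (fun t => n1 t.1), if_neg (fun t => n2 t.1), add_zero]
        rw [hz, h0] at h1
        have h5 := (CharTwo.add_eq_zero).mp h1
        rw [← sub_eq_add_neg]
        exact h5
      · have v1 : vx 2 = 0 := rfl
        have v2 : vy 2 = 1 := rfl
        simp only [v1, v2, add_zero] at a1 hX1 hX2 ⊢
        have e3 : a + (Y u + 1) = a + Y u + 1 := by ring
        rw [e3] at a1 ⊢
        rw [← crs_lat (X u) (a + Y u) q 0 b a1]
        exact h0
      · have v1 : vx 3 = 0 := rfl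
        have v2 : vy 3 = -1 := rfl
        simp only [v1, v2, add_zero] at a1 hX1 hX2 ⊢
        have e3 : a + (Y u + -1) = a + Y u - 1 := by ring
        rw [e3]
        have e4 : a + Y u = (a + Y u - 1) + 1 := by ring
        rw [e4] at a2
        rw [crs_lat (X u) (a + Y u - 1) q 0 b a2, ← e4]
        exact h0
  -- the last step
  have hne : p ≠ [] := by
    intro e
    rw [e] at hXp
    simp at hXp
    omega
  obtain ⟨u, s, e⟩ : ∃ u s, p = u ++ [s] :=
    ⟨p.dropLast, p.getLast hne, (List.dropLast_append_getLast hne).symm⟩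
  have h1 := key u [s] e (by simp)
  have h2 := hp' u [s] e (by simp)
  have hs : X [s] = vx s := by simp [X]
  have hs' : Y [s] = vy s := by simp [Y]
  rw [hs] at h2
  have hs0 : s = 0 := by
    fin_cases s <;> simp_all [vx]
  have hXu : X p = X u + vx s := by rw [e, X_append, hs]
  have hYu : Y p = Y u + vy s := by rw [e, Y_append, hs']
  rw [hs0] at hXu hYu
  have v1 : vx 0 = 1 := rfl
  have v2 : vy 0 = 0 := rfl
  rw [v1] at hXu
  rw [v2, add_zero] at hYu
  have h3 := crs_tel (X p) (a + Y p) q 0 b (hav p [] (by simp))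
  rw [hYu] at h3 ⊢
  have e5 : X p - 1 = X u := by omega
  rw [e5, h1, hXp, hpos, add_zero, hXq] at h3
  by_contra hcon
  have hz : hfl h (a + Y u) 0 b + hfl h (a + Y u) (0 + h) (b + Y q) = 0 := by
    unfold hfl
    have n1 : ¬ ((0 : ℤ) = h) := by omega
    simp [n1, hcon]
  rw [hz] at h3
  exact one_ne_zero h3

end Pool.Agent.BT
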