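import Pool.Agent.BB.DefsJ
import Pool.Agent.BB.Wsum
import Pool.Agent.BB.Window
import Pool.Agent.BB.Insertion
import Pool.Agent.BB.Argmin

/-!
Kraft inequality for pairs of lists, and the mass of the pairs of lists whose difference of
abscissae has a constant sign at all the common splits of height in `(0, m)`.
-/

set_option autoImplicit false

open scoped ENNReal
open Filter Topology Pool.Agent.SawTree Pool.Agent.BB

namespace Pool.Agent.BT

section Trunc
variable {β : Type}

lemma wsum_le_of_trunc (len : β → ℕ) (S : Set β) (f : β → ℝ≥0∞) (c : ℝ≥0∞)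
    (h : ∀ n, wsum {x | x ∈ S ∧ len x ≤ n} f ≤ c) : wsum S f ≤ c := by
  classical
  unfold wsum
  rw [ENNReal.tsum_eq_iSup_sum]
  refine iSup_le fun s => ?_
  refine le_trans ?_ (h (s.sup fun x => len (x : β)))
  rw [← Finset.tsum_subtype s (fun x : S => f (x : β))]
  unfold wsum
  let ψ : {x // x ∈ s} → {x | x ∈ S ∧ len x ≤ s.sup fun x => len (x : β)} := fun x =>
    ⟨(x.1 : β), x.1.2, Finset.le_sup (f := fun x : S => len (x : β)) x.2⟩
  have hψ : Function.Injective ψ := by
    intro x y hxy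
    apply Subtype.ext
    apply Subtype.ext
    exact congrArg (fun t : {x | x ∈ S ∧ len x ≤ s.sup fun x => len (x : β)} => (t : β)) hxy
  exact ENNReal.tsum_comp_le_tsum_of_injective hψ
    (fun y : {x | x ∈ S ∧ len x ≤ s.sup fun x => len (x : β)} => f (y : β))

lemma wsum_singleton_le (x : β) (f : β → ℝ≥0∞) : wsum {x} f = f x := by
  unfold wsum
  rw [tsum_eq_single ⟨x, rfl⟩]
  intro b hb
  exact absurd (Subtype.ext (Set.mem_singleton_iff.mp b.2)) hb

end Trunc

section Abstract
variable {α : Type} (ht : α → ℕ) (dx : α → ℤ) (w : α → ℝ≥0∞)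

/-- one of the two lists is an initial part of the other one -/
def Cmp (a b : List α) : Prop := a <+: b ∨ b <+: a

lemma Cmp.cons {a b : List α} (x : α) (h : Cmp a b) : Cmp (x :: a) (x :: b) := by
  rcases h with h | h
  · exact Or.inl ((List.prefix_cons_inj x).2 h)
  · exact Or.inr ((List.prefix_cons_inj x).2 h)

lemma cmp_nil (a : List α) : Cmp a [] := Or.inr (List.nil_prefix)

lemma nil_cmp (a : List α) : Cmp [] a := Or.inl (List.nil_prefix)

lemma cmp_refl (a : List α) : Cmp a a := Or.inl (List.prefix_refl a)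

lemma wL_nil : wL w ([] : List α) = 1 := by simp [wL]

/-- splitting a set of lists according to the first element -/
lemma wsum_lists_le (S : Set (List α)) :
    wsum S (wL w) ≤ wsum {l | l ∈ S ∧ l = []} (wL w) +
      ∑' x : α, w x * wsum {l | x :: l ∈ S} (wL w) := by
  classical
  have h1 : wsum S (wL w) ≤ wsum {l | l ∈ S ∧ l = []} (wL w) + wsum {l | l ∈ S ∧ l ≠ []} (wL w) := by
    refine le_trans ?_ (wsum_union_le _ _ _)
    apply wsum_mono _ (fun _ _ => le_rfl)
    intro l hl
    by_cases h : l = []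
    · exact Or.inl ⟨hl, h⟩
    · exact Or.inr ⟨hl, h⟩
  refine h1.trans (add_le_add le_rfl ?_)
  have h2 : ∑' x : α, w x * wsum {l | x :: l ∈ S} (wL w) =
      wsum {p : α × List α | p.2 ∈ {l | p.1 :: l ∈ S}} (fun p => w p.1 * wL w p.2) := by
    rw [wsum_sigma' (fun x : α => {l | x :: l ∈ S}) (fun x l => w x * wL w l)]
    refine tsum_congr fun x => ?_
    rw [wsum_mul_left]
  rw [h2]
  by_cases hα : Nonempty α
  · obtain ⟨a0⟩ := hα
    apply wsum_le_of_injOn (fun l : List α => (l.headD a0, l.tail))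
    · rintro l ⟨hl, hn⟩
      cases l with
      | nil => exact absurd rfl hn
      | cons a l => exact hl
    · rintro l ⟨hl, hn⟩ l' ⟨hl', hn'⟩ he
      cases l with
      | nil => exact absurd rfl hn
      | cons a l =>
        cases l' with
        | nil => exact absurd rfl hn'
        | cons a' l' =>
          simp only [List.headD_cons, List.tail_cons, Prod.mk.injEq] at he
          rw [he.1, he.2]
    · rintro l ⟨hl, hn⟩
      cases l with
      | nil => exact absurd rfl hn
      | cons a l =>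
        rw [win_wL_cons]
        exact le_rfl
  · have : {l | l ∈ S ∧ l ≠ []} = (∅ : Set (List α)) := by
      rw [Set.eq_empty_iff_forall_notMem]
      rintro l ⟨hl, hn⟩
      cases l with
      | nil => exact absurd rfl hn
      | cons a l => exact hα ⟨a⟩
    rw [this]
    unfold wsum
    simp

/-- Kraft inequality for sets of pairwise incomparable lists -/
theorem kraft_one (hw : ∑' a, w a ≤ 1) (S : Set (List α))
    (hS : ∀ a ∈ S, ∀ b ∈ S, Cmp a b → a = b) : wsum S (wL w) ≤ 1 := by
  have key : ∀ n : ℕ, ∀ S : Set (List α), (∀ a ∈ S, a.length ≤ n) →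
      (∀ a ∈ S, ∀ b ∈ S, Cmp a b → a = b) → wsum S (wL w) ≤ 1 := by
    intro n
    induction n with
    | zero =>
      intro S hlen _
      calc wsum S (wL w) ≤ wsum {([] : List α)} (wL w) := by
            apply wsum_mono _ (fun _ _ => le_rfl)
            intro a ha
            exact List.length_eq_zero_iff.1 (Nat.le_zero.1 (hlen a ha))
        _ = 1 := by rw [wsum_singleton_le, wL_nil]
    | succ n ih =>
      intro S hlen hS
      by_cases h0 : ([] : List α) ∈ S
      · calc wsum S (wL w) ≤ wsum {([] : List α)} (wL w) := by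
              apply wsum_mono _ (fun _ _ => le_rfl)
              intro a ha
              exact hS a ha [] h0 (cmp_nil a)
          _ = 1 := by rw [wsum_singleton_le, wL_nil]
      · refine (wsum_lists_le w S).trans ?_
        have h1 : wsum {l | l ∈ S ∧ l = []} (wL w) = 0 := by
          have : {l | l ∈ S ∧ l = []} = (∅ : Set (List α)) := by
            rw [Set.eq_empty_iff_forall_notMem]
            rintro l ⟨hl, rfl⟩
            exact h0 hl
          rw [this]
          unfold wsum
          simp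
        rw [h1, zero_add]
        refine le_trans (ENNReal.tsum_le_tsum fun x => ?_) hw
        calc w x * wsum {l | x :: l ∈ S} (wL w) ≤ w x * 1 := by
              refine mul_le_mul' le_rfl (ih _ ?_ ?_)
              · intro a ha
                have := hlen _ ha
                simpa using this
              · intro a ha b hb hc
                exact (List.cons.inj (hS _ ha _ hb (hc.cons x))).2
          _ = w x := mul_one _
  refine wsum_le_of_trunc List.length S _ 1 fun n => ?_
  exact key n _ (fun a ha => ha.2) (fun a ha b hb hc => hS a ha.1 b hb.1 hc)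

/-- splitting a set of pairs according to the first element of the second list -/
lemma wsum_pairs_le (S : Set (List α × List α)) :
    wsum S (w2 w) ≤ wsum {l | (l, []) ∈ S} (wL w) +
      ∑' x : α, w x * wsum {p : List α × List α | (p.1, x :: p.2) ∈ S} (w2 w) := by
  classical
  have h1 : wsum S (w2 w) ≤ wsum {p | p ∈ S ∧ p.2 = []} (w2 w) +
      wsum {p | p ∈ S ∧ p.2 ≠ []} (w2 w) := by
    refine le_trans ?_ (wsum_union_le _ _ _)
    apply wsum_mono _ (fun _ _ => le_rfl)
    intro l hl
    by_cases h : l.2 = []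
    · exact Or.inl ⟨hl, h⟩
    · exact Or.inr ⟨hl, h⟩
  refine h1.trans (add_le_add ?_ ?_)
  · apply wsum_le_of_injOn Prod.fst
    · rintro ⟨a, b⟩ ⟨h, h'⟩
      dsimp only at h'
      subst h'
      exact h
    · rintro ⟨a, b⟩ ⟨_, h⟩ ⟨a', b'⟩ ⟨_, h'⟩ he
      dsimp only at h h' he
      rw [h, h', he]
    · rintro ⟨a, b⟩ ⟨_, h⟩
      dsimp only at h
      simp [w2, h, wL_nil]
  have h2 : ∑' x : α, w x * wsum {p : List α × List α | (p.1, x :: p.2) ∈ S} (w2 w) =
      wsum {p : α × (List α × List α) | p.2 ∈ {q : List α × List α | (q.1, p.1 :: q.2) ∈ S}}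
        (fun p => w p.1 * w2 w p.2) := by
    rw [wsum_sigma' (fun x : α => {q : List α × List α | (q.1, x :: q.2) ∈ S})
      (fun x q => w x * w2 w q)]
    refine tsum_congr fun x => ?_
    rw [wsum_mul_left]
  rw [h2]
  by_cases hα : Nonempty α
  · obtain ⟨a0⟩ := hα
    apply wsum_le_of_injOn (fun p : List α × List α => (p.2.headD a0, (p.1, p.2.tail)))
    · rintro ⟨a, l⟩ ⟨hl, hn⟩
      cases l with
      | nil => exact absurd rfl hn
      | cons x l => exact hl
    · rintro ⟨a, l⟩ ⟨hl, hn⟩ ⟨a', l'⟩ ⟨hl', hn'⟩ he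
      cases l with
      | nil => exact absurd rfl hn
      | cons x l =>
        cases l' with
        | nil => exact absurd rfl hn'
        | cons x' l' =>
          simp only [List.headD_cons, List.tail_cons, Prod.mk.injEq] at he
          rw [he.1, he.2.1, he.2.2]
    · rintro ⟨a, l⟩ ⟨hl, hn⟩
      cases l with
      | nil => exact absurd rfl hn
      | cons x l =>
        simp only [w2, win_wL_cons, List.headD_cons, List.tail_cons]
        exact le_of_eq (by ring)
  · have : {p : List α × List α | p ∈ S ∧ p.2 ≠ []} = (∅ : Set (List α × List α)) := by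
      rw [Set.eq_empty_iff_forall_notMem]
      rintro ⟨a, l⟩ ⟨hl, hn⟩
      cases l with
      | nil => exact absurd rfl hn
      | cons a l => exact hα ⟨a⟩
    rw [this]
    unfold wsum
    simp

/-- Kraft inequality for sets of pairs of lists -/
theorem kraft_pair (hw : ∑' a, w a ≤ 1) (S : Set (List α × List α))
    (hS : ∀ a ∈ S, ∀ b ∈ S, Cmp a.1 b.1 → Cmp a.2 b.2 → a = b) : wsum S (w2 w) ≤ 1 := by
  have key : ∀ n : ℕ, ∀ S : Set (List α × List α), (∀ a ∈ S, a.2.length ≤ n) →
      (∀ a ∈ S, ∀ b ∈ S, Cmp a.1 b.1 → Cmp a.2 b.2 → a = b) → wsum S (w2 w) ≤ 1 := by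
    intro n
    induction n with
    | zero =>
      intro S hlen hS
      refine le_trans ?_ (kraft_one w hw {l | (l, []) ∈ S} ?_)
      · apply wsum_le_of_injOn Prod.fst
        · rintro ⟨a, b⟩ h
          have hb : b = [] := List.length_eq_zero_iff.1 (Nat.le_zero.1 (hlen _ h))
          subst hb
          exact h
        · rintro ⟨a, b⟩ h ⟨a', b'⟩ h' he
          have hb : b = [] := List.length_eq_zero_iff.1 (Nat.le_zero.1 (hlen _ h))
          have hb' : b' = [] := List.length_eq_zero_iff.1 (Nat.le_zero.1 (hlen _ h'))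
          dsimp only at he
          rw [hb, hb', he]
        · rintro ⟨a, b⟩ h
          have hb : b = [] := List.length_eq_zero_iff.1 (Nat.le_zero.1 (hlen _ h))
          simp [w2, hb, wL_nil]
      · intro a ha b hb hc
        exact congrArg Prod.fst (hS _ ha _ hb hc (cmp_refl []))
    | succ n ih =>
      intro S hlen hS
      set K0 := wsum {l | (l, []) ∈ S} (wL w) with hK0
      have hpf : ∀ a ∈ {l | (l, []) ∈ S}, ∀ b ∈ {l | (l, []) ∈ S}, Cmp a b → a = b :=
        fun a ha b hb hc => congrArg Prod.fst (hS _ ha _ hb hc (cmp_refl []))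
      have hK01 : K0 ≤ 1 := kraft_one w hw _ hpf
      have hx : ∀ x : α, K0 + wsum {p : List α × List α | (p.1, x :: p.2) ∈ S} (w2 w) ≤ 1 := by
        intro x
        set T : Fin 2 → Set (List α × List α) := ![{p | p.2 = [] ∧ (p.1, []) ∈ S},
          {p | (p.1, x :: p.2) ∈ S}] with hT
        have h1 : ∑ i ∈ (Finset.univ : Finset (Fin 2)), wsum (T i) (w2 w) ≤
            wsum {p : List α × List α | (p.2 = [] ∧ (p.1, []) ∈ S) ∨ (p.1, x :: p.2) ∈ S}
              (w2 w) := by
          apply sum_wsum_le_of_disj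
          · intro i _ p hp
            fin_cases i
            · exact Or.inl hp
            · exact Or.inr hp
          · intro i _ j _ p hp hp'
            fin_cases i <;> fin_cases j
            · rfl
            · exfalso
              obtain ⟨h2, h3⟩ := hp
              have h4 : (p.1, x :: p.2) ∈ S := hp'
              have := hS _ h3 _ h4 (cmp_refl _) (nil_cmp _)
              simp at this
            · exfalso
              obtain ⟨h2, h3⟩ := hp'
              have h4 : (p.1, x :: p.2) ∈ S := hp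
              have := hS _ h3 _ h4 (cmp_refl _) (nil_cmp _)
              simp at this
            · rfl
        rw [Fin.sum_univ_two] at h1
        have h2 : K0 ≤ wsum (T 0) (w2 w) := by
          apply wsum_le_of_injOn (fun l : List α => (l, ([] : List α)))
          · intro l hl
            exact ⟨rfl, hl⟩
          · intro l _ l' _ he
            exact congrArg Prod.fst he
          · intro l _
            simp [w2, wL_nil]
        have h3 : wsum {p : List α × List α | (p.1, x :: p.2) ∈ S} (w2 w) = wsum (T 1) (w2 w) := rfl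
        rw [h3]
        refine (add_le_add h2 le_rfl).trans (h1.trans (ih _ ?_ ?_))
        · rintro ⟨a, b⟩ (⟨hb, _⟩ | hp)
          · dsimp only at hb
            simp [hb]
          · have := hlen _ hp
            simpa using this
        · rintro ⟨a, b⟩ hp ⟨a', b'⟩ hp' hc hc'
          dsimp only at hc hc'
          rcases hp with ⟨hb, hp⟩ | hp <;> rcases hp' with ⟨hb', hp'⟩ | hp'
          · dsimp only at hb hb' hp hp'
            have := hS _ hp _ hp' hc (cmp_refl _)
            rw [hb, hb']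
            exact Prod.ext (congrArg Prod.fst this) rfl
          · exfalso
            have := hS _ hp _ hp' hc (nil_cmp _)
            simp at this
          · exfalso
            have := hS _ hp _ hp' hc (cmp_nil _)
            simp at this
          · have := hS _ hp _ hp' hc (hc'.cons x)
            simp only [Prod.mk.injEq, List.cons.injEq, true_and] at this
            exact Prod.ext this.1 this.2
      refine (wsum_pairs_le w S).trans ?_
      have hx' : ∀ x : α, wsum {p : List α × List α | (p.1, x :: p.2) ∈ S} (w2 w) ≤ 1 - K0 :=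
        fun x => ENNReal.le_sub_of_add_le_left (ne_top_of_le_ne_top ENNReal.one_ne_top hK01) (hx x)
      calc K0 + ∑' x : α, w x * wsum {p : List α × List α | (p.1, x :: p.2) ∈ S} (w2 w)
          ≤ K0 + ∑' x : α, w x * (1 - K0) := by
            gcongr with x
            exact hx' x
        _ = K0 + (∑' x : α, w x) * (1 - K0) := by rw [ENNReal.tsum_mul_right]
        _ ≤ K0 + 1 * (1 - K0) := by gcongr
        _ = 1 := by rw [one_mul]; exact add_tsub_cancel_of_le hK01
  refine wsum_le_of_trunc (fun p => p.2.length) S _ 1 fun n => ?_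
  exact key n _ (fun a ha => ha.2) (fun a ha b hb hc => hS a ha.1 b hb.1 hc)

/-- pairs of first passages such that the second list is strictly on the right at all the common
splits of height in `(0, m)` -/
def Pset (m m1 m2 : ℕ) : Set (List α × List α) :=
  {p | p.1 ∈ Vset ht m1 ∧ p.2 ∈ Vset ht m2 ∧
    ∀ q1 r1 q2 r2, p.1 = q1 ++ r1 → p.2 = q2 ++ r2 → hL ht q1 = hL ht q2 → 0 < hL ht q1 →
      hL ht q1 < m → xL dx q1 < xL dx q2}

lemma Vset_cmp {m : ℕ} {a b : List α} (ha : a ∈ Vset ht m) (hb : b ∈ Vset ht m) (h : Cmp a b) :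
    a = b := by
  rcases h with ⟨t, h⟩ | ⟨t, h⟩
  · by_contra hne
    have ht' : t ≠ [] := by
      rintro rfl
      exact hne (by simpa using h)
    have h1 := hb.2 a t h.symm ht'
    have h2 := ha.1
    omega
  · by_contra hne
    have ht' : t ≠ [] := by
      rintro rfl
      exact hne (by simpa using h.symm)
    have h1 := ha.2 b t h.symm ht'
    have h2 := hb.1
    omega

/-- a first passage and an initial part of a list through the same point -/
lemma cmp_cut (hht : ∀ a, 1 ≤ ht a) {q v q' v' : List α} (h : Cmp (q ++ v) (q' ++ v'))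
    (hh : hL ht q ≤ hL ht q') (_ : hL ht q' < hL ht q + hL ht v ∨ q = q') :
    ∃ s, q' = q ++ s ∧ (Cmp v (s ++ v')) := by
  have gen : ∀ {x y : List α}, q ++ x = q' ++ y → ∃ s, q' = q ++ s ∧ x = s ++ y := by
    intro x y he
    rcases hh.lt_or_eq with h1 | h1
    · exact ins_cmp ht he h1
    · obtain ⟨h2, h3⟩ := ins_eq ht hht he h1
      exact ⟨[], by simp [h2], by simpa using h3⟩
  rcases h with ⟨t, h⟩ | ⟨t, h⟩
  · rw [List.append_assoc] at h
    obtain ⟨s, h1, h2⟩ := gen h
    exact ⟨s, h1, Or.inl ⟨t, h2⟩⟩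
  · rw [List.append_assoc] at h
    obtain ⟨s, h1, h2⟩ := gen h.symm
    refine ⟨s, h1, Or.inr ⟨t, ?_⟩⟩
    rw [List.append_assoc, ← h2]

theorem Pset_no_clash (hht : ∀ a, 1 ≤ ht a) {m m1 m2 h h' : ℕ} (hm1 : m ≤ m1) (hm2 : m ≤ m2)
    (hh' : h' < m) (hlt : h < h') {q q' l l' : List α × List α} (hq : q ∈ Mset ht dx h)
    (hl : l ∈ Pset ht dx m m1 m2) (hq' : q' ∈ Mset ht dx h')
    (e1 : Cmp (q.1 ++ l.1) (q'.1 ++ l'.1)) (e2 : Cmp (q.2 ++ l.2) (q'.2 ++ l'.2)) : False := by
  obtain ⟨hq1, hq2, -⟩ := hq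
  obtain ⟨hq1', hq2', hmin⟩ := hq'
  obtain ⟨hv1, hv2, hpos⟩ := hl
  have g1 := hv1.1
  have g2 := hv2.1
  obtain ⟨s1, a1, b1⟩ := cmp_cut ht hht e1 (by omega) (Or.inl (by omega))
  obtain ⟨s2, a2, b2⟩ := cmp_cut ht hht e2 (by omega) (Or.inl (by omega))
  have c1 : hL ht s1 = h' - h := by
    have := ins_hL_append ht q.1 s1
    rw [← a1] at this
    omega
  have c2 : hL ht s2 = h' - h := by
    have := ins_hL_append ht q.2 s2
    rw [← a2] at this
    omega
  have pre : ∀ {v s v' : List α}, Cmp v (s ++ v') → hL ht s < hL ht v → ∃ r, v = s ++ r := by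
    intro v s v' hc hs
    rcases hc with ⟨t, h⟩ | ⟨t, h⟩
    · rcases List.append_eq_append_iff.1 h with ⟨c, h1, _⟩ | ⟨c, h1, _⟩
      · exfalso
        rw [h1, ins_hL_append] at hs
        omega
      · exact ⟨c, h1⟩
    · exact ⟨v' ++ t, by rw [← List.append_assoc, h]⟩
  obtain ⟨r1, f1⟩ := pre b1 (by omega)
  obtain ⟨r2, f2⟩ := pre b2 (by omega)
  have d1 := hpos s1 r1 s2 r2 f1 f2 (by omega) (by omega) (by omega)
  have d2 := hmin q.1 s1 q.2 s2 a1 a2 (by omega)
  have x1 : xL dx q'.1 = xL dx q.1 + xL dx s1 := by rw [a1, ins_xL_append]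
  have x2 : xL dx q'.2 = xL dx q.2 + xL dx s2 := by rw [a2, ins_xL_append]
  omega

theorem Pset_mul_le (hht : ∀ a, 1 ≤ ht a) (hw : ∑' a, w a ≤ 1) {m m1 m2 : ℕ} (hm1 : m ≤ m1)
    (hm2 : m ≤ m2) :
    (∑ h ∈ Finset.range m, wsum (Mset ht dx h) (w2 w)) * wsum (Pset ht dx m m1 m2) (w2 w) ≤ 1 := by
  classical
  set A : Set (List α × List α) := {p | ∃ h ∈ Finset.range m, p ∈ Mset ht dx h} with hA
  have h1 : ∑ h ∈ Finset.range m, wsum (Mset ht dx h) (w2 w) ≤ wsum A (w2 w) := by
    refine sum_wsum_le_of_disj _ _ _ _ (fun h hh p hp => ⟨h, hh, hp⟩) ?_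
    intro i _ j _ x hx hy
    rw [← hx.1, ← hy.1]
  have hinj : ∀ x ∈ A ×ˢ Pset ht dx m m1 m2, ∀ y ∈ A ×ˢ Pset ht dx m m1 m2,
      Cmp (x.1.1 ++ x.2.1) (y.1.1 ++ y.2.1) → Cmp (x.1.2 ++ x.2.2) (y.1.2 ++ y.2.2) → x = y := by
    rintro ⟨q, l⟩ ⟨⟨h, hh, hq⟩, hl⟩ ⟨q', l'⟩ ⟨⟨h', hh', hq'⟩, hl'⟩ e1 e2
    rw [Finset.mem_range] at hh hh'
    dsimp only at hq hl hq' hl' e1 e2
    have sym : ∀ {a b : List α}, Cmp a b → Cmp b a := fun h => h.symm
    rcases lt_trichotomy h h' with hlt | heq | hgt
    · exact (Pset_no_clash ht dx hht hm1 hm2 hh' hlt hq hl hq' e1 e2).elim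
    · subst heq
      have g1 := hq.1
      have g2 := hq.2.1
      have g1' := hq'.1
      have g2' := hq'.2.1
      have same : ∀ {a v a' v' : List α} {k : ℕ}, hL ht a = h → hL ht a' = h → v ∈ Vset ht k →
          v' ∈ Vset ht k → Cmp (a ++ v) (a' ++ v') → a = a' ∧ v = v' := by
        intro a v a' v' k k1 k2 k3 k4 hc
        rcases hc with ⟨t, ht1⟩ | ⟨t, ht1⟩
        · rw [List.append_assoc] at ht1
          obtain ⟨j1, j2⟩ := ins_eq ht hht ht1 (by omega)
          exact ⟨j1, Vset_cmp ht k3 k4 (Or.inl ⟨t, j2⟩)⟩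
        · rw [List.append_assoc] at ht1
          obtain ⟨j1, j2⟩ := ins_eq ht hht ht1 (by omega)
          exact ⟨j1.symm, (Vset_cmp ht k4 k3 (Or.inl ⟨t, j2⟩)).symm⟩
      obtain ⟨p1, p2⟩ := same g1 g1' hl.1 hl'.1 e1
      obtain ⟨p3, p4⟩ := same g2 g2' hl.2.1 hl'.2.1 e2
      exact Prod.ext (Prod.ext p1 p3) (Prod.ext p2 p4)
    · exact (Pset_no_clash ht dx hht hm1 hm2 hh hgt hq' hl' hq (sym e1) (sym e2)).elim
  set T : Set (List α × List α) := {p | ∃ x ∈ A ×ˢ Pset ht dx m m1 m2,
    p = (x.1.1 ++ x.2.1, x.1.2 ++ x.2.2)} with hT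
  calc (∑ h ∈ Finset.range m, wsum (Mset ht dx h) (w2 w)) * wsum (Pset ht dx m m1 m2) (w2 w)
      ≤ wsum A (w2 w) * wsum (Pset ht dx m m1 m2) (w2 w) := mul_le_mul' h1 le_rfl
    _ = wsum (A ×ˢ Pset ht dx m m1 m2) (fun p => w2 w p.1 * w2 w p.2) := (wsum_prod _ _ _ _).symm
    _ ≤ wsum T (w2 w) := by
        refine wsum_le_of_injOn (fun x => (x.1.1 ++ x.2.1, x.1.2 ++ x.2.2)) ?_ ?_ ?_
        · intro x hx
          exact ⟨x, hx, rfl⟩
        · intro x hx y hy he
          simp only [Prod.mk.injEq] at he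
          exact hinj x hx y hy (by rw [he.1]; exact cmp_refl _) (by rw [he.2]; exact cmp_refl _)
        · rintro ⟨q, l⟩ -
          simp only [w2, ins_wL_append]
          exact le_of_eq (by ring)
    _ ≤ 1 := by
        apply kraft_pair w hw
        rintro a ⟨x, hx, rfl⟩ b ⟨y, hy, rfl⟩ h2 h3
        rw [hinj x hx y hy h2 h3]

/-- The mass of the pairs of first passages with a constant sign below `m`. -/
theorem Pset_sq_le (hht : ∀ a, 1 ≤ ht a) (hw : ∑' a, w a ≤ 1) {m m1 m2 : ℕ} (hm1 : m ≤ m1)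
    (hm2 : m ≤ m2) :
    (∑ n ∈ Finset.range m, Bw ht w n ^ 2) * wsum (Pset ht dx m m1 m2) (w2 w) ^ 2 ≤ 1 := by
  rcases Nat.eq_zero_or_pos m with rfl | hm
  · simp
  obtain ⟨L, rfl⟩ : ∃ L, m = L + 1 := ⟨m - 1, by omega⟩
  calc (∑ n ∈ Finset.range (L + 1), Bw ht w n ^ 2) * wsum (Pset ht dx (L + 1) m1 m2) (w2 w) ^ 2
      ≤ Mw ht dx w L ^ 2 * wsum (Pset ht dx (L + 1) m1 m2) (w2 w) ^ 2 :=
        mul_le_mul' (sum_sq_le ht dx w hht L) le_rfl
    _ = (Mw ht dx w L * wsum (Pset ht dx (L + 1) m1 m2) (w2 w)) ^ 2 := by rw [mul_pow]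
    _ ≤ 1 ^ 2 := by
        gcongr
        exact Pset_mul_le ht dx w hht hw hm1 hm2
    _ = 1 := one_pow 2

/-- insertion of a pair ending at a weak minimum before a pair starting at a strict minimum, total
height of passage `m + 1` on both sides -/
theorem Q_plus (hht : ∀ a, 1 ≤ ht a) (hw : ∑' a, w a ≤ 1) (m : ℕ) :
    Mw ht dx w m * wsum {p : List α × List α | p.1 ∈ Vset ht (m + 1) ∧ p.2 ∈ Vset ht (m + 1) ∧
      ∀ q1 r1 q2 r2, p.1 = q1 ++ r1 → p.2 = q2 ++ r2 → hL ht q1 = hL ht q2 → 0 < hL ht q1 →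
        xL dx q1 < xL dx q2} (w2 w) ≤ 1 := by
  refine le_trans (mul_le_mul' le_rfl ?_) (Pset_mul_le ht dx w hht hw (m := m + 1)
    (m1 := m + 1) (m2 := m + 1) le_rfl le_rfl)
  apply wsum_mono _ (fun _ _ => le_rfl)
  rintro p ⟨h1, h2, h3⟩
  exact ⟨h1, h2, fun q1 r1 q2 r2 e1 e2 hh hpos _ => h3 q1 r1 q2 r2 e1 e2 hh hpos⟩

end Abstract


end Pool.Agent.BT
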