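import Pool.Agent.BT.Defs
import Pool.Agent.BT.Order2

set_option autoImplicit false

open scoped ENNReal
open Filter Topology Pool.Agent.SawTree Pool.Agent.BB

namespace Pool.Agent.BT

theorem bd_append (x y : List Atom) : bd (x ++ y) = bd y ++ bd x := by
  unfold bd
  rw [flat_append]
  simp

theorem rev_bd (l : List Atom) : (bd l).reverse.map reflY = flat l := by
  unfold bd
  rw [← List.map_reverse, List.reverse_reverse, reflY_reflY]

theorem X_bd (l : List Atom) : X (bd l) = (hL aht l : ℤ) := by
  unfold bd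
  rw [X_reflY, X_reverse, X_flat]

theorem Y_bd (l : List Atom) : Y (bd l) = - xL adx l := by
  unfold bd
  rw [Y_reflY, Y_reverse, Y_flat]

theorem bd_mem (l : List Atom) : bd l ∈ Bd (hL aht l) := by
  have hbr := flat_br l
  have hspl : ∀ p q : Wd, bd l = p ++ q →
      flat l = (q.map reflY).reverse ++ (p.map reflY).reverse := by
    intro p q e
    exact rev_split (u := flat l) (by exact e)
  refine ⟨saw_reflY hbr.1.rev', ?_, ?_, X_bd l⟩
  · intro p q e hp
    have h1 := hbr.2.2 _ _ (hspl p q e) (by simpa using hp)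
    rwa [X_reverse, X_reflY] at h1
  · intro p q e
    have h1 := hbr.2.1 _ _ (hspl p q e)
    rw [X_reverse, X_reflY] at h1
    have h2 : X (bd l) = X p + X q := by rw [e, X_append]
    rw [X_bd] at h2
    omega

theorem exists_bd {A : ℕ} {u : Wd} (hu : u ∈ Bd A) : ∃ l : List Atom, bd l = u ∧ hL aht l = A := by
  obtain ⟨hbr, hX⟩ := Bd_rev_br hu
  obtain ⟨l, hl⟩ := exists_flat hbr
  have h1 : bd l = u := by
    unfold bd
    rw [hl, ← List.map_reverse, List.reverse_reverse, reflY_reflY]
  refine ⟨l, h1, ?_⟩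
  have h2 := X_bd l
  rw [h1, hu.2.2.2] at h2
  exact_mod_cast h2.symm

theorem bd_injective : Function.Injective bd := by
  intro l l' h
  apply flat_injective
  rw [← rev_bd l, ← rev_bd l', h]

theorem bd_length (z : ℝ≥0∞) (l : List Atom) : wL (aw z) l = z ^ (bd l).length := by
  rw [wL_flat]
  unfold bd
  rw [List.length_map, List.length_reverse]

section turn

variable {l l' : List Atom} (hS : Saw (bd l ++ (bd l').map refl))

include hS in
/-- the points of the two branches are distinct -/
theorem turn_disj {q1 r1 p1 t1 : List Atom} (e1 : l = q1 ++ r1) (e2 : l'.reverse = p1 ++ t1)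
    {x x' y y' : Wd} (hx : flat r1 = x ++ x') (hy : bd t1.reverse = y ++ y')
    (hpos : 0 < hL aht q1) (hh : hL aht q1 = hL aht p1) :
    ¬ (X x = X y ∧ xL adx q1 + Y x = - xL adx p1 + Y y) := by
  have e3 : l' = t1.reverse ++ p1.reverse := by
    rw [← List.reverse_reverse l', e2, List.reverse_append]
  have h1 : (bd l).reverse.map reflY = (flat q1 ++ x) ++ x' := by
    rw [rev_bd, e1, flat_append, hx, List.append_assoc]
  have h2 : bd l' = (bd p1.reverse ++ y) ++ y' := by
    rw [e3, bd_append, hy, List.append_assoc]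
  have h3 := UU_disj hS _ _ _ _ h1 h2 (by
    left
    intro hcon
    have h5 := (List.append_eq_nil_iff.mp hcon).1
    have h6 := X_flat q1
    rw [h5] at h6
    simp at h6
    omega)
  have h7 : hL aht p1.reverse = hL aht p1 := by
    unfold hL
    rw [List.map_reverse, List.sum_reverse]
  have h8 : xL adx p1.reverse = xL adx p1 := by
    unfold xL
    rw [List.map_reverse, List.sum_reverse]
  rw [X_append, X_append, Y_append, Y_append, X_flat, X_bd, Y_flat, Y_bd, h7, h8, hh] at h3
  rintro ⟨ha, hb⟩
  exact h3 ⟨by omega, hb⟩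

include hS in
theorem turn_ne {q1 r1 p1 t1 : List Atom} (e1 : l = q1 ++ r1) (e2 : l'.reverse = p1 ++ t1)
    (hpos : 0 < hL aht q1) (hh : hL aht q1 = hL aht p1) : xL adx q1 + xL adx p1 ≠ 0 := by
  have h1 := turn_disj hS e1 e2 (x := []) (x' := flat r1) (y := []) (y' := bd t1.reverse)
    (by simp) (by simp) hpos hh
  intro hcon
  apply h1
  refine ⟨rfl, ?_⟩
  simp only [Y_nil, add_zero]
  omega

include hS in
/-- the order is the same at two common splits -/
theorem turn_step {q1 r1 p1 t1 q2 r2 p2 t2 : List Atom}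
    (e1 : l = q1 ++ r1) (e2 : l'.reverse = p1 ++ t1)
    (e1' : l = q2 ++ r2) (e2' : l'.reverse = p2 ++ t2)
    (hpos : 0 < hL aht q1) (hh : hL aht q1 = hL aht p1) (hh' : hL aht q2 = hL aht p2)
    (hlt : hL aht q1 < hL aht q2) :
    (xL adx q1 + xL adx p1 < 0 → xL adx q2 + xL adx p2 < 0) ∧
    (0 < xL adx q1 + xL adx p1 → 0 < xL adx q2 + xL adx p2) := by
  obtain ⟨m1, f1, g1⟩ := nested e1 e1' hlt
  obtain ⟨m2, f2, g2⟩ := nested e2 e2' (by omega)
  have hrev : ∀ m : List Atom, hL aht m.reverse = hL aht m := by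
    intro m
    unfold hL
    rw [List.map_reverse, List.sum_reverse]
  have hrevx : ∀ m : List Atom, xL adx m.reverse = xL adx m := by
    intro m
    unfold xL
    rw [List.map_reverse, List.sum_reverse]
  have hX1 : X (flat m1) = ((hL aht q2 : ℕ) : ℤ) - (hL aht q1 : ℕ) := by
    rw [f1, hL_append, X_flat]; push_cast; ring
  have hX2 : X (bd m2.reverse) = ((hL aht q2 : ℕ) : ℤ) - (hL aht q1 : ℕ) := by
    rw [hh', hh, f2, hL_append, X_bd, hrev]; push_cast; ring
  have hpos' : (0 : ℤ) < ((hL aht q2 : ℕ) : ℤ) - (hL aht q1 : ℕ) := by omega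
  have hbd := bd_mem m2.reverse
  have hbX : ((hL aht m2.reverse : ℕ) : ℤ) = ((hL aht q2 : ℕ) : ℤ) - (hL aht q1 : ℕ) := by
    rw [← X_bd, hX2]
  have key : ∀ x x' y y' : Wd, flat m1 = x ++ x' → bd m2.reverse = y ++ y' →
      ¬ (X x = X y ∧ xL adx q1 + Y x = - xL adx p1 + Y y) := by
    intro x x' y y' hx hy
    refine turn_disj hS e1 e2 (x' := x' ++ flat r2) (y' := y' ++ bd t2.reverse) ?_ ?_ hpos hh
    · rw [g1, flat_append, hx, List.append_assoc]
    · rw [g2, List.reverse_append, bd_append, hy, List.append_assoc]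
  constructor
  · intro hlt1
    have h1 := order_closed (flat m1) (bd m2.reverse) _ hpos' (xL adx q1) (- xL adx p1)
      (by omega) (flat_br m1).2.1 (flat_br m1).2.2 hX1 hbd.2.1
      (fun u v e => by have := hbd.2.2.1 u v e; omega) hX2 key
    rw [Y_flat, Y_bd, hrevx] at h1
    rw [f1, f2, xL_append, xL_append]
    omega
  · intro hlt1
    have hmap : ∀ {w x y : Wd}, w.map reflY = x ++ y → w = x.map reflY ++ y.map reflY := by
      intro w x y e
      rw [← reflY_reflY w, e]; simp
    have h1 := order_closed ((flat m1).map reflY) ((bd m2.reverse).map reflY) _ hpos'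
      (- xL adx q1) (xL adx p1) (by omega)
      (fun x y e => by
        have := (flat_br m1).2.1 _ _ (hmap e)
        rwa [X_reflY] at this)
      (fun x y e hy => by
        have := (flat_br m1).2.2 _ _ (hmap e) (by simpa using hy)
        rwa [X_reflY] at this)
      (by rw [X_reflY]; exact hX1)
      (fun x y e hx => by
        have := hbd.2.1 _ _ (hmap e) (by simpa using hx)
        rwa [X_reflY] at this)
      (fun x y e => by
        have := hbd.2.2.1 _ _ (hmap e)
        rw [X_reflY] at this
        omega)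
      (by rw [X_reflY]; exact hX2)
      (fun x x' y y' hx hy => by
        have h2 := key _ _ _ _ (hmap hx) (hmap hy)
        rw [X_reflY, X_reflY, Y_reflY, Y_reflY] at h2
        rintro ⟨ha, hb⟩
        exact h2 ⟨ha, by omega⟩)
    rw [Y_reflY, Y_reflY, Y_flat, Y_bd, hrevx] at h1
    rw [f1, f2, xL_append, xL_append]
    omega

end turn

/-- two initial parts of the same list with the same height are equal -/
theorem split_unique {l q r q' r' : List Atom} (e : l = q ++ r) (e' : l = q' ++ r')
    (h : hL aht q = hL aht q') : q = q' := by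
  apply flat_injective
  have h3 : flat q ++ flat r = flat q' ++ flat r' := by
    rw [← flat_append, ← flat_append, ← e, ← e']
  exact (span_unique (flat_br q) (flat_br q') (by rw [X_flat, X_flat, h]) h3).1

/-- Two consecutive bridges which avoid each other are in constant strict order at all the common
splits. -/
theorem KK_of_saw {l l' : List Atom} (h : hL aht l' < hL aht l)
    (hS : Saw (bd l ++ (bd l').map refl)) : KK aht adx l l'.reverse := by
  by_cases hex : ∃ q1 r1 p1 t1, l = q1 ++ r1 ∧ l'.reverse = p1 ++ t1 ∧ hL aht q1 = hL aht p1 ∧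
      0 < hL aht q1 ∧ xL adx q1 + xL adx p1 < 0
  · right
    obtain ⟨q1, r1, p1, t1, e1, e2, hh, hpos, hneg⟩ := hex
    intro q2 r2 p2 t2 e1' e2' hh' hpos'
    rcases lt_trichotomy (hL aht q1) (hL aht q2) with hc | hc | hc
    · exact (turn_step hS e1 e2 e1' e2' hpos hh hh' hc).1 hneg
    · have h1 := split_unique e1 e1' hc
      have h2 := split_unique e2 e2' (by omega)
      rw [← h1, ← h2]
      exact hneg
    · by_contra hcon
      have hne := turn_ne hS e1' e2' hpos' hh'
      have := (turn_step hS e1' e2' e1 e2 hpos' hh' hh hc).2 (by omega)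
      omega
  · left
    intro q2 r2 p2 t2 e1' e2' hh' hpos'
    have hne := turn_ne hS e1' e2' hpos' hh'
    by_contra hcon
    apply hex
    exact ⟨q2, r2, p2, t2, e1', e2', hh', hpos', by omega⟩

end Pool.Agent.BT
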